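import Pool.Agent.FBB.Defs2
import Pool.Agent.ZCyc.Places

/-!
# Specialisation of Galois orbits
-/

set_option autoImplicit false

noncomputable section

namespace Pool.Agent.FBB

open scoped LinearAlgebra.Projectivization
open Pool.Agent.ZCyc

variable {d m N : ℕ}

private theorem bridge_pt (x : Fin m → Fin N → ℂ) (h : ∀ i, x i ≠ 0) :
    pt x = Finsupp.single (fun i => Projectivization.mk ℂ (x i) (h i)) 1 := by
  unfold pt
  rw [dif_pos h]

private theorem bridge_nonunits (L : IntermediateField (RatFunc ℂ) Om) (v : Place ℂ Om) (x : L) :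
    x ∈ (v.ring.comap (algebraMap L Om)).nonunits ↔ v.Vanishes (x : Om) := by
  rw [ValuationSubring.mem_nonunits_iff_or, Place.vanishes_iff_or, ValuationSubring.mem_comap,
    map_inv₀, ZeroMemClass.coe_eq_zero]
  rfl

private theorem bridge_red (L : IntermediateField (RatFunc ℂ) Om) (v : Place ℂ Om) (Q : Fin N → L)
    (s : Om) (u : Fin N → ℂ) (hu : u ≠ 0) (h : ∀ j, v.At (s * (Q j : Om)) (u j)) :
    Red (v.ring.comap (algebraMap L Om)) Q (Projectivization.mk ℂ u hu) := by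
  obtain ⟨j₀, hj₀⟩ := Function.ne_iff.1 hu
  have hj₀' : u j₀ ≠ 0 := hj₀
  obtain ⟨c, hc⟩ := Projectivization.exists_smul_eq_mk_rep ℂ u hu
  have h0 : s * (Q j₀ : Om) ≠ 0 := by
    intro h1
    have h2 := h j₀
    rw [h1] at h2
    exact hj₀' (h2.unique (by simpa using Place.at_const (v := v) (0 : ℂ)))
  have hs : s ≠ 0 := left_ne_zero_of_mul h0
  have hQ : (Q j₀ : Om) ≠ 0 := right_ne_zero_of_mul h0
  refine ⟨algebraMap ℂ L ((c : ℂ) * u j₀) / Q j₀, fun j => ?_⟩
  rw [bridge_nonunits]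
  have h1 : v.At (algebraMap ℂ Om ((c : ℂ) * u j₀) * ((s * (Q j : Om)) / (s * (Q j₀ : Om))))
      (((c : ℂ) * u j₀) * (u j / u j₀)) :=
    (Place.at_const _).mul ((h j).div (h j₀) hj₀')
  have h2 : (Projectivization.mk ℂ u hu).rep j = ((c : ℂ) * u j₀) * (u j / u j₀) := by
    rw [← hc, Pi.smul_apply, Units.smul_def, smul_eq_mul]
    field_simp
  rw [h2]
  unfold Place.At at h1
  convert h1 using 1
  push_cast
  have e1 : ∀ z : ℂ, ((algebraMap ℂ L z : L) : Om) = algebraMap ℂ Om z := fun z => rfl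
  rw [e1, e1, e1]
  congr 1
  field_simp

private theorem bridge_transc : Transcendental ℂ tt := by
  unfold tt
  rw [transcendental_algebraMap_iff (algebraMap (RatFunc ℂ) Om).injective]
  exact RatFunc.transcendental_X

private theorem bridge_vanish (L : IntermediateField (RatFunc ℂ) Om) (v : Place ℂ Om) {c : ℂ}
    (h : v.At tt c) : algebraMap (RatFunc ℂ) L (RatFunc.X - RatFunc.C c) ∈
      (v.ring.comap (algebraMap L Om)).nonunits := by
  rw [bridge_nonunits]
  have e : ((algebraMap (RatFunc ℂ) L (RatFunc.X - RatFunc.C c) : L) : Om) =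
      tt - algebraMap ℂ Om c := by
    unfold tt
    rw [IsScalarTower.algebraMap_apply ℂ (RatFunc ℂ) Om, ← map_sub]
    rfl
  rw [e]
  exact h

private theorem bridge_const (L : IntermediateField (RatFunc ℂ) Om) (v : Place ℂ Om) (c : ℂ) :
    algebraMap ℂ L c ∈ v.ring.comap (algebraMap L Om) := by
  rw [ValuationSubring.mem_comap]
  exact v.const_mem c

/-- the permutation of the index set attached to an element of the Galois group -/
private theorem bridge_perm {I : Type} (L : IntermediateField (RatFunc ℂ) Om)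
    [Normal (RatFunc ℂ) L] (P : I → Fin m → Fin N → L) (c : ℂ) (u : I → Fin m → Fin N → ℂ)
    (hu : ∀ a i, u a i ≠ 0) (h : ∀ v : Place ℂ Om, v.At tt c →
      ∃ r : Equiv.Perm I, ∀ a i, RedV v (fun j => (P a i j : Om)) (u (r a) i))
    (v : Place ℂ Om) (hv : v.At tt c) (τ : L ≃ₐ[RatFunc ℂ] L) :
    ∃ r : Equiv.Perm I, ∀ a i, Red (v.ring.comap (algebraMap L Om)) (fun j => τ (P a i j))
      (Projectivization.mk ℂ (u (r a) i) (hu (r a) i)) := by
  set τ' : Om ≃ₐ[RatFunc ℂ] Om := τ.liftNormal Om with hτ'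
  have hτ : ∀ x : L, τ' (x : Om) = (τ x : Om) := fun x => AlgEquiv.liftNormal_commutes τ Om x
  have hat : ∀ (x : Om) (z : ℂ), (v.map (τ'.restrictScalars ℂ).symm).At x z ↔ v.At (τ' x) z := by
    intro x z
    rw [Place.at_map]
    rfl
  have htt : (v.map (τ'.restrictScalars ℂ).symm).At tt c := by
    rw [hat]
    have : τ' tt = tt := τ'.commutes RatFunc.X
    rw [this]
    exact hv
  obtain ⟨r, hr⟩ := h _ htt
  refine ⟨r, fun a i => ?_⟩
  obtain ⟨s, hs⟩ := hr a i
  refine bridge_red L v _ (τ' s) _ (hu (r a) i) fun j => ?_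
  have h1 := hs j
  rw [hat, map_mul, hτ] at h1
  exact h1

theorem bridge {I : Type} [Fintype I] (P : I → Fin m → Fin N → Om)
    (hP : ∀ a i, P a i ≠ 0 ∧ ∑ j, P a i j ^ d = 0) (c₀ c₁ : ℂ) (u₀ u₁ : I → Fin m → Fin N → ℂ)
    (hu₀ : ∀ a i, u₀ a i ≠ 0) (hu₁ : ∀ a i, u₁ a i ≠ 0)
    (h₀ : ∀ v : Place ℂ Om, v.At tt c₀ →
      ∃ r : Equiv.Perm I, ∀ a i, RedV v (P a i) (u₀ (r a) i))
    (h₁ : ∀ v : Place ℂ Om, v.At tt c₁ →
      ∃ r : Equiv.Perm I, ∀ a i, RedV v (P a i) (u₁ (r a) i)) :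
    ∑ a, cl d (u₀ a) = ∑ a, cl d (u₁ a) := by
  classical
  let S : Set Om := Set.range fun w : I × Fin m × Fin N => P w.1 w.2.1 w.2.2
  let L1 : IntermediateField (RatFunc ℂ) Om := IntermediateField.adjoin (RatFunc ℂ) S
  have hfd : FiniteDimensional (RatFunc ℂ) L1 := by
    have : Finite S := (Set.finite_range _).to_subtype
    exact IntermediateField.finiteDimensional_adjoin fun z _ =>
      Algebra.IsIntegral.isIntegral z
  let L : IntermediateField (RatFunc ℂ) Om := IntermediateField.normalClosure (RatFunc ℂ) L1 Om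
  have hLF : L1 ≤ L := IntermediateField.le_normalClosure L1
  have hPL : ∀ a i j, P a i j ∈ L := fun a i j =>
    hLF (IntermediateField.subset_adjoin (RatFunc ℂ) S ⟨(a, i, j), rfl⟩)
  have : Normal (RatFunc ℂ) L := normalClosure.normal (RatFunc ℂ) L1 Om
  have : FiniteDimensional (RatFunc ℂ) L := normalClosure.is_finiteDimensional (RatFunc ℂ) L1 Om
  have : IsGalois (RatFunc ℂ) L := {}
  obtain ⟨v₀, hv₀⟩ := exists_place bridge_transc c₀
  obtain ⟨v₁, hv₁⟩ := exists_place bridge_transc c₁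
  let P' : I → Fin m → Fin N → L := fun a i j => ⟨P a i j, hPL a i j⟩
  have key₀ := bridge_perm L P' c₀ u₀ hu₀ h₀ v₀ hv₀
  have key₁ := bridge_perm L P' c₁ u₁ hu₁ h₁ v₁ hv₁
  choose r₀ hr₀ using key₀
  choose r₁ hr₁ using key₁
  have hmem : ∀ a, ∑ τ : L ≃ₐ[RatFunc ℂ] L,
      (pt (u₀ (r₀ τ a)) - pt (u₁ (r₁ τ a))) ∈ ratEq ℂ d m N := by
    intro a
    apply Submodule.subset_span
    refine ⟨L, inferInstance, inferInstance, inferInstance, inferInstance, inferInstance,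
      inferInstance, P' a, c₀, c₁, v₀.ring.comap (algebraMap L Om),
      v₁.ring.comap (algebraMap L Om),
      fun τ i => Projectivization.mk ℂ (u₀ (r₀ τ a) i) (hu₀ (r₀ τ a) i),
      fun τ i => Projectivization.mk ℂ (u₁ (r₁ τ a) i) (hu₁ (r₁ τ a) i), ?_,
      bridge_const L v₀, bridge_vanish L v₀ hv₀, bridge_const L v₁, bridge_vanish L v₁ hv₁,
      fun τ i => hr₀ τ a i, fun τ i => hr₁ τ a i, ?_⟩
    · intro i
      constructor
      · intro h
        apply (hP a i).1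
        funext j
        exact congrArg Subtype.val (congrFun h j)
      · apply Subtype.ext
        have := (hP a i).2
        push_cast
        exact this
    · refine Finset.sum_congr rfl fun τ _ => ?_
      rw [bridge_pt _ (hu₀ (r₀ τ a)), bridge_pt _ (hu₁ (r₁ τ a))]
  have hsum : ∑ a, ∑ τ : L ≃ₐ[RatFunc ℂ] L, (pt (u₀ (r₀ τ a)) - pt (u₁ (r₁ τ a))) =
      (Fintype.card (L ≃ₐ[RatFunc ℂ] L) : ℂ) • (∑ a, pt (u₀ a) - ∑ a, pt (u₁ a)) := by
    rw [Finset.sum_comm]
    have : ∀ τ : L ≃ₐ[RatFunc ℂ] L, ∑ a, (pt (u₀ (r₀ τ a)) - pt (u₁ (r₁ τ a))) =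
        ∑ a, pt (u₀ a) - ∑ a, pt (u₁ a) := by
      intro τ
      rw [Finset.sum_sub_distrib, Equiv.sum_comp (r₀ τ) (fun a => pt (u₀ a)),
        Equiv.sum_comp (r₁ τ) (fun a => pt (u₁ a))]
    rw [Finset.sum_congr rfl fun τ _ => this τ, Finset.sum_const, Finset.card_univ,
      Nat.cast_smul_eq_nsmul]
  have hcard : (Fintype.card (L ≃ₐ[RatFunc ℂ] L) : ℂ) ≠ 0 :=
    Nat.cast_ne_zero.2 Fintype.card_ne_zero
  have hfin : ∑ a, pt (u₀ a) - ∑ a, pt (u₁ a) ∈ ratEq ℂ d m N := by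
    have h1 : (Fintype.card (L ≃ₐ[RatFunc ℂ] L) : ℂ) •
        (∑ a, pt (u₀ a) - ∑ a, pt (u₁ a)) ∈ ratEq ℂ d m N := by
      rw [← hsum]
      exact Submodule.sum_mem _ fun a _ => hmem a
    exact (Submodule.smul_mem_iff _ hcard).1 h1
  have h2 : ∀ w : I → Fin m → Fin N → ℂ, ∑ a, cl d (w a) =
      (Submodule.Quotient.mk (∑ a, pt (w a)) : V d m N) := by
    intro w
    have := map_sum (ratEq ℂ d m N).mkQ (fun a => pt (w a)) Finset.univ
    exact this.symm
  rw [h2, h2]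
  exact (Submodule.Quotient.eq _).2 hfin

end Pool.Agent.FBB
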