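import Pool.Agent.FBB.Defs2

/-!
# Points, classes of points and roots of unity
-/

set_option autoImplicit false

noncomputable section

namespace Pool.Agent.FBB

open scoped LinearAlgebra.Projectivization
open Pool.Agent.ZCyc

variable {d m N : ℕ}

theorem pt_eq_single (x : Fin m → Fin N → ℂ) (h : ∀ i, x i ≠ 0) :
    pt x = Finsupp.single (fun i => Projectivization.mk ℂ (x i) (h i)) 1 := by
  unfold pt
  rw [dif_pos h]

theorem pt_rep (p : Pts m N) : pt (fun i => (p i).rep) = Finsupp.single p 1 := by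
  rw [pt_eq_single (fun i => (p i).rep) (fun i => (p i).rep_nonzero)]
  congr 1
  funext i
  exact (p i).mk_rep

theorem cl_smul (c : Fin m → ℂ) (hc : ∀ i, c i ≠ 0) (x : Fin m → Fin N → ℂ) :
    cl d (fun i j => c i * x i j) = cl d x := by
  unfold cl
  congr 1
  by_cases h : ∀ i, x i ≠ 0
  · have h' : ∀ i, (fun j => c i * x i j) ≠ 0 := by
      intro i h0
      apply h i
      funext j
      have := congrFun h0 j
      simp only [Pi.zero_apply, mul_eq_zero, hc i, false_or] at this
      exact this
    rw [pt_eq_single _ h, pt_eq_single _ h']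
    congr 1
    funext i
    rw [Projectivization.mk_eq_mk_iff]
    refine ⟨Units.mk0 (c i) (hc i), ?_⟩
    funext j
    simp [Units.smul_def]
  · have h' : ¬ ∀ i, (fun j => c i * x i j) ≠ 0 := by
      intro h0
      apply h
      intro i hi
      apply h0 i
      funext j
      rw [hi]
      simp
    unfold pt
    rw [dif_neg h, dif_neg h']

theorem psi_zero [NeZero d] : psi (0 : ZMod d) = 1 := by
  unfold psi
  exact AddChar.map_zero_eq_one _

theorem psi_add [NeZero d] (k l : ZMod d) : psi (k + l) = psi k * psi l := by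
  unfold psi
  exact AddChar.map_add_eq_mul _ _ _

theorem psi_ne [NeZero d] (k : ZMod d) : psi k ≠ 0 := by
  intro h
  have h1 := psi_add k (-k)
  rw [add_neg_cancel, psi_zero, h, zero_mul] at h1
  exact one_ne_zero h1

theorem psi_pow [NeZero d] (k : ZMod d) : psi k ^ d = 1 := by
  unfold psi
  rw [← AddChar.map_nsmul_eq_pow]
  simp

private theorem psi_prim [NeZero d] : IsPrimitiveRoot (psi (1 : ZMod d)) d := by
  have h : psi (1 : ZMod d) = Complex.exp (2 * Real.pi * Complex.I / d) := by
    unfold psi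
    have := ZMod.stdAddChar_coe (N := d) 1
    simpa using this
  rw [h]
  exact Complex.isPrimitiveRoot_exp d (NeZero.ne d)

private theorem psi_natCast [NeZero d] (n : ℕ) : psi ((n : ℕ) : ZMod d) = psi (1 : ZMod d) ^ n := by
  unfold psi
  rw [← AddChar.map_nsmul_eq_pow]
  simp

theorem exists_psi [NeZero d] {z : ℂ} (hz : z ^ d = 1) : ∃ k : ZMod d, z = psi k := by
  obtain ⟨i, -, hi⟩ := (psi_prim (d := d)).eq_pow_of_pow_eq_one hz
  exact ⟨(i : ZMod d), by rw [psi_natCast, hi]⟩

/-- values of roots -/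
theorem root_at [NeZero d] {v : Place ℂ Om} {f : Om} {z b : ℂ} (h : v.At (f ^ d) z)
    (hb : b ^ d = z) : ∃ k : ZMod d, v.At f (psi k * b) := by
  rw [← hb] at h
  obtain ⟨j, -, hj⟩ := Place.exists_root_at (psi_prim (d := d)) (Nat.pos_of_ne_zero (NeZero.ne d)) h
  exact ⟨(j : ZMod d), by rw [psi_natCast]; exact hj⟩

theorem sum_psi_mul [NeZero d] (a : ZMod d) (ha : a ≠ 0) : ∑ k : ZMod d, psi (a * k) = 0 := by
  have h1 : psi a ≠ 1 := by
    intro h
    apply ha
    have h2 : ZMod.stdAddChar a = ZMod.stdAddChar (0 : ZMod d) := by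
      unfold psi at h
      rw [h, AddChar.map_zero_eq_one]
    exact ZMod.injective_stdAddChar h2
  have h2 : psi a * ∑ k : ZMod d, psi (a * k) = ∑ k : ZMod d, psi (a * k) := by
    rw [Finset.mul_sum, ← Equiv.sum_comp (Equiv.addRight (1 : ZMod d)) (fun k => psi (a * k))]
    apply Finset.sum_congr rfl
    intro k _
    rw [← psi_add]
    congr 1
    simp [mul_add]
    ring
  have h3 : (psi a - 1) * ∑ k : ZMod d, psi (a * k) = 0 := by
    rw [sub_mul, h2, one_mul, sub_self]
  rcases mul_eq_zero.1 h3 with h4 | h4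
  · exact absurd (sub_eq_zero.1 h4) h1
  · exact h4

end Pool.Agent.FBB
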