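import Pool.Agent.FBB.Defs2
import Pool.Agent.FBB.Pt
import Pool.Agent.FBB.Bridge

/-!
# Families of points on the powers of the Fermat hypersurface, one factor moving
-/

set_option autoImplicit false

noncomputable section

namespace Pool.Agent.FBB

open scoped LinearAlgebra.Projectivization
open Pool.Agent.ZCyc

variable {d m N : ℕ}

/-- a complex polynomial which vanishes at the variable is zero -/
private theorem Fam1_aeval_ne {p : Polynomial ℂ} (hp : p ≠ 0) : Polynomial.aeval tt p ≠ 0 := by
  have h1 : Polynomial.aeval tt p =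
      algebraMap (RatFunc ℂ) Om (algebraMap (Polynomial ℂ) (RatFunc ℂ) p) := by
    rw [tt, Polynomial.aeval_algebraMap_apply]
    congr 1
    rw [← RatFunc.algebraMap_X, Polynomial.aeval_algebraMap_apply, Polynomial.aeval_X_left_apply]
  rw [h1]
  intro h
  apply hp
  have h2 := (map_eq_zero_iff _ (algebraMap (RatFunc ℂ) Om).injective).1 h
  exact (map_eq_zero_iff _ (IsFractionRing.injective (Polynomial ℂ) (RatFunc ℂ))).1 h2

private theorem Fam1_ne (a b : ℂ) (ha : a ≠ 0) :
    algebraMap ℂ Om a + tt * algebraMap ℂ Om b ≠ 0 := by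
  have h := Fam1_aeval_ne (p := Polynomial.C a + Polynomial.X * Polynomial.C b) (by
    intro h
    have := congrArg (fun p => Polynomial.eval 0 p) h
    simp at this
    exact ha this)
  rw [map_add, map_mul, Polynomial.aeval_C, Polynomial.aeval_C, Polynomial.aeval_X] at h
  exact h

theorem fam_cyc [NeZero d] (i₀ : Fin m) (x : Fin m → Fin N → ℂ)
    (hx : ∀ i, i ≠ i₀ → x i ≠ 0 ∧ ∑ j, x i j ^ d = 0) (A : Finset (Fin N))
    (u u' w : Fin N → ℂ) (hu : ∀ j ∉ A, u j = 0) (hu' : ∀ j ∉ A, u' j = 0)
    (hw : ∀ j ∈ A, w j = 0) (hu0 : u ≠ 0) (hu0' : u' ≠ 0) (τ : ℂ) (hτ : τ ≠ 0)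
    (hws : ∑ j, w j ^ d = -τ) (r r' : ℂ) (hr : ∑ j, u j ^ d = r ^ d * τ)
    (hr' : ∑ j, u' j ^ d = r' ^ d * τ) :
    ∑ k : ZMod d, cl d (Function.update x i₀ (fun j => psi k * u j + r * w j)) =
      ∑ k : ZMod d, cl d (Function.update x i₀ (fun j => psi k * u' j + r' * w j)) := by
  have hd : d ≠ 0 := NeZero.ne d
  -- the moving point
  set L : Fin N → Om := fun j => algebraMap ℂ Om (u j) + tt * algebraMap ℂ Om (u' j - u j) with hL
  set Q : Om := ∑ j, L j ^ d with hQ
  obtain ⟨ρ, hρ⟩ := IsAlgClosed.exists_pow_nat_eq (Q / algebraMap ℂ Om τ) (Nat.pos_of_ne_zero hd)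
  have hτ' : algebraMap ℂ Om τ ≠ 0 := by simpa using hτ
  set P : ZMod d → Fin m → Fin N → Om := fun k => Function.update
    (fun i j => algebraMap ℂ Om (x i j)) i₀
    (fun j => algebraMap ℂ Om (psi k) * L j + ρ * algebraMap ℂ Om (w j)) with hPdef
  have hLA : ∀ j ∉ A, L j = 0 := by
    intro j hj
    rw [hL]
    simp [hu j hj, hu' j hj]
  have hcx : ∀ i, i ≠ i₀ → (fun j => algebraMap ℂ Om (x i j)) ≠ 0 := by
    intro i hi h
    apply (hx i hi).1
    funext j
    have := congrFun h j
    simpa using this
  have hP0 : ∀ k i, P k i ≠ 0 ∧ ∑ j, P k i j ^ d = 0 := by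
    intro k i
    by_cases hi : i = i₀
    · subst hi
      rw [hPdef]
      simp only [Function.update_self]
      constructor
      · obtain ⟨j, hj⟩ := Function.ne_iff.1 hu0
        have hjA : j ∈ A := by
          by_contra h
          exact hj (hu j h)
        intro h
        have h1 := congrFun h j
        simp only [hw j hjA, map_zero, mul_zero, add_zero, Pi.zero_apply, mul_eq_zero] at h1
        rcases h1 with h1 | h1
        · exact psi_ne k (by simpa using h1)
        · exact Fam1_ne _ _ hj h1
      · have h1 : ∀ j, (algebraMap ℂ Om (psi k) * L j + ρ * algebraMap ℂ Om (w j)) ^ d =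
            L j ^ d + ρ ^ d * algebraMap ℂ Om (w j ^ d) := by
          intro j
          by_cases hj : j ∈ A
          · rw [hw j hj, map_zero, mul_zero, add_zero, mul_pow, ← map_pow, psi_pow, map_one,
              one_mul, zero_pow hd, map_zero, mul_zero, add_zero]
          · rw [hLA j hj, mul_zero, zero_add, mul_pow, zero_pow hd, zero_add, map_pow]
        rw [Finset.sum_congr rfl fun j _ => h1 j, Finset.sum_add_distrib, ← Finset.mul_sum,
          ← map_sum, hws, hρ, map_neg, mul_neg, div_mul_cancel₀ _ hτ', ← hQ]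
        ring
    · rw [hPdef]
      simp only [Function.update_of_ne hi]
      refine ⟨hcx i hi, ?_⟩
      have h1 : ∀ j, algebraMap ℂ Om (x i j) ^ d = algebraMap ℂ Om (x i j ^ d) := fun j =>
        (map_pow _ _ _).symm
      rw [Finset.sum_congr rfl fun j _ => h1 j, ← map_sum, (hx i hi).2, map_zero]
  -- values
  have hval : ∀ (v : Place ℂ Om) (c : ℂ) (y : Fin N → ℂ) (s : ℂ), v.At tt c →
      (∀ j, u j + c * (u' j - u j) = y j) → ∑ j, y j ^ d = s ^ d * τ →
      ∃ ρ' : Equiv.Perm (ZMod d), ∀ a i, RedV v (P a i)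
        (Function.update x i₀ (fun j => psi (ρ' a) * y j + s * w j) i) := by
    intro v c y s hv hy hs
    have hLv : ∀ j, v.At (L j) (y j) := by
      intro j
      rw [← hy j]
      exact (Place.at_const _).add (hv.mul (Place.at_const _))
    have hQv : v.At Q (s ^ d * τ) := by
      rw [← hs]
      exact Place.At.sum fun j _ => (hLv j).pow d
    have hρv : v.At (ρ ^ d) (s ^ d) := by
      rw [hρ]
      have := hQv.div (Place.at_const τ) hτ
      rwa [mul_div_cancel_right₀ _ hτ] at this
    obtain ⟨l, hl⟩ := root_at hρv rfl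
    refine ⟨Equiv.subRight l, fun a i => ?_⟩
    by_cases hi : i = i₀
    · subst hi
      rw [hPdef]
      simp only [Function.update_self]
      refine ⟨algebraMap ℂ Om (psi (-l)), fun j => ?_⟩
      have h1 := (Place.at_const (v := v) (psi (-l))).mul
        (((Place.at_const (v := v) (psi a)).mul (hLv j)).add
          (hl.mul (Place.at_const (v := v) (w j))))
      have h2 : psi (-l) * (psi a * y j + psi l * s * w j) =
          psi (Equiv.subRight l a) * y j + s * w j := by
        have h3 : psi (Equiv.subRight l a) = psi (-l) * psi a := by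
          rw [← psi_add, Equiv.subRight_apply]
          congr 1
          ring
        have h4 : psi (-l) * psi l = 1 := by
          rw [← psi_add, neg_add_cancel, psi_zero]
        rw [h3]
        linear_combination (s * w j) * h4
      rw [h2] at h1
      exact h1
    · rw [hPdef]
      simp only [Function.update_of_ne hi]
      refine ⟨1, fun j => ?_⟩
      rw [one_mul]
      exact Place.at_const _
  have hne : ∀ (y : Fin N → ℂ) (s : ℂ), (∀ j ∉ A, y j = 0) → y ≠ 0 →
      ∀ (a : ZMod d) (i : Fin m), Function.update x i₀ (fun j => psi a * y j + s * w j) i ≠ 0 := by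
    intro y s hy hy0 a i
    by_cases hi : i = i₀
    · subst hi
      rw [Function.update_self]
      obtain ⟨j, hj⟩ := Function.ne_iff.1 hy0
      have hjA : j ∈ A := by
        by_contra h
        exact hj (hy j h)
      intro h
      have h1 := congrFun h j
      simp only [hw j hjA, mul_zero, add_zero, Pi.zero_apply, mul_eq_zero] at h1
      rcases h1 with h1 | h1
      · exact psi_ne a h1
      · exact hj h1
    · rw [Function.update_of_ne hi]
      exact (hx i hi).1
  exact bridge P hP0 0 1
    (fun k => Function.update x i₀ (fun j => psi k * u j + r * w j))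
    (fun k => Function.update x i₀ (fun j => psi k * u' j + r' * w j))
    (hne u r hu hu0) (hne u' r' hu' hu0')
    (fun v hv => hval v 0 u r hv (fun j => by ring) hr)
    (fun v hv => hval v 1 u' r' hv (fun j => by ring) hr')

theorem fam_line [NeZero d] (i₀ : Fin m) (x : Fin m → Fin N → ℂ)
    (hx : ∀ i, i ≠ i₀ → x i ≠ 0 ∧ ∑ j, x i j ^ d = 0) (A : Finset (Fin N))
    (u w : Fin N → ℂ) (hu : ∀ j ∉ A, u j = 0) (hw : ∀ j ∈ A, w j = 0) (hu0 : u ≠ 0)
    (hus : ∑ j, u j ^ d = 0) (hws : ∑ j, w j ^ d = 0) :
    cl d (Function.update x i₀ (fun j => u j + w j)) = cl d (Function.update x i₀ u) := by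
  have hd : d ≠ 0 := NeZero.ne d
  obtain ⟨j₁, hj₁⟩ := Function.ne_iff.1 hu0
  have hj₁A : j₁ ∈ A := by
    by_contra h
    exact hj₁ (hu j₁ h)
  set P : Unit → Fin m → Fin N → Om := fun _ => Function.update
    (fun i j => algebraMap ℂ Om (x i j)) i₀
    (fun j => algebraMap ℂ Om (u j) + tt * algebraMap ℂ Om (w j)) with hPdef
  have hP0 : ∀ k i, P k i ≠ 0 ∧ ∑ j, P k i j ^ d = 0 := by
    intro k i
    by_cases hi : i = i₀
    · subst hi
      rw [hPdef]
      simp only [Function.update_self]
      constructor
      · intro h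
        exact Fam1_ne _ _ hj₁ (congrFun h j₁)
      · have h1 : ∀ j, (algebraMap ℂ Om (u j) + tt * algebraMap ℂ Om (w j)) ^ d =
            algebraMap ℂ Om (u j ^ d) + tt ^ d * algebraMap ℂ Om (w j ^ d) := by
          intro j
          by_cases hj : j ∈ A
          · rw [hw j hj, map_zero, mul_zero, add_zero, zero_pow hd, map_zero, mul_zero, add_zero,
              map_pow]
          · rw [hu j hj, map_zero, zero_add, mul_pow, zero_pow hd, map_zero, zero_add, map_pow]
        rw [Finset.sum_congr rfl fun j _ => h1 j, Finset.sum_add_distrib, ← Finset.mul_sum,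
          ← map_sum, ← map_sum, hws, hus, map_zero, mul_zero, add_zero]
    · rw [hPdef]
      simp only [Function.update_of_ne hi]
      refine ⟨?_, ?_⟩
      · intro h
        apply (hx i hi).1
        funext j
        have := congrFun h j
        simpa using this
      · have h1 : ∀ j, algebraMap ℂ Om (x i j) ^ d = algebraMap ℂ Om (x i j ^ d) := fun j =>
          (map_pow _ _ _).symm
        rw [Finset.sum_congr rfl fun j _ => h1 j, ← map_sum, (hx i hi).2, map_zero]
  have hval : ∀ (v : Place ℂ Om) (c : ℂ) (y : Fin N → ℂ), v.At tt c →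
      (∀ j, u j + c * w j = y j) →
      ∃ ρ' : Equiv.Perm Unit, ∀ a i, RedV v (P a i)
        ((fun _ => Function.update x i₀ y : Unit → Fin m → Fin N → ℂ) (ρ' a) i) := by
    intro v c y hv hy
    refine ⟨1, fun a i => ?_⟩
    by_cases hi : i = i₀
    · subst hi
      rw [hPdef]
      simp only [Function.update_self]
      refine ⟨1, fun j => ?_⟩
      rw [one_mul, ← hy j]
      exact (Place.at_const _).add (hv.mul (Place.at_const _))
    · rw [hPdef]
      simp only [Function.update_of_ne hi]
      refine ⟨1, fun j => ?_⟩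
      rw [one_mul]
      exact Place.at_const _
  have hne : ∀ (y : Fin N → ℂ), y j₁ ≠ 0 → ∀ (a : Unit) (i : Fin m),
      (fun _ => Function.update x i₀ y : Unit → Fin m → Fin N → ℂ) a i ≠ 0 := by
    intro y hy a i
    by_cases hi : i = i₀
    · subst hi
      simp only [Function.update_self]
      intro h
      exact hy (congrFun h j₁)
    · simp only [Function.update_of_ne hi]
      exact (hx i hi).1
  have h := bridge (d := d) P hP0 1 0
    (fun _ => Function.update x i₀ (fun j => u j + w j))
    (fun _ => Function.update x i₀ u)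
    (hne _ (by rw [hw j₁ hj₁A, add_zero]; exact hj₁)) (hne _ hj₁)
    (fun v hv => hval v 1 _ hv (fun j => by ring))
    (fun v hv => hval v 0 _ hv (fun j => by ring))
  simpa using h

end Pool.Agent.FBB
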