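import Pool.Agent.FBB.Pt
import Pool.Agent.FBB.Fam1

/-!
# The cyclic sum of a decomposed point does not depend on the point
-/

set_option autoImplicit false

noncomputable section

namespace Pool.Agent.FBB

open scoped LinearAlgebra.Projectivization
open Pool.Agent.ZCyc

variable {d m N : ℕ}

private lemma upd_smul (i₀ : Fin m) (x : Fin m → Fin N → ℂ) (c : ℂ) (hc : c ≠ 0)
    (v : Fin N → ℂ) :
    cl d (Function.update x i₀ (fun j => c * v j)) = cl d (Function.update x i₀ v) := by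
  have h := cl_smul (d := d) (fun i => if i = i₀ then c else 1)
    (by intro i; by_cases h : i = i₀ <;> simp [h, hc]) (Function.update x i₀ v)
  rw [← h]
  congr 1
  funext i j
  by_cases h : i = i₀
  · subst h
    simp
  · simp [h]

private def FF [NeZero d] (i₀ : Fin m) (x : Fin m → Fin N → ℂ) (u w : Fin N → ℂ) : V d m N :=
  ∑ k : ZMod d, cl d (Function.update x i₀ (fun j => psi k * u j + w j))

private lemma FF_swap [NeZero d] (i₀ : Fin m) (x : Fin m → Fin N → ℂ) (u w : Fin N → ℂ) :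
    FF (d := d) i₀ x u w = FF i₀ x w u := by
  unfold FF
  rw [← Equiv.sum_comp (Equiv.neg (ZMod d))
    (fun k : ZMod d => cl d (Function.update x i₀ (fun j => psi k * w j + u j)))]
  apply Finset.sum_congr rfl
  intro k _
  rw [← upd_smul i₀ x (psi k) (psi_ne k) (fun j => psi ((Equiv.neg (ZMod d)) k) * w j + u j)]
  congr 2
  funext j
  have h1 : psi k * psi (-k) = (1 : ℂ) := by
    rw [← psi_add, add_neg_cancel, psi_zero]
  simp only [Equiv.neg_apply]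
  linear_combination (-(w j)) * h1

/-- the case `∑ u ^ d = 0`, `u ≠ 0` -/
private lemma FF_zero [NeZero d] (i₀ : Fin m) (x : Fin m → Fin N → ℂ)
    (hx : ∀ i, i ≠ i₀ → x i ≠ 0 ∧ ∑ j, x i j ^ d = 0) (A : Finset (Fin N))
    (u w u₀ w₀ : Fin N → ℂ) (hu : ∀ j ∉ A, u j = 0) (hw : ∀ j ∈ A, w j = 0)
    (hu₀ : ∀ j ∉ A, u₀ j = 0) (hw₀ : ∀ j ∈ A, w₀ j = 0) (hu0 : u ≠ 0) (hu₀0 : u₀ ≠ 0)
    (hus : ∑ j, u j ^ d = 0) (hws : ∑ j, w j ^ d = 0)
    (σ : ℂ) (hσ : σ ≠ 0) (hus₀ : ∑ j, u₀ j ^ d = σ) (hws₀ : ∑ j, w₀ j ^ d = -σ) :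
    FF (d := d) i₀ x u w = FF i₀ x u₀ w₀ := by
  have hd : d ≠ 0 := NeZero.ne d
  have h := fam_cyc (d := d) i₀ x hx A u u₀ w₀ hu hu₀ hw₀ hu0 hu₀0 σ hσ hws₀ 0 1
    (by rw [hus, zero_pow hd, zero_mul]) (by rw [hus₀, one_pow, one_mul])
  simp only [zero_mul, add_zero, one_mul] at h
  unfold FF
  rw [← h]
  apply Finset.sum_congr rfl
  intro k _
  have h1 : (fun j => psi k * u j) ≠ 0 := by
    intro h0
    apply hu0
    funext j
    have := congrFun h0 j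
    simpa [psi_ne k] using this
  have h2 := fam_line (d := d) i₀ x hx A (fun j => psi k * u j) w
    (fun j hj => by simp [hu j hj]) hw h1
    (by
      have : ∀ j, (psi k * u j) ^ d = u j ^ d := by
        intro j
        rw [mul_pow, psi_pow, one_mul]
      simp only [this, hus]) hws
  exact h2

private lemma key [NeZero d] (i₀ : Fin m) (x : Fin m → Fin N → ℂ)
    (hx : ∀ i, i ≠ i₀ → x i ≠ 0 ∧ ∑ j, x i j ^ d = 0) (A : Finset (Fin N))
    (u w u₀ w₀ : Fin N → ℂ) (hu : ∀ j ∉ A, u j = 0) (hw : ∀ j ∈ A, w j = 0)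
    (hu₀ : ∀ j ∉ A, u₀ j = 0) (hw₀ : ∀ j ∈ A, w₀ j = 0)
    (huw : u ≠ 0 ∨ w ≠ 0) (hs : ∑ j, u j ^ d + ∑ j, w j ^ d = 0)
    (hus₀ : ∑ j, u₀ j ^ d = 1) (hws₀ : ∑ j, w₀ j ^ d = -1) :
    FF (d := d) i₀ x u w = FF i₀ x u₀ w₀ := by
  have hd : d ≠ 0 := NeZero.ne d
  have hne : ∀ v : Fin N → ℂ, ∑ j, v j ^ d ≠ 0 → v ≠ 0 := by
    rintro v h rfl
    apply h
    simp [hd]
  have hu₀0 : u₀ ≠ 0 := hne u₀ (by rw [hus₀]; exact one_ne_zero)
  have hw₀0 : w₀ ≠ 0 := hne w₀ (by rw [hws₀]; exact neg_ne_zero.2 one_ne_zero)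
  have hA1 : ∀ j ∉ Aᶜ, w j = 0 := fun j hj => hw j (by simpa using hj)
  have hA2 : ∀ j ∈ Aᶜ, u j = 0 := fun j hj => hu j (by simpa using hj)
  have hA3 : ∀ j ∉ Aᶜ, w₀ j = 0 := fun j hj => hw₀ j (by simpa using hj)
  have hA4 : ∀ j ∈ Aᶜ, u₀ j = 0 := fun j hj => hu₀ j (by simpa using hj)
  by_cases hτ : ∑ j, u j ^ d = 0
  · have hτ' : ∑ j, w j ^ d = 0 := by rw [hτ, zero_add] at hs; exact hs
    by_cases hu0 : u = 0
    · have hw0 : w ≠ 0 := by
        rcases huw with h | h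
        · exact absurd hu0 h
        · exact h
      rw [FF_swap, FF_swap i₀ x u₀ w₀]
      exact FF_zero i₀ x hx Aᶜ w u w₀ u₀ hA1 hA2 hA3 hA4 hw0 hw₀0 hτ' hτ (-1)
        (neg_ne_zero.2 one_ne_zero) hws₀ (by rw [hus₀, neg_neg])
    · exact FF_zero i₀ x hx A u w u₀ w₀ hu hw hu₀ hw₀ hu0 hu₀0 hτ hτ' 1 one_ne_zero hus₀ hws₀
  · set τ := ∑ j, u j ^ d with hτdef
    have hws : ∑ j, w j ^ d = -τ := by linear_combination hs
    obtain ⟨r, hr⟩ := IsAlgClosed.exists_pow_nat_eq (τ⁻¹) (Nat.pos_of_ne_zero hd)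
    have h1 := fam_cyc (d := d) i₀ x hx A u u₀ w hu hu₀ hw (hne u hτ) hu₀0 τ hτ hws 1 r
      (by rw [one_pow, one_mul]) (by rw [hus₀, hr, inv_mul_cancel₀ hτ])
    simp only [one_mul] at h1
    have hw1s : ∑ j, (r * w j) ^ d = -1 := by
      have : ∀ j, (r * w j) ^ d = r ^ d * w j ^ d := fun j => mul_pow _ _ _
      simp only [this]
      rw [← Finset.mul_sum, hws, hr]
      field_simp
    have h2 := fam_cyc (d := d) i₀ x hx Aᶜ (fun j => r * w j) w₀ u₀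
      (fun j hj => by rw [hA1 j hj, mul_zero]) hA3 hA4
      (hne _ (by rw [hw1s]; exact neg_ne_zero.2 one_ne_zero)) hw₀0 (-1)
      (neg_ne_zero.2 one_ne_zero) (by rw [hus₀, neg_neg]) 1 1
      (by rw [hw1s, one_pow, one_mul]) (by rw [hws₀, one_pow, one_mul])
    simp only [one_mul] at h2
    have h3 : FF (d := d) i₀ x u w = FF i₀ x u₀ (fun j => r * w j) := h1
    have h4 : FF (d := d) i₀ x (fun j => r * w j) u₀ = FF i₀ x w₀ u₀ := h2
    rw [h3, FF_swap, h4, FF_swap]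

private lemma exists_std [NeZero d] (A : Finset (Fin N)) (hA : A.Nonempty)
    (hA' : A ≠ Finset.univ) : ∃ u₀ w₀ : Fin N → ℂ, (∀ j ∉ A, u₀ j = 0) ∧ (∀ j ∈ A, w₀ j = 0) ∧
      ∑ j, u₀ j ^ d = 1 ∧ ∑ j, w₀ j ^ d = -1 := by
  have hd : d ≠ 0 := NeZero.ne d
  obtain ⟨a, ha⟩ := hA
  have : ∃ b, b ∉ A := by
    by_contra h
    push Not at h
    exact hA' (Finset.eq_univ_iff_forall.2 h)
  obtain ⟨b, hb⟩ := this
  obtain ⟨ε, hε⟩ := IsAlgClosed.exists_pow_nat_eq (-1 : ℂ) (Nat.pos_of_ne_zero hd)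
  have hsum : ∀ (c : Fin N) (z : ℂ), ∑ j, (if j = c then z else 0) ^ d = z ^ d := by
    intro c z
    rw [Finset.sum_eq_single c]
    · simp
    · intro j _ hj
      simp [hj, hd]
    · intro h
      exact absurd (Finset.mem_univ c) h
  refine ⟨fun j => if j = a then 1 else 0, fun j => if j = b then ε else 0, ?_, ?_, ?_, ?_⟩
  · intro j hj
    have : j ≠ a := fun h => hj (h ▸ ha)
    simp [this]
  · intro j hj
    have : j ≠ b := fun h => hb (h ▸ hj)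
    simp [this]
  · rw [hsum, one_pow]
  · rw [hsum, hε]

private lemma FF_eq [NeZero d] (i₀ : Fin m) (x : Fin m → Fin N → ℂ)
    (hx : ∀ i, i ≠ i₀ → x i ≠ 0 ∧ ∑ j, x i j ^ d = 0) (A : Finset (Fin N))
    (u₀ w₀ : Fin N → ℂ) (hu₀ : ∀ j ∉ A, u₀ j = 0) (hw₀ : ∀ j ∈ A, w₀ j = 0)
    (hus₀ : ∑ j, u₀ j ^ d = 1) (hws₀ : ∑ j, w₀ j ^ d = -1)
    (y : Fin N → ℂ) (hy : y ≠ 0) (hys : ∑ j, y j ^ d = 0) :
    ∑ k : ZMod d, cl d (Function.update x i₀ (fun j => if j ∈ A then psi k * y j else y j)) =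
      FF (d := d) i₀ x u₀ w₀ := by
  have hd : d ≠ 0 := NeZero.ne d
  rw [← key (d := d) i₀ x hx A (fun j => if j ∈ A then y j else 0)
    (fun j => if j ∈ A then 0 else y j) u₀ w₀ (fun j hj => by simp [hj])
    (fun j hj => by simp [hj]) hu₀ hw₀ _ _ hus₀ hws₀]
  · unfold FF
    apply Finset.sum_congr rfl
    intro k _
    congr 2
    funext j
    by_cases hj : j ∈ A <;> simp [hj]
  · by_contra h
    push Not at h
    apply hy
    funext j
    have h1 := congrFun h.1 j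
    have h2 := congrFun h.2 j
    by_cases hj : j ∈ A
    · simpa [hj] using h1
    · simpa [hj] using h2
  · have h : ∑ j, (if j ∈ A then y j else 0) ^ d + ∑ j, (if j ∈ A then 0 else y j) ^ d =
        ∑ j, y j ^ d := by
      rw [← Finset.sum_add_distrib]
      apply Finset.sum_congr rfl
      intro j _
      by_cases hj : j ∈ A <;> simp [hj, hd]
    exact h.trans hys

theorem lemD [NeZero d] (i₀ : Fin m) (x : Fin m → Fin N → ℂ)
    (hx : ∀ i, i ≠ i₀ → x i ≠ 0 ∧ ∑ j, x i j ^ d = 0) (A : Finset (Fin N))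
    (hA : A.Nonempty) (hA' : A ≠ Finset.univ) (y y' : Fin N → ℂ) (hy : y ≠ 0) (hy' : y' ≠ 0)
    (hys : ∑ j, y j ^ d = 0) (hys' : ∑ j, y' j ^ d = 0) :
    ∑ k : ZMod d, cl d (Function.update x i₀ (fun j => if j ∈ A then psi k * y j else y j)) =
      ∑ k : ZMod d,
        cl d (Function.update x i₀ (fun j => if j ∈ A then psi k * y' j else y' j)) := by
  obtain ⟨u₀, w₀, h1, h2, h3, h4⟩ := exists_std (d := d) A hA hA'
  rw [FF_eq i₀ x hx A u₀ w₀ h1 h2 h3 h4 y hy hys, FF_eq i₀ x hx A u₀ w₀ h1 h2 h3 h4 y' hy' hys']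

end Pool.Agent.FBB
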