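import Pool.Agent.FBB.Fourier
import Pool.Agent.FBB.LemD
import Pool.Agent.FBB.Fam1
import Pool.Agent.FBB.Pt

/-!
# Blocks of coordinates of one factor
-/

set_option autoImplicit false

noncomputable section

namespace Pool.Agent.FBB

open scoped LinearAlgebra.Projectivization
open Pool.Agent.ZCyc

variable {d m N : ℕ}

private theorem blk_rot_rot [NeZero d] (k l : Fin m → Fin N → ZMod d) (x : Fin m → Fin N → ℂ) :
    rot k (rot l x) = rot (k + l) x := by
  funext i j
  simp only [rot, Pi.add_apply, psi_add]
  ring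

/-- rotation of the coordinates in `A` of the factor `i₀` -/
private def blkK [NeZero d] (i₀ : Fin m) (A : Finset (Fin N)) (l : ZMod d) :
    Fin m → Fin N → ZMod d := fun i j => if i = i₀ ∧ j ∈ A then l else 0

private theorem blk_rot_K [NeZero d] (i₀ : Fin m) (A : Finset (Fin N)) (l : ZMod d)
    (k : Fin m → Fin N → ZMod d) (x : Fin m → Fin N → ℂ) :
    rot k (rot (blkK i₀ A l) x) = Function.update (rot k x) i₀
      (fun j => if j ∈ A then psi l * rot k x i₀ j else rot k x i₀ j) := by
  funext i j
  by_cases hi : i = i₀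
  · subst hi
    rw [Function.update_self]
    by_cases hj : j ∈ A
    · simp only [rot, blkK, hj, and_self, if_true]
      ring
    · simp only [rot, blkK, hj, and_false, if_false, psi_zero, one_mul]
  · rw [Function.update_of_ne hi]
    simp only [rot, blkK, hi, false_and, if_false, psi_zero, one_mul]

private theorem blk_update_rot [NeZero d] (i₀ : Fin m) {k k' : Fin m → Fin N → ZMod d}
    {x x' : Fin m → Fin N → ℂ} (hk : ∀ i, i ≠ i₀ → k i = k' i) (hx : ∀ i, i ≠ i₀ → x i = x' i)
    (z : Fin N → ℂ) : Function.update (rot k x) i₀ z = Function.update (rot k' x') i₀ z := by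
  funext i
  by_cases hi : i = i₀
  · subst hi
    rw [Function.update_self, Function.update_self]
  · rw [Function.update_of_ne hi, Function.update_of_ne hi]
    funext j
    simp only [rot]
    rw [hk i hi, hx i hi]

/-- the average over the rotations of the coordinates in `A` -/
private theorem blk_avg [NeZero d] (a : Fin m → Fin N → ZMod d) (x : Fin m → Fin N → ℂ)
    (hx : Good d x) (i₀ : Fin m) (A : Finset (Fin N)) (hA : A.Nonempty)
    (hA' : A ≠ Finset.univ) (h : ∑ j ∈ A, a i₀ j = 0) (y : Fin N → ℂ) (hy : y ≠ 0)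
    (hys : ∑ j, y j ^ d = 0) :
    (d : ℂ) • E a x = ∑ k : Fin m → Fin N → ZMod d, psi (-∑ i, ∑ j, a i j * k i j) •
      ∑ l : ZMod d, cl d (Function.update (rot k x) i₀
        (fun j => if j ∈ A then psi l * y j else y j)) := by
  have h1 : ∀ l : ZMod d, E a (rot (blkK i₀ A l) x) = E a x := by
    intro l
    rw [E_rot]
    have h2 : ∑ i, ∑ j, a i j * blkK i₀ A l i j = 0 := by
      rw [Finset.sum_eq_single i₀]
      · have h3 : ∀ j, a i₀ j * blkK i₀ A l i₀ j = if j ∈ A then a i₀ j * l else 0 := by
          intro j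
          by_cases hj : j ∈ A
          · simp only [blkK, hj, and_self, if_true]
          · simp only [blkK, hj, and_false, if_false, mul_zero]
        rw [Finset.sum_congr rfl fun j _ => h3 j, Finset.sum_ite_mem, Finset.univ_inter,
          ← Finset.sum_mul, h, zero_mul]
      · intro i _ hi
        refine Finset.sum_eq_zero fun j _ => ?_
        simp only [blkK, hi, false_and, if_false, mul_zero]
      · intro hi
        exact absurd (Finset.mem_univ _) hi
    rw [h2, psi_zero, one_smul]
  have h2 : (d : ℂ) • E a x = ∑ l : ZMod d, E a (rot (blkK i₀ A l) x) := by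
    rw [Finset.sum_congr rfl fun l _ => h1 l, Finset.sum_const, Finset.card_univ, ZMod.card,
      Nat.cast_smul_eq_nsmul]
  rw [h2]
  unfold E
  rw [Finset.sum_comm]
  refine Finset.sum_congr rfl fun k _ => ?_
  rw [← Finset.smul_sum]
  congr 1
  rw [Finset.sum_congr rfl fun l _ => congrArg (cl d) (blk_rot_K i₀ A l k x)]
  have hr := good_rot k hx
  exact lemD i₀ (rot k x) (fun i _ => hr i) A hA hA' (rot k x i₀) y (hr i₀).1 hy (hr i₀).2 hys

private theorem blk_cancel [NeZero d] {u v : V d m N} (h : (d : ℂ) • u = (d : ℂ) • v) : u = v := by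
  have hd : (d : ℂ) ≠ 0 := Nat.cast_ne_zero.2 (NeZero.ne d)
  have h1 := congrArg (fun w => (d : ℂ)⁻¹ • w) h
  simp only [smul_smul, inv_mul_cancel₀ hd, one_smul] at h1
  exact h1

theorem E_zero_of_block [NeZero d] (a : Fin m → Fin N → ZMod d) (x : Fin m → Fin N → ℂ)
    (hx : Good d x) (i₀ : Fin m) (h0 : a i₀ ≠ 0) (A : Finset (Fin N)) (hA : A.Nonempty)
    (hA' : A ≠ Finset.univ) (h : ∑ j ∈ A, a i₀ j = 0) : E a x = 0 := by
  obtain ⟨j₁, hj₁⟩ : ∃ j, a i₀ j ≠ 0 := by
    by_contra hcon
    push Not at hcon
    exact h0 (funext hcon)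
  apply blk_cancel
  rw [smul_zero, blk_avg a x hx i₀ A hA hA' h (x i₀) (hx i₀).1 (hx i₀).2]
  set e : Fin m → Fin N → ZMod d := Pi.single i₀ (Pi.single j₁ 1) with he
  set D : (Fin m → Fin N → ZMod d) → V d m N := fun k => ∑ l : ZMod d,
    cl d (Function.update (rot k x) i₀ (fun j => if j ∈ A then psi l * x i₀ j else x i₀ j))
    with hD
  have hDe : ∀ k, D (k + e) = D k := by
    intro k
    refine Finset.sum_congr rfl fun l _ => congrArg (cl d) ?_
    refine blk_update_rot i₀ (fun i hi => ?_) (fun i _ => rfl) _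
    rw [Pi.add_apply, he, Pi.single_eq_of_ne hi, add_zero]
  have hae : ∀ k : Fin m → Fin N → ZMod d, ∑ i, ∑ j, a i j * (k + e) i j =
      ∑ i, ∑ j, a i j * k i j + a i₀ j₁ := by
    intro k
    have h1 : ∑ i, ∑ j, a i j * e i j = a i₀ j₁ := by
      rw [Finset.sum_eq_single i₀]
      · rw [Finset.sum_eq_single j₁]
        · rw [he, Pi.single_eq_same, Pi.single_eq_same, mul_one]
        · intro j _ hj
          rw [he, Pi.single_eq_same, Pi.single_eq_of_ne hj, mul_zero]
        · intro hj
          exact absurd (Finset.mem_univ _) hj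
      · intro i _ hi
        refine Finset.sum_eq_zero fun j _ => ?_
        rw [he, Pi.single_eq_of_ne hi, Pi.zero_apply, mul_zero]
      · intro hi
        exact absurd (Finset.mem_univ _) hi
    rw [← h1, ← Finset.sum_add_distrib]
    refine Finset.sum_congr rfl fun i _ => ?_
    rw [← Finset.sum_add_distrib]
    refine Finset.sum_congr rfl fun j _ => ?_
    rw [Pi.add_apply, Pi.add_apply, mul_add]
  show ∑ k, psi (-∑ i, ∑ j, a i j * k i j) • D k = 0
  set W := ∑ k, psi (-∑ i, ∑ j, a i j * k i j) • D k with hW
  have h2 : W = psi (-a i₀ j₁) • W := by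
    conv_lhs => rw [hW, ← Equiv.sum_comp (Equiv.addRight e)]
    rw [hW, Finset.smul_sum]
    refine Finset.sum_congr rfl fun k _ => ?_
    rw [Equiv.coe_addRight, hDe, hae, neg_add, psi_add, smul_smul, mul_comm]
  have h3 : (1 - psi (-a i₀ j₁)) • W = 0 := by
    rw [sub_smul, one_smul, ← h2, sub_self]
  rcases smul_eq_zero.1 h3 with h4 | h4
  · exfalso
    have h5 : psi (-a i₀ j₁) = psi (0 : ZMod d) := by
      rw [psi_zero]
      exact (sub_eq_zero.1 h4).symm
    have h6 : -a i₀ j₁ = 0 := ZMod.injective_stdAddChar h5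
    exact hj₁ (neg_eq_zero.1 h6)
  · exact h4

theorem E_const [NeZero d] (hN : 2 ≤ N) (a : Fin m → Fin N → ZMod d) (x : Fin m → Fin N → ℂ)
    (hx : Good d x) (i₀ : Fin m) (h0 : a i₀ = 0) (y : Fin N → ℂ) (hy : y ≠ 0)
    (hys : ∑ j, y j ^ d = 0) : E a (Function.update x i₀ y) = E a x := by
  apply blk_cancel
  have hx' : Good d (Function.update x i₀ y) := by
    intro i
    by_cases hi : i = i₀
    · subst hi
      rw [Function.update_self]
      exact ⟨hy, hys⟩
    · rw [Function.update_of_ne hi]
      exact hx i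
  have hA : ({(⟨0, by omega⟩ : Fin N)} : Finset (Fin N)).Nonempty := Finset.singleton_nonempty _
  have hA' : ({(⟨0, by omega⟩ : Fin N)} : Finset (Fin N)) ≠ Finset.univ := by
    intro h
    have h1 : (⟨1, by omega⟩ : Fin N) ∈ ({(⟨0, by omega⟩ : Fin N)} : Finset (Fin N)) := by
      rw [h]
      exact Finset.mem_univ _
    rw [Finset.mem_singleton, Fin.mk.injEq] at h1
    exact absurd h1 one_ne_zero
  have hs : ∑ j ∈ ({(⟨0, by omega⟩ : Fin N)} : Finset (Fin N)), a i₀ j = 0 := by
    rw [h0]
    simp
  rw [blk_avg a x hx i₀ _ hA hA' hs y hy hys, blk_avg a _ hx' i₀ _ hA hA' hs y hy hys]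
  refine Finset.sum_congr rfl fun k _ => ?_
  congr 1
  refine Finset.sum_congr rfl fun l _ => congrArg (cl d) ?_
  refine blk_update_rot i₀ (fun i _ => rfl) (fun i hi => ?_) _
  rw [Function.update_of_ne hi]

theorem E_zero_of_degen [NeZero d] (a : Fin m → Fin N → ZMod d) (x : Fin m → Fin N → ℂ)
    (hx : Good d x) (i₀ : Fin m) (h0 : ∀ j, a i₀ j ≠ 0) (A : Finset (Fin N))
    (hA : A.Nonempty) (hA' : A ≠ Finset.univ) (h : ∑ j ∈ A, x i₀ j ^ d = 0) : E a x = 0 := by
  have hd : d ≠ 0 := NeZero.ne d
  set u : Fin N → ℂ := fun j => if j ∈ A then x i₀ j else 0 with hu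
  set w : Fin N → ℂ := fun j => if j ∈ A then 0 else x i₀ j with hw
  by_cases hu0 : u = 0
  · obtain ⟨j, hj⟩ := hA
    have h1 := congrFun hu0 j
    simp only [hu, hj, if_true, Pi.zero_apply] at h1
    exact E_zero_of_coord a x i₀ j (h0 j) h1
  · have hws : ∑ j, w j ^ d = 0 := by
      have h1 : ∀ j, x i₀ j ^ d = (if j ∈ A then x i₀ j ^ d else 0) + w j ^ d := by
        intro j
        by_cases hj : j ∈ A
        · simp only [hw, hj, if_true, zero_pow hd, add_zero]
        · simp only [hw, hj, if_false, zero_add]
      have h2 := (hx i₀).2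
      rw [Finset.sum_congr rfl fun j _ => h1 j, Finset.sum_add_distrib, Finset.sum_ite_mem,
        Finset.univ_inter, h, zero_add] at h2
      exact h2
    have hus : ∑ j, u j ^ d = 0 := by
      have h1 : ∀ j, u j ^ d = if j ∈ A then x i₀ j ^ d else 0 := by
        intro j
        by_cases hj : j ∈ A
        · simp only [hu, hj, if_true]
        · simp only [hu, hj, if_false, zero_pow hd]
      rw [Finset.sum_congr rfl fun j _ => h1 j, Finset.sum_ite_mem, Finset.univ_inter, h]
    have hpow : ∀ (k : Fin m → Fin N → ZMod d) (z : Fin N → ℂ),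
        ∑ j, (psi (k i₀ j) * z j) ^ d = ∑ j, z j ^ d := by
      intro k z
      refine Finset.sum_congr rfl fun j _ => ?_
      rw [mul_pow, psi_pow, one_mul]
    have key : ∀ k : Fin m → Fin N → ZMod d, cl d (rot k x) =
        cl d (rot k (Function.update x i₀ u)) := by
      intro k
      have h1 := fam_line (d := d) i₀ (rot k x) (fun i _ => good_rot k hx i) A
        (fun j => psi (k i₀ j) * u j) (fun j => psi (k i₀ j) * w j)
        (fun j hj => by simp only [hu, hj, if_false, mul_zero])
        (fun j hj => by simp only [hw, hj, if_true, mul_zero])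
        (by
          intro hcon
          apply hu0
          funext j
          have h2 := congrFun hcon j
          simp only [Pi.zero_apply, mul_eq_zero] at h2
          rcases h2 with h2 | h2
          · exact absurd h2 (psi_ne _)
          · exact h2)
        (by rw [hpow, hus]) (by rw [hpow, hws])
      have h2 : Function.update (rot k x) i₀
          (fun j => psi (k i₀ j) * u j + psi (k i₀ j) * w j) = rot k x := by
        funext i
        by_cases hi : i = i₀
        · subst hi
          rw [Function.update_self]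
          funext j
          by_cases hj : j ∈ A
          · simp only [hu, hw, hj, if_true, mul_zero, add_zero, rot]
          · simp only [hu, hw, hj, if_false, mul_zero, zero_add, rot]
        · rw [Function.update_of_ne hi]
      have h3 : Function.update (rot k x) i₀ (fun j => psi (k i₀ j) * u j) =
          rot k (Function.update x i₀ u) := by
        funext i j
        by_cases hi : i = i₀
        · subst hi
          simp only [Function.update_self, rot]
        · simp only [Function.update_of_ne hi, rot]
      rw [h2, h3] at h1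
      exact h1
    have hE : E a x = E a (Function.update x i₀ u) := by
      unfold E
      exact Finset.sum_congr rfl fun k _ => by rw [key k]
    obtain ⟨j, hj⟩ : ∃ j, j ∉ A := by
      by_contra hcon
      push Not at hcon
      exact hA' (Finset.eq_univ_of_forall hcon)
    rw [hE]
    refine E_zero_of_coord a _ i₀ j (h0 j) ?_
    rw [Function.update_self]
    simp only [hu, hj, if_false]

end Pool.Agent.FBB
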