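import Pool.Agent.FBB.Defs2

/-!
# FBB: characters
-/

set_option autoImplicit false

noncomputable section

namespace Pool.Agent.FBB

open scoped LinearAlgebra.Projectivization
open Pool.Agent.ZCyc

variable {d m N : ℕ}

private theorem fou_cl (c : Fin m → ℂ) (hc : ∀ i, c i ≠ 0) (x : Fin m → Fin N → ℂ) :
    cl d (fun i j => c i * x i j) = cl d x := by
  classical
  unfold cl
  congr 1
  unfold pt
  by_cases h : ∀ i, x i ≠ 0
  · have h' : ∀ i, (fun j => c i * x i j) ≠ 0 := by
      intro i h0
      apply h i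
      funext j
      have h1 := congrFun h0 j
      simp only [Pi.zero_apply, mul_eq_zero, hc i, false_or] at h1
      exact h1
    rw [dif_pos h, dif_pos h']
    congr 1
    funext i
    rw [Projectivization.mk_eq_mk_iff']
    exact ⟨c i, rfl⟩
  · have h' : ¬ ∀ i, (fun j => c i * x i j) ≠ 0 := by
      intro h0
      apply h
      intro i hi
      apply h0 i
      funext j
      rw [hi]
      simp
    rw [dif_neg h, dif_neg h']

private theorem fou_add [NeZero d] (k l : ZMod d) : psi (k + l) = psi k * psi l :=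
  AddChar.map_add_eq_mul _ _ _

private theorem fou_zero [NeZero d] : psi (0 : ZMod d) = 1 := AddChar.map_zero_eq_one _

private theorem fou_pow [NeZero d] (k : ZMod d) : psi k ^ d = 1 := by
  have h : psi k ^ d = psi (d • k) := (AddChar.map_nsmul_eq_pow _ _ _).symm
  rw [h, nsmul_eq_mul, ZMod.natCast_self, zero_mul, fou_zero]

private theorem fou_ne [NeZero d] (k : ZMod d) : psi k ≠ 0 := by
  intro h
  have h1 := fou_pow k
  rw [h, zero_pow (NeZero.ne d)] at h1
  exact zero_ne_one h1

private theorem fou_inj [NeZero d] (k : ZMod d) (h : psi k = 1) : k = 0 := by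
  apply ZMod.injective_stdAddChar
  exact h.trans fou_zero.symm

theorem good_rot [NeZero d] (k : Fin m → Fin N → ZMod d) {x : Fin m → Fin N → ℂ}
    (hx : Good d x) : Good d (rot k x) := by
  intro i
  refine ⟨fun h => (hx i).1 ?_, ?_⟩
  · funext j
    have h1 := congrFun h j
    simp only [rot, Pi.zero_apply, mul_eq_zero, fou_ne, false_or] at h1
    exact h1
  · simp only [rot, mul_pow, fou_pow, one_mul]
    exact (hx i).2

private theorem fou_rot [NeZero d] (k l : Fin m → Fin N → ZMod d) (x : Fin m → Fin N → ℂ) :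
    rot k (rot l x) = rot (k + l) x := by
  funext i j
  simp only [rot, Pi.add_apply, fou_add, mul_assoc]

theorem E_rot [NeZero d] (a k : Fin m → Fin N → ZMod d) (x : Fin m → Fin N → ℂ) :
    E a (rot k x) = psi (∑ i, ∑ j, a i j * k i j) • E a x := by
  unfold E
  rw [Finset.smul_sum]
  refine Fintype.sum_equiv (Equiv.addRight k) _ _ fun l => ?_
  rw [fou_rot, smul_smul]
  congr 1
  rw [← fou_add]
  congr 1
  simp only [Equiv.coe_addRight, Pi.add_apply, mul_add, Finset.sum_add_distrib]
  ring

theorem E_smul [NeZero d] (a : Fin m → Fin N → ZMod d) (c : Fin m → ℂ) (hc : ∀ i, c i ≠ 0)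
    (x : Fin m → Fin N → ℂ) : E a (fun i j => c i * x i j) = E a x := by
  unfold E
  refine Finset.sum_congr rfl fun k _ => ?_
  congr 1
  have h : rot k (fun i j => c i * x i j) = fun i j => c i * rot k x i j := by
    funext i j
    simp only [rot]
    ring
  rw [h]
  exact fou_cl c hc _

private theorem fou_sum [NeZero d] (k : Fin m → Fin N → ZMod d) :
    ∑ a : Fin m → Fin N → ZMod d, psi (-∑ i, ∑ j, a i j * k i j) =
      if k = 0 then (d : ℂ) ^ (m * N) else 0 := by
  by_cases hk : k = 0
  · rw [if_pos hk, hk]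
    simp only [Pi.zero_apply, mul_zero, Finset.sum_const_zero, neg_zero, fou_zero,
      Finset.sum_const, Finset.card_univ, Fintype.card_pi, ZMod.card, Finset.prod_const,
      Fintype.card_fin, nsmul_eq_mul, mul_one]
    rw [← pow_mul, mul_comm N m]
    push_cast
    rfl
  · rw [if_neg hk]
    obtain ⟨i₀, j₀, h⟩ : ∃ i j, k i j ≠ 0 := by
      by_contra hcon
      push Not at hcon
      exact hk (funext fun i => funext fun j => hcon i j)
    set e : Fin m → Fin N → ZMod d := fun i j => if i = i₀ ∧ j = j₀ then 1 else 0 with he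
    have hs : ∑ i, ∑ j, e i j * k i j = k i₀ j₀ := by
      rw [Finset.sum_eq_single i₀]
      · rw [Finset.sum_eq_single j₀]
        · simp [he]
        · intro j _ hj
          simp [he, hj]
        · intro h
          exact absurd (Finset.mem_univ _) h
      · intro i _ hi
        exact Finset.sum_eq_zero fun j _ => by simp [he, hi]
      · intro h
        exact absurd (Finset.mem_univ _) h
    have h1 : ∑ a : Fin m → Fin N → ZMod d, psi (-∑ i, ∑ j, a i j * k i j) =
        psi (-k i₀ j₀) * ∑ a : Fin m → Fin N → ZMod d, psi (-∑ i, ∑ j, a i j * k i j) := by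
      rw [Finset.mul_sum]
      refine (Fintype.sum_equiv (Equiv.addRight e) _ _ fun a => ?_).symm
      rw [← fou_add]
      congr 1
      simp only [Equiv.coe_addRight, Pi.add_apply, add_mul, Finset.sum_add_distrib]
      rw [hs]
      ring
    have h2 : (1 - psi (-k i₀ j₀)) *
        ∑ a : Fin m → Fin N → ZMod d, psi (-∑ i, ∑ j, a i j * k i j) = 0 := by
      linear_combination h1
    rcases mul_eq_zero.1 h2 with h3 | h3
    · exfalso
      apply h
      have h4 := fou_inj (-k i₀ j₀) (sub_eq_zero.1 h3).symm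
      exact neg_eq_zero.1 h4
    · exact h3

theorem sum_E [NeZero d] (x : Fin m → Fin N → ℂ) :
    ∑ a : Fin m → Fin N → ZMod d, E a x = ((d : ℂ) ^ (m * N)) • cl d x := by
  unfold E
  rw [Finset.sum_comm]
  simp only [← Finset.sum_smul, fou_sum]
  rw [Finset.sum_eq_single 0]
  · rw [if_pos rfl]
    congr 2
    funext i j
    simp only [rot, Pi.zero_apply, fou_zero, one_mul]
  · intro k _ hk
    rw [if_neg hk, zero_smul]
  · intro h
    exact absurd (Finset.mem_univ _) h

private theorem fou_eq_zero [NeZero d] (a k : Fin m → Fin N → ZMod d) (x : Fin m → Fin N → ℂ)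
    (h : E a (rot k x) = E a x) (hk : ∑ i, ∑ j, a i j * k i j ≠ 0) : E a x = 0 := by
  rw [E_rot] at h
  have h1 : (psi (∑ i, ∑ j, a i j * k i j) - 1) • E a x = 0 := by
    rw [sub_smul, one_smul, h, sub_self]
  rcases smul_eq_zero.1 h1 with h2 | h2
  · exact absurd (fou_inj _ (sub_eq_zero.1 h2)) hk
  · exact h2

/-- `∑ j, a i₀ j ≠ 0` -/
theorem E_zero_of_sum [NeZero d] (a : Fin m → Fin N → ZMod d) (x : Fin m → Fin N → ℂ)
    (i₀ : Fin m) (h : ∑ j, a i₀ j ≠ 0) : E a x = 0 := by
  refine fou_eq_zero a (fun i _ => if i = i₀ then 1 else 0) x ?_ ?_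
  · exact E_smul a (fun i => psi (if i = i₀ then (1 : ZMod d) else 0)) (fun i => fou_ne _) x
  · rw [Finset.sum_eq_single i₀]
    · simpa using h
    · intro i _ hi
      exact Finset.sum_eq_zero fun j _ => by rw [if_neg hi, mul_zero]
    · intro h
      exact absurd (Finset.mem_univ _) h

theorem E_zero_of_coord [NeZero d] (a : Fin m → Fin N → ZMod d) (x : Fin m → Fin N → ℂ)
    (i₀ : Fin m) (j₀ : Fin N) (h : a i₀ j₀ ≠ 0) (hx : x i₀ j₀ = 0) : E a x = 0 := by
  refine fou_eq_zero a (fun i j => if i = i₀ ∧ j = j₀ then 1 else 0) x ?_ ?_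
  · congr 1
    funext i j
    simp only [rot]
    by_cases hij : i = i₀ ∧ j = j₀
    · rw [hij.1, hij.2, hx, mul_zero]
    · rw [if_neg hij, fou_zero, one_mul]
  · rw [Finset.sum_eq_single i₀]
    · rw [Finset.sum_eq_single j₀]
      · simpa using h
      · intro j _ hj
        rw [if_neg fun h => hj h.2, mul_zero]
      · intro h
        exact absurd (Finset.mem_univ _) h
    · intro i _ hi
      exact Finset.sum_eq_zero fun j _ => by rw [if_neg fun h => hi h.1, mul_zero]
    · intro h
      exact absurd (Finset.mem_univ _) h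

end Pool.Agent.FBB
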