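import Pool.Agent.FBB.Defs2
import Pool.Agent.FBB.Pt
import Pool.Agent.FBB.Bridge

/-!
# The dihedral family
-/

set_option autoImplicit false

noncomputable section

namespace Pool.Agent.FBB

open scoped LinearAlgebra.Projectivization
open Pool.Agent.ZCyc

variable {d m N : ℕ}

private theorem dihed_tt (c : ℂ) : tt ≠ algebraMap ℂ Om c := by
  intro h
  unfold tt at h
  rw [IsScalarTower.algebraMap_apply ℂ (RatFunc ℂ) Om] at h
  have h1 := (algebraMap (RatFunc ℂ) Om).injective h
  have h2 : algebraMap (Polynomial ℂ) (RatFunc ℂ) Polynomial.X =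
      algebraMap (Polynomial ℂ) (RatFunc ℂ) (Polynomial.C c) := by
    rw [RatFunc.algebraMap_X, h1, RatFunc.algebraMap_C]
    rfl
  have h3 := RatFunc.algebraMap_injective ℂ h2
  exact Polynomial.X_ne_C c h3

private theorem dihed_mul {v : Place ℂ Om} {f g : Om} (h : v.Vanishes (f * g)) :
    v.Vanishes f ∨ v.Vanishes g := by
  by_contra hcon
  push Not at hcon
  rw [Place.vanishes_iff, not_lt] at hcon
  rw [Place.vanishes_iff, not_lt] at hcon
  rw [Place.vanishes_iff, map_mul] at h
  exact absurd h (not_lt.2 (one_le_mul hcon.1 hcon.2))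

/-- the two values of the roots -/
private theorem dihed_roots {v : Place ℂ Om} {U W : Om} {a b : ℂ}
    (hs : U + W = algebraMap ℂ Om (a + b)) (hp : v.At (U * W) (a * b)) :
    (v.At U a ∧ v.At W b) ∨ (v.At U b ∧ v.At W a) := by
  have h1 : v.Vanishes ((U - algebraMap ℂ Om a) * (U - algebraMap ℂ Om b)) := by
    have h2 := hp
    unfold Place.At at h2
    have h3 := Place.Vanishes.neg v h2
    convert h3 using 1
    rw [map_mul]
    rw [map_add] at hs
    linear_combination U * hs
  have hW : W = algebraMap ℂ Om (a + b) - U := by rw [← hs]; ring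
  rcases dihed_mul h1 with h | h
  · left
    refine ⟨h, ?_⟩
    have h2 := (Place.at_const (v := v) (a + b)).sub (show v.At U a from h)
    rw [hW]
    convert h2 using 1
    ring
  · right
    refine ⟨h, ?_⟩
    have h2 := (Place.at_const (v := v) (a + b)).sub (show v.At U b from h)
    rw [hW]
    convert h2 using 1
    ring

/-- the vector on the factor `i₀` -/
private def dihed_P [NeZero d] (x : Fin m → Fin N → ℂ) (i₀ : Fin m) (j₁ j₂ : Fin N) (ω : Om)
    (μ : Bool → Om) (a : ZMod d × Bool) (i : Fin m) (j : Fin N) : Om :=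
  if i = i₀ then
    (if j = j₁ then algebraMap ℂ Om (psi a.1) * μ a.2
      else if j = j₂ then algebraMap ℂ Om (psi (-a.1)) * (ω / μ a.2)
      else algebraMap ℂ Om (x i j))
  else algebraMap ℂ Om (x i j)

private def dihed_k [NeZero d] (i₀ : Fin m) (j₁ j₂ : Fin N) (k l : ZMod d) :
    Fin m → Fin N → ZMod d :=
  fun i j => if i = i₀ then (if j = j₁ then l else if j = j₂ then k - l else 0) else 0

private def dihed_u [NeZero d] (x : Fin m → Fin N → ℂ) (i₀ : Fin m) (j₁ j₂ : Fin N)
    (k : ZMod d) (a : ZMod d × Bool) : Fin m → Fin N → ℂ :=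
  rot (dihed_k i₀ j₁ j₂ k a.1) (if a.2 then x else exch i₀ j₁ j₂ x)

private theorem dihed_nonzero [NeZero d] (x : Fin m → Fin N → ℂ) (hx : ∀ i, x i ≠ 0)
    (i₀ : Fin m) (j₁ j₂ : Fin N) (k : ZMod d) (a : ZMod d × Bool) (i : Fin m) :
    dihed_u x i₀ j₁ j₂ k a i ≠ 0 := by
  intro h
  obtain ⟨j, hj⟩ := Function.ne_iff.1 (hx i)
  unfold dihed_u rot at h
  by_cases hb : a.2 = true
  · have h1 := congrFun h j
    rw [if_pos hb, Pi.zero_apply, mul_eq_zero] at h1
    rcases h1 with h1 | h1
    · exact psi_ne _ h1
    · exact hj h1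
  · by_cases hi : i = i₀
    · have h1 := congrFun h (Equiv.swap j₁ j₂ j)
      rw [if_neg hb, Pi.zero_apply, mul_eq_zero] at h1
      rcases h1 with h1 | h1
      · exact psi_ne _ h1
      · unfold exch at h1
        rw [if_pos hi, Equiv.swap_apply_self] at h1
        exact hj h1
    · have h1 := congrFun h j
      rw [if_neg hb, Pi.zero_apply, mul_eq_zero] at h1
      rcases h1 with h1 | h1
      · exact psi_ne _ h1
      · unfold exch at h1
        rw [if_neg hi] at h1
        exact hj h1

private theorem dihed_red [NeZero d] (x : Fin m → Fin N → ℂ) (i₀ : Fin m)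
    (j₁ j₂ : Fin N) (hj : j₁ ≠ j₂) (h₁ : x i₀ j₁ ≠ 0) (h₂ : x i₀ j₂ ≠ 0) (ω : Om)
    (μ : Bool → Om) (hs : μ true ^ d + μ false ^ d =
      algebraMap ℂ Om (x i₀ j₁ ^ d + x i₀ j₂ ^ d))
    (hp : μ true ^ d * μ false ^ d = ω ^ d) (v : Place ℂ Om) (k : ZMod d)
    (hω : v.At ω (x i₀ j₁ * x i₀ j₂ * psi k)) :
    ∃ r : Equiv.Perm (ZMod d × Bool), ∀ a i,
      RedV v (dihed_P x i₀ j₁ j₂ ω μ a i) (dihed_u x i₀ j₁ j₂ k (r a) i) := by
  have hp' : v.At (μ true ^ d * μ false ^ d) (x i₀ j₁ ^ d * x i₀ j₂ ^ d) := by
    rw [hp]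
    have := hω.pow d
    rwa [mul_pow, mul_pow, psi_pow, mul_one] at this
  have key : ∀ (b c : Bool), v.At (μ b ^ d) (if c then x i₀ j₁ ^ d else x i₀ j₂ ^ d) →
      ∃ r : ZMod d, v.At (μ b) (psi r * (if c then x i₀ j₁ else x i₀ j₂)) := by
    intro b c h
    obtain ⟨r, hr⟩ := root_at h (b := if c then x i₀ j₁ else x i₀ j₂) (by split_ifs <;> rfl)
    exact ⟨r, hr⟩
  have key2 : ∃ (c : Bool → Bool) (r : Bool → ZMod d), Function.Injective c ∧
      ∀ b, v.At (μ b) (psi (r b) * (if c b then x i₀ j₁ else x i₀ j₂)) := by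
    rcases dihed_roots hs hp' with ⟨hU, hW⟩ | ⟨hU, hW⟩
    · obtain ⟨r, hr⟩ := key true true (by simpa using hU)
      obtain ⟨r', hr'⟩ := key false false (by simpa using hW)
      refine ⟨id, fun b => if b then r else r', fun _ _ h => h, fun b => ?_⟩
      cases b
      · simpa using hr'
      · simpa using hr
    · obtain ⟨r, hr⟩ := key true false (by simpa using hU)
      obtain ⟨r', hr'⟩ := key false true (by simpa using hW)
      refine ⟨not, fun b => if b then r else r', Bool.not_injective, fun b => ?_⟩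
      cases b
      · simpa using hr'
      · simpa using hr
  obtain ⟨c, r, hc, hr⟩ := key2
  let f : ZMod d × Bool → ZMod d × Bool := fun a => (a.1 + r a.2, c a.2)
  have hf : Function.Injective f := by
    rintro ⟨l, b⟩ ⟨l', b'⟩ h
    simp only [f, Prod.mk.injEq] at h
    obtain ⟨h1, h2⟩ := h
    have h3 := hc h2
    subst h3
    simpa using h1
  refine ⟨Equiv.ofBijective f (Finite.injective_iff_bijective.1 hf), fun a i => ?_⟩
  refine ⟨1, fun j => ?_⟩
  rw [one_mul, Equiv.ofBijective_apply]
  obtain ⟨l, b⟩ := a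
  unfold dihed_P dihed_u rot dihed_k
  simp only [f]
  by_cases hi : i = i₀
  · subst hi
    simp only [if_true]
    by_cases hj1 : j = j₁
    · subst hj1
      simp only [if_true]
      have h := (Place.at_const (v := v) (psi l)).mul (hr b)
      convert h using 1
      rw [psi_add, mul_assoc]
      congr 2
      by_cases hcb : c b = true
      · rw [if_pos hcb, if_pos hcb]
      · rw [if_neg hcb, if_neg hcb]
        simp [exch]
    · rw [if_neg hj1, if_neg hj1]
      by_cases hj2 : j = j₂
      · subst hj2
        simp only [if_true]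
        have hne : psi (r b) * (if c b then x i j₁ else x i j) ≠ 0 := by
          refine mul_ne_zero (psi_ne _) ?_
          split_ifs
          · exact h₁
          · exact h₂
        have h := (Place.at_const (v := v) (psi (-l))).mul (hω.div (hr b) hne)
        convert h using 1
        have e1 : psi (k - (l + r b)) * psi (r b) = psi (-l) * psi k := by
          rw [← psi_add, ← psi_add]
          congr 1
          ring
        by_cases hcb : c b = true
        · rw [if_pos hcb, if_pos hcb, mul_div_assoc', eq_div_iff (mul_ne_zero (psi_ne _) h₁)]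
          linear_combination (x i j₁ * x i j) * e1
        · rw [if_neg hcb, if_neg hcb, mul_div_assoc', eq_div_iff (mul_ne_zero (psi_ne _) h₂)]
          simp only [exch, if_true, Equiv.swap_apply_right]
          linear_combination (x i j₁ * x i j) * e1
      · rw [if_neg hj2, if_neg hj2, psi_zero, one_mul]
        by_cases hcb : c b = true
        · rw [if_pos hcb]
          exact Place.at_const _
        · rw [if_neg hcb]
          simp only [exch, if_true]
          rw [Equiv.swap_apply_of_ne_of_ne hj1 hj2]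
          exact Place.at_const _
  · rw [if_neg hi, if_neg hi, psi_zero, one_mul]
    by_cases hcb : c b = true
    · rw [if_pos hcb]
      exact Place.at_const _
    · rw [if_neg hcb]
      unfold exch
      rw [if_neg hi]
      exact Place.at_const _

theorem fam_dihed [NeZero d] (x : Fin m → Fin N → ℂ) (hx : Good d x) (i₀ : Fin m)
    (j₁ j₂ : Fin N) (hj : j₁ ≠ j₂) (h₁ : x i₀ j₁ ≠ 0) (h₂ : x i₀ j₂ ≠ 0) (k : ZMod d) :
    ∑ l : ZMod d,
        (cl d (rot (fun i j => if i = i₀ then (if j = j₁ then l else if j = j₂ then k - l else 0)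
            else 0) x) +
          cl d (rot (fun i j => if i = i₀ then (if j = j₁ then l else if j = j₂ then k - l else 0)
            else 0) (exch i₀ j₁ j₂ x))) =
      ∑ l : ZMod d,
        (cl d (rot (fun i j => if i = i₀ then (if j = j₁ then l else if j = j₂ then -l else 0)
            else 0) x) +
          cl d (rot (fun i j => if i = i₀ then (if j = j₁ then l else if j = j₂ then -l else 0)
            else 0) (exch i₀ j₁ j₂ x))) := by
  have hd : 0 < d := Nat.pos_of_ne_zero (NeZero.ne d)
  -- the path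
  set ω : Om := algebraMap ℂ Om (x i₀ j₁ * x i₀ j₂) *
    (1 + tt * algebraMap ℂ Om (psi k - 1)) with hω
  have hω0 : ω ≠ 0 := by
    rw [hω]
    refine mul_ne_zero ?_ ?_
    · simpa using ⟨h₁, h₂⟩
    · intro h
      by_cases hk : psi k - 1 = 0
      · rw [hk] at h
        simp at h
      · have hk' : algebraMap ℂ Om (psi k - 1) ≠ 0 :=
          (map_ne_zero_iff _ (algebraMap ℂ Om).injective).2 hk
        apply dihed_tt (-(psi k - 1)⁻¹)
        rw [map_neg, map_inv₀, eq_neg_iff_add_eq_zero]
        field_simp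
        linear_combination h
  obtain ⟨δ, hδ⟩ := IsAlgClosed.exists_pow_nat_eq
    (algebraMap ℂ Om (x i₀ j₁ ^ d + x i₀ j₂ ^ d) ^ 2 - 4 * ω ^ d) (n := 2) two_pos
  set S : Om := algebraMap ℂ Om (x i₀ j₁ ^ d + x i₀ j₂ ^ d) with hS
  obtain ⟨μ₁, hμ₁⟩ := IsAlgClosed.exists_pow_nat_eq ((S + δ) / 2) hd
  obtain ⟨μ₂, hμ₂⟩ := IsAlgClosed.exists_pow_nat_eq ((S - δ) / 2) hd
  let μ : Bool → Om := fun b => if b then μ₁ else μ₂
  have hs : μ true ^ d + μ false ^ d = S := by
    simp only [μ, if_true, Bool.false_eq_true, if_false]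
    rw [hμ₁, hμ₂]
    ring
  have hp : μ true ^ d * μ false ^ d = ω ^ d := by
    simp only [μ, if_true, Bool.false_eq_true, if_false]
    rw [hμ₁, hμ₂]
    linear_combination (-1 / 4 : Om) * hδ
  have hμ0 : ∀ b, μ b ≠ 0 := by
    intro b h
    have h3 : μ true ^ d * μ false ^ d = 0 := by
      cases b
      · rw [h, zero_pow hd.ne', mul_zero]
      · rw [h, zero_pow hd.ne', zero_mul]
    rw [hp] at h3
    exact pow_ne_zero d hω0 h3
  have hsum : ∀ b, μ b ^ d + (ω / μ b) ^ d = S := by
    intro b
    rw [div_pow, ← hp, ← hs]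
    have e1 := pow_ne_zero d (hμ0 true)
    have e2 := pow_ne_zero d (hμ0 false)
    cases b
    · field_simp
      ring
    · field_simp
  have hpsi : ∀ l : ZMod d, (algebraMap ℂ Om (psi l)) ^ d = 1 := by
    intro l
    rw [← map_pow, psi_pow, map_one]
  have hP : ∀ (a : ZMod d × Bool) (i : Fin m), dihed_P x i₀ j₁ j₂ ω μ a i ≠ 0 ∧
      ∑ j, dihed_P x i₀ j₁ j₂ ω μ a i j ^ d = 0 := by
    intro a i
    by_cases hi : i = i₀
    · subst hi
      constructor
      · intro h
        have h3 := congrFun h j₁
        unfold dihed_P at h3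
        simp only [if_true, Pi.zero_apply, mul_eq_zero] at h3
        rcases h3 with h3 | h3
        · exact psi_ne a.1 (by simpa using h3)
        · exact hμ0 _ h3
      · have h4 : ∀ j, dihed_P x i j₁ j₂ ω μ a i j ^ d =
            (if j = j₁ then μ a.2 ^ d - algebraMap ℂ Om (x i j ^ d) else 0) +
            (if j = j₂ then (ω / μ a.2) ^ d - algebraMap ℂ Om (x i j ^ d) else 0) +
            algebraMap ℂ Om (x i j ^ d) := by
          intro j
          unfold dihed_P
          by_cases hj1 : j = j₁
          · subst hj1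
            simp only [if_true, if_neg hj]
            rw [mul_pow, hpsi]
            ring
          · by_cases hj2 : j = j₂
            · subst hj2
              simp only [if_true, if_neg hj1]
              rw [mul_pow, hpsi]
              ring
            · simp only [if_true, if_neg hj1, if_neg hj2]
              rw [map_pow]
              ring
        rw [Finset.sum_congr rfl fun j _ => h4 j, Finset.sum_add_distrib,
          Finset.sum_add_distrib, Finset.sum_ite_eq', Finset.sum_ite_eq', if_pos (Finset.mem_univ _),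
          if_pos (Finset.mem_univ _), ← map_sum, (hx i).2, map_zero]
        have h5 := hsum a.2
        rw [hS, map_add] at h5
        linear_combination h5
    · constructor
      · intro h
        obtain ⟨j, hj'⟩ := Function.ne_iff.1 (hx i).1
        have h3 := congrFun h j
        unfold dihed_P at h3
        rw [if_neg hi] at h3
        exact hj' (by simpa using h3)
      · have h4 : ∀ j, dihed_P x i₀ j₁ j₂ ω μ a i j ^ d = algebraMap ℂ Om (x i j ^ d) := by
          intro j
          unfold dihed_P
          rw [if_neg hi, map_pow]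
        rw [Finset.sum_congr rfl fun j _ => h4 j, ← map_sum, (hx i).2, map_zero]
  have hB := bridge (dihed_P x i₀ j₁ j₂ ω μ) hP 1 0 (dihed_u x i₀ j₁ j₂ k)
    (dihed_u x i₀ j₁ j₂ 0) (dihed_nonzero x (fun i => (hx i).1) i₀ j₁ j₂ k)
    (dihed_nonzero x (fun i => (hx i).1) i₀ j₁ j₂ 0) ?_ ?_
  · rw [Fintype.sum_prod_type, Fintype.sum_prod_type] at hB
    simp only [Fintype.sum_bool] at hB
    convert hB using 1
    · refine Finset.sum_congr rfl fun l _ => ?_
      simp only [dihed_u, if_true, Bool.false_eq_true, if_false]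
      rfl
    · refine Finset.sum_congr rfl fun l _ => ?_
      simp only [dihed_u, if_true, Bool.false_eq_true, if_false]
      unfold dihed_k
      simp only [zero_sub]
  · intro v hv
    refine dihed_red x i₀ j₁ j₂ hj h₁ h₂ ω μ hs hp v k ?_
    have h := (Place.at_const (v := v) (x i₀ j₁ * x i₀ j₂)).mul
      ((Place.at_const (v := v) (1 : ℂ)).add (hv.mul (Place.at_const (v := v) (psi k - 1))))
    rw [map_one] at h
    convert h using 1
    ring
  · intro v hv
    refine dihed_red x i₀ j₁ j₂ hj h₁ h₂ ω μ hs hp v 0 ?_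
    have h := (Place.at_const (v := v) (x i₀ j₁ * x i₀ j₂)).mul
      ((Place.at_const (v := v) (1 : ℂ)).add (hv.mul (Place.at_const (v := v) (psi k - 1))))
    rw [map_one] at h
    convert h using 1
    rw [psi_zero]
    ring

end Pool.Agent.FBB
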