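import Pool.Agent.FBB.Pt
import Pool.Agent.FBB.Bridge

/-!
# FBB: the dual family
-/

set_option autoImplicit false

noncomputable section

namespace Pool.Agent.FBB

open scoped LinearAlgebra.Projectivization
open Pool.Agent.ZCyc Polynomial

variable {d m N : ℕ}

private lemma dual_aeval_tt (q : ℂ[X]) :
    aeval tt q = algebraMap (RatFunc ℂ) Om (algebraMap ℂ[X] (RatFunc ℂ) q) := by
  unfold tt
  rw [Polynomial.aeval_algebraMap_apply]
  congr 1
  rw [← RatFunc.algebraMap_X, Polynomial.aeval_algebraMap_apply, Polynomial.aeval_X_left_apply]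

private lemma dual_aeval_ne {q : ℂ[X]} (hq : q ≠ 0) : aeval tt q ≠ 0 := by
  rw [dual_aeval_tt]
  intro h
  have h1 : algebraMap ℂ[X] (RatFunc ℂ) q = 0 :=
    (map_eq_zero (algebraMap (RatFunc ℂ) Om)).1 h
  exact hq ((map_eq_zero_iff _ (RatFunc.algebraMap_injective ℂ)).1 h1)

private lemma dual_bs (β : Fin N → Fin 3) (u : Fin N → ℂ) (c : Fin 3 → Om) :
    ∑ j, c (β j) * algebraMap ℂ Om (u j) ^ d =
      ∑ s, c s * algebraMap ℂ Om (bs d β u s) := by
  classical
  rw [← Finset.sum_fiberwise_of_maps_to (s := Finset.univ) (t := Finset.univ) (g := β)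
    (fun _ _ => Finset.mem_univ _)]
  apply Finset.sum_congr rfl
  intro s _
  unfold bs
  rw [map_sum, Finset.mul_sum]
  apply Finset.sum_congr rfl
  intro j hj
  rw [Finset.mem_filter] at hj
  rw [hj.2, map_pow]

private lemma dual_core [NeZero d] (x : Fin m → Fin N → ℂ) (hx : Good d x) (i₁ i₂ : Fin m)
    (hi : i₁ ≠ i₂) (β₁ β₂ : Fin N → Fin 3) (k : Fin 3 → ZMod d) (ξ R : Fin 3 → ℂ[X]) (K : ℂ)
    (hK : K ≠ 0) (h0 : ∀ s, (ξ s).eval 0 = 1) (h1 : ∀ s, (ξ s).eval 1 = psi (k s))
    (hR0 : ∀ s, (R s).eval 0 = K) (hR1 : ∀ s, (R s).eval 1 = K)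
    (ha : ∑ s, R s * C (bs d β₂ (x i₂) s) = 0)
    (hb : ∑ s, ξ s ^ d * R s * C (bs d β₁ (x i₁) s) = 0) :
    ∑ l : Fin 3 → ZMod d,
        cl d (tw i₁ i₂ β₁ β₂ (fun s => psi (k s + l s)) (fun s => psi (l s)) x) =
      ∑ l : Fin 3 → ZMod d,
        cl d (tw i₁ i₂ β₁ β₂ (fun s => psi (l s)) (fun s => psi (l s)) x) := by
  classical
  have hd : 0 < d := Nat.pos_of_ne_zero (NeZero.ne d)
  have hR : ∀ s, R s ≠ 0 := by
    intro s h
    have := hR0 s
    rw [h, eval_zero] at this
    exact hK this.symm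
  have hξ : ∀ s, ξ s ≠ 0 := by
    intro s h
    have := h0 s
    rw [h, eval_zero] at this
    exact zero_ne_one this
  have hKO : algebraMap ℂ Om K ≠ 0 := by simpa using hK
  have hex : ∀ s, ∃ ν : Om, ν ^ d = aeval tt (R s) / algebraMap ℂ Om K := fun s =>
    IsAlgClosed.exists_pow_nat_eq _ hd
  choose ν hν using hex
  have hν0 : ∀ s, ν s ≠ 0 := by
    intro s h
    have h2 := hν s
    rw [h, zero_pow hd.ne'] at h2
    exact div_ne_zero (dual_aeval_ne (hR s)) hKO h2.symm
  have hpsi : ∀ c : ZMod d, algebraMap ℂ Om (psi c) ≠ 0 := fun c => by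
    simpa using psi_ne c
  have hpsid : ∀ c : ZMod d, algebraMap ℂ Om (psi c) ^ d = 1 := fun c => by
    rw [← map_pow, psi_pow, map_one]
  set P : (Fin 3 → ZMod d) → Fin m → Fin N → Om := fun l i j =>
    (if i = i₁ then algebraMap ℂ Om (psi (l (β₁ j))) * aeval tt (ξ (β₁ j)) * ν (β₁ j)
      else if i = i₂ then algebraMap ℂ Om (psi (l (β₂ j))) * ν (β₂ j) else 1) *
        algebraMap ℂ Om (x i j) with hPdef
  have hP : ∀ l i, P l i ≠ 0 ∧ ∑ j, P l i j ^ d = 0 := by
    intro l i
    constructor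
    · obtain ⟨j, hj⟩ := Function.ne_iff.1 (hx i).1
      intro h
      have h2 := congrFun h j
      rw [hPdef] at h2
      simp only [Pi.zero_apply, mul_eq_zero, map_eq_zero] at h2
      rcases h2 with h2 | h2
      · split_ifs at h2
        · rcases mul_eq_zero.1 h2 with h3 | h3
          · rcases mul_eq_zero.1 h3 with h4 | h4
            · exact hpsi _ h4
            · exact dual_aeval_ne (hξ _) h4
          · exact hν0 _ h3
        · rcases mul_eq_zero.1 h2 with h3 | h3
          · exact hpsi _ h3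
          · exact hν0 _ h3
        · exact one_ne_zero h2
      · exact hj h2
    · by_cases e1 : i = i₁
      · subst e1
        have h2 : ∀ j, P l i j ^ d =
            (fun s => aeval tt (ξ s) ^ d * (aeval tt (R s) / algebraMap ℂ Om K)) (β₁ j) *
              algebraMap ℂ Om (x i j) ^ d := by
          intro j
          rw [hPdef]
          simp only [if_true]
          rw [mul_pow, mul_pow, mul_pow, hpsid, one_mul, hν]
        rw [Finset.sum_congr rfl fun j _ => h2 j, dual_bs β₁ (x i)
          (fun s => aeval tt (ξ s) ^ d * (aeval tt (R s) / algebraMap ℂ Om K))]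
        have h3 := congrArg (aeval tt) hb
        rw [map_zero, map_sum] at h3
        have h4 : ∑ s, (aeval tt (ξ s) ^ d * (aeval tt (R s) / algebraMap ℂ Om K)) *
            algebraMap ℂ Om (bs d β₁ (x i) s) =
            (∑ s, aeval tt (ξ s ^ d * R s * C (bs d β₁ (x i) s))) / algebraMap ℂ Om K := by
          rw [Finset.sum_div]
          apply Finset.sum_congr rfl
          intro s _
          rw [map_mul, map_mul, map_pow, aeval_C]
          ring
        rw [h4, h3, zero_div]
      · by_cases e2 : i = i₂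
        · subst e2
          have h2 : ∀ j, P l i j ^ d =
              (fun s => (aeval tt (R s) / algebraMap ℂ Om K)) (β₂ j) *
                algebraMap ℂ Om (x i j) ^ d := by
            intro j
            rw [hPdef]
            simp only [if_neg e1, if_true]
            rw [mul_pow, mul_pow, hpsid, one_mul, hν]
          rw [Finset.sum_congr rfl fun j _ => h2 j, dual_bs β₂ (x i)
            (fun s => (aeval tt (R s) / algebraMap ℂ Om K))]
          have h3 := congrArg (aeval tt) ha
          rw [map_zero, map_sum] at h3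
          have h4 : ∑ s, (aeval tt (R s) / algebraMap ℂ Om K) *
              algebraMap ℂ Om (bs d β₂ (x i) s) =
              (∑ s, aeval tt (R s * C (bs d β₂ (x i) s))) / algebraMap ℂ Om K := by
            rw [Finset.sum_div]
            apply Finset.sum_congr rfl
            intro s _
            rw [map_mul, aeval_C]
            ring
          rw [h4, h3, zero_div]
        · have h2 : ∀ j, P l i j ^ d = algebraMap ℂ Om (x i j ^ d) := by
            intro j
            rw [hPdef]
            simp only [if_neg e1, if_neg e2, one_mul, map_pow]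
          rw [Finset.sum_congr rfl fun j _ => h2 j, ← map_sum, (hx i).2, map_zero]
  have hne : ∀ (g h : Fin 3 → ℂ), (∀ s, g s ≠ 0) → (∀ s, h s ≠ 0) → ∀ i,
      tw i₁ i₂ β₁ β₂ g h x i ≠ 0 := by
    intro g h hg hh i hcon
    obtain ⟨j, hj⟩ := Function.ne_iff.1 (hx i).1
    have h2 := congrFun hcon j
    unfold tw at h2
    rw [Pi.zero_apply, mul_eq_zero] at h2
    rcases h2 with h2 | h2
    · split_ifs at h2
      · exact hg _ h2
      · exact hh _ h2
      · exact one_ne_zero h2
    · exact hj h2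
  have hval : ∀ (v : Place ℂ Om) (c : ℂ) (hc : v.At tt c) (hRc : ∀ s, (R s).eval c = K),
      ∃ r : Fin 3 → ZMod d, ∀ s, v.At (ν s) (psi (r s)) := by
    intro v c hc hRc
    have h2 : ∀ s, ∃ r : ZMod d, v.At (ν s) (psi r * 1) := by
      intro s
      apply root_at (z := 1) _ (one_pow d)
      rw [hν]
      have h3 := (hc.aeval (R s)).div (Place.at_const K) hK
      rw [hRc s, div_self hK] at h3
      exact h3
    choose r hr using h2
    exact ⟨r, fun s => by simpa using hr s⟩
  have hmain := bridge (d := d) P hP 0 1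
    (fun l => tw i₁ i₂ β₁ β₂ (fun s => psi (l s)) (fun s => psi (l s)) x)
    (fun l => tw i₁ i₂ β₁ β₂ (fun s => psi (k s + l s)) (fun s => psi (l s)) x)
    (fun l i => hne _ _ (fun _ => psi_ne _) (fun _ => psi_ne _) i)
    (fun l i => hne _ _ (fun _ => psi_ne _) (fun _ => psi_ne _) i)
    (by
      intro v hv
      obtain ⟨r, hr⟩ := hval v 0 hv hR0
      refine ⟨Equiv.addRight r, fun l i => ⟨1, fun j => ?_⟩⟩
      rw [one_mul, hPdef]
      simp only [Equiv.coe_addRight, tw]
      apply Place.At.mul _ (Place.at_const _)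
      split_ifs
      · have h2 := ((Place.at_const (v := v) (psi (l (β₁ j)))).mul (hv.aeval (ξ (β₁ j)))).mul
          (hr (β₁ j))
        rw [h0, mul_one, ← psi_add] at h2
        exact h2
      · have h2 := (Place.at_const (v := v) (psi (l (β₂ j)))).mul (hr (β₂ j))
        rw [← psi_add] at h2
        exact h2
      · have h2 := Place.at_const (v := v) (1 : ℂ)
        rwa [map_one] at h2)
    (by
      intro v hv
      obtain ⟨r, hr⟩ := hval v 1 hv hR1
      refine ⟨Equiv.addRight r, fun l i => ⟨1, fun j => ?_⟩⟩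
      rw [one_mul, hPdef]
      simp only [Equiv.coe_addRight, tw]
      apply Place.At.mul _ (Place.at_const _)
      split_ifs
      · have h2 := ((Place.at_const (v := v) (psi (l (β₁ j)))).mul (hv.aeval (ξ (β₁ j)))).mul
          (hr (β₁ j))
        rw [h1, ← psi_add, ← psi_add] at h2
        have e : k (β₁ j) + (l + r) (β₁ j) = l (β₁ j) + k (β₁ j) + r (β₁ j) := by
          rw [Pi.add_apply]; ring
        rw [e]
        exact h2
      · have h2 := (Place.at_const (v := v) (psi (l (β₂ j)))).mul (hr (β₂ j))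
        rw [← psi_add] at h2
        exact h2
      · have h2 := Place.at_const (v := v) (1 : ℂ)
        rwa [map_one] at h2)
  exact hmain.symm

private lemma dual_sum_bs (β : Fin N → Fin 3) (u : Fin N → ℂ) (hu : ∑ j, u j ^ d = 0) :
    bs d β u 0 + bs d β u 1 + bs d β u 2 = 0 := by
  classical
  have h := Finset.sum_fiberwise_of_maps_to (s := Finset.univ) (t := Finset.univ) (g := β)
    (fun _ _ => Finset.mem_univ _) (fun j => u j ^ d)
  rw [hu, Fin.sum_univ_three] at h
  exact h

theorem fam_dual [NeZero d] (x : Fin m → Fin N → ℂ) (hx : Good d x) (i₁ i₂ : Fin m)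
    (hi : i₁ ≠ i₂) (β₁ β₂ : Fin N → Fin 3) (h₁ : ∀ s, bs d β₁ (x i₁) s ≠ 0)
    (h₂ : ∀ s, bs d β₂ (x i₂) s ≠ 0) (k : Fin 3 → ZMod d) :
    ∑ l : Fin 3 → ZMod d,
        cl d (tw i₁ i₂ β₁ β₂ (fun s => psi (k s + l s)) (fun s => psi (l s)) x) =
      ∑ l : Fin 3 → ZMod d,
        cl d (tw i₁ i₂ β₁ β₂ (fun s => psi (l s)) (fun s => psi (l s)) x) := by
  have hd : 0 < d := Nat.pos_of_ne_zero (NeZero.ne d)
  have hs1 := dual_sum_bs β₁ (x i₁) (hx i₁).2
  have hs2 := dual_sum_bs β₂ (x i₂) (hx i₂).2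
  set p := bs d β₁ (x i₁) with hp
  set q := bs d β₂ (x i₂) with hq
  have hp0 := h₁ 0
  have hp1 := h₁ 1
  have hp2 := h₁ 2
  have hq0 := h₂ 0
  have hq1 := h₂ 1
  have hq2 := h₂ 2
  by_cases hκ : q 1 * p 2 - q 2 * p 1 = 0
  · -- the proportional case
    set lam : ℂ := q 1 / p 1 with hlam
    have hlam0 : lam ≠ 0 := div_ne_zero hq1 hp1
    have e1 : q 1 = lam * p 1 := by rw [hlam]; field_simp
    have e2 : q 2 = lam * p 2 := by
      rw [hlam, div_mul_eq_mul_div, eq_div_iff hp1]
      linear_combination -hκ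
    have e0 : q 0 = lam * p 0 := by
      have : p 0 = -p 1 - p 2 := by linear_combination hs1
      rw [this]
      linear_combination hs2 - e1 - e2
    set η : Fin 3 → ℂ := ![0, p 2, -p 1] with hη
    have hη0 : η 0 = 0 := rfl
    have hη1 : η 1 = p 2 := rfl
    have hη2 : η 2 = -p 1 := rfl
    set ξ : Fin 3 → ℂ[X] := fun s => (1 + C (psi (k s) - 1) * (3 * X ^ 2 - 2 * X ^ 3)) *
      (1 + C (η s) * (X * (1 - X))) with hξ
    have hξ0 : ∀ s, (ξ s).eval 0 = 1 := by
      intro s; simp [hξ]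
    have hξ1 : ∀ s, (ξ s).eval 1 = psi (k s) := by
      intro s
      simp only [hξ, eval_mul, eval_add, eval_one, eval_C, eval_sub, eval_pow, eval_X,
        eval_ofNat]
      ring
    have hdξ0 : ∀ s, (derivative (ξ s)).eval 0 = η s := by
      intro s
      simp [hξ]
    have hdξ1 : ∀ s, (derivative (ξ s)).eval 1 = -psi (k s) * η s := by
      intro s
      simp [hξ]
      ring
    set E' : Fin 3 → ℂ[X] := fun s => ξ s ^ d with hE
    have hE0 : ∀ s, (E' s).eval 0 = 1 := by
      intro s; rw [hE]; simp only [eval_pow, hξ0, one_pow]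
    have hE1 : ∀ s, (E' s).eval 1 = 1 := by
      intro s; rw [hE]; simp only [eval_pow, hξ1, psi_pow]
    have hdE0 : ∀ s, (derivative (E' s)).eval 0 = d * η s := by
      intro s
      rw [hE]
      simp only [derivative_pow, eval_mul, eval_pow, hξ0, one_pow, hdξ0, eval_C, mul_one]
    have hdE1 : ∀ s, (derivative (E' s)).eval 1 = -(d * η s) := by
      intro s
      rw [hE]
      simp only [derivative_pow, eval_mul, eval_pow, hξ1, hdξ1, eval_C]
      have h3 : psi (k s) ^ (d - 1) * psi (k s) = 1 := by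
        rw [← pow_succ, Nat.sub_add_cancel hd, psi_pow]
      linear_combination (-(d : ℂ) * η s) * h3
    -- division by t (1 - t)
    have hdiv : ∀ F : ℂ[X], F.eval 0 = 0 → F.eval 1 = 0 → ∃ R : ℂ[X], F = X * (1 - X) * R := by
      intro F hF0 hF1
      obtain ⟨M, hM⟩ := dvd_iff_isRoot.2 (show F.IsRoot 0 from hF0)
      have hM1 : M.eval 1 = 0 := by
        rw [hM] at hF1
        simpa using hF1
      obtain ⟨R, hR⟩ := dvd_iff_isRoot.2 (show M.IsRoot 1 from hM1)
      refine ⟨-R, ?_⟩
      rw [hM, hR, C_0, C_1]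
      ring
    set Nf : Fin 3 → ℂ[X] := ![C (q 1 * p 2) * E' 2 - C (q 2 * p 1) * E' 1,
      C (q 2 * p 0) * E' 0 - C (q 0 * p 2) * E' 2,
      C (q 0 * p 1) * E' 1 - C (q 1 * p 0) * E' 0] with hNf
    have hN0 : Nf 0 = C (q 1 * p 2) * E' 2 - C (q 2 * p 1) * E' 1 := rfl
    have hN1 : Nf 1 = C (q 2 * p 0) * E' 0 - C (q 0 * p 2) * E' 2 := rfl
    have hN2 : Nf 2 = C (q 0 * p 1) * E' 1 - C (q 1 * p 0) * E' 0 := rfl
    have hNe : ∀ (c : ℂ) (_ : ∀ s, (E' s).eval c = 1) (s : Fin 3), (Nf s).eval c = 0 := by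
      intro c hc s
      fin_cases s
      · show (Nf 0).eval c = 0
        rw [hN0, eval_sub, eval_mul, eval_mul, eval_C, eval_C, hc, hc, e1, e2]
        ring
      · show (Nf 1).eval c = 0
        rw [hN1, eval_sub, eval_mul, eval_mul, eval_C, eval_C, hc, hc, e0, e2]
        ring
      · show (Nf 2).eval c = 0
        rw [hN2, eval_sub, eval_mul, eval_mul, eval_C, eval_C, hc, hc, e0, e1]
        ring
    have hNd : ∀ (c δ : ℂ) (_ : ∀ s, (derivative (E' s)).eval c = δ * η s) (s : Fin 3),
        (derivative (Nf s)).eval c = δ * (lam * (p 0 * p 1 * p 2)) := by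
      intro c δ hc s
      have hp0' : p 0 = -p 1 - p 2 := by linear_combination hs1
      fin_cases s
      · show (derivative (Nf 0)).eval c = _
        rw [hN0, derivative_sub, derivative_C_mul, derivative_C_mul, eval_sub, eval_mul, eval_mul,
          eval_C, eval_C, hc, hc, e1, e2, hη1, hη2, hp0']
        ring
      · show (derivative (Nf 1)).eval c = _
        rw [hN1, derivative_sub, derivative_C_mul, derivative_C_mul, eval_sub, eval_mul, eval_mul,
          eval_C, eval_C, hc, hc, e0, e2, hη0, hη2, hp0']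
        ring
      · show (derivative (Nf 2)).eval c = _
        rw [hN2, derivative_sub, derivative_C_mul, derivative_C_mul, eval_sub, eval_mul, eval_mul,
          eval_C, eval_C, hc, hc, e0, e1, hη0, hη1, hp0']
        ring
    have hRex : ∀ s, ∃ R : ℂ[X], Nf s = X * (1 - X) * R := fun s =>
      hdiv _ (hNe 0 hE0 s) (hNe 1 hE1 s)
    choose R hR using hRex
    set K : ℂ := d * (lam * (p 0 * p 1 * p 2)) with hK
    have hK0 : K ≠ 0 := by
      have : (d : ℂ) ≠ 0 := Nat.cast_ne_zero.2 hd.ne'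
      rw [hK]
      positivity
    have hRd : ∀ s (c : ℂ), (derivative (Nf s)).eval c =
        (1 - 2 * c) * (R s).eval c + c * (1 - c) * (derivative (R s)).eval c := by
      intro s c
      rw [hR s]
      simp only [derivative_mul, derivative_sub, derivative_X, derivative_one, eval_add, eval_mul,
        eval_sub, eval_X, eval_one, eval_zero]
      ring
    have hRK0 : ∀ s, (R s).eval 0 = K := by
      intro s
      have h3 := hRd s 0
      rw [hNd 0 d hdE0 s] at h3
      rw [hK]
      linear_combination -h3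
    have hRK1 : ∀ s, (R s).eval 1 = K := by
      intro s
      have h3 := hRd s 1
      rw [hNd 1 (-d) (fun s => by rw [hdE1 s]; ring) s] at h3
      rw [hK]
      linear_combination h3
    have hXne : (X * (1 - X) : ℂ[X]) ≠ 0 := by
      intro h
      have := congrArg (eval (2 : ℂ)) h
      simp at this
      norm_num at this
    refine dual_core x hx i₁ i₂ hi β₁ β₂ k ξ R K hK0 hξ0 hξ1 hRK0 hRK1 ?_ ?_
    · apply mul_left_cancel₀ hXne
      rw [mul_zero, Fin.sum_univ_three]
      have h3 : X * (1 - X) * (R 0 * C (q 0) + R 1 * C (q 1) + R 2 * C (q 2)) =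
          Nf 0 * C (q 0) + Nf 1 * C (q 1) + Nf 2 * C (q 2) := by
        rw [hR 0, hR 1, hR 2]; ring
      rw [← hq, h3, hN0, hN1, hN2]
      simp only [C_mul]
      ring
    · apply mul_left_cancel₀ hXne
      rw [mul_zero, Fin.sum_univ_three]
      have h3 : X * (1 - X) * (ξ 0 ^ d * R 0 * C (p 0) + ξ 1 ^ d * R 1 * C (p 1) +
          ξ 2 ^ d * R 2 * C (p 2)) =
          E' 0 * Nf 0 * C (p 0) + E' 1 * Nf 1 * C (p 1) + E' 2 * Nf 2 * C (p 2) := by
        rw [hR 0, hR 1, hR 2, hE]; ring
      rw [← hp, h3, hN0, hN1, hN2]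
      simp only [C_mul]
      ring
  · -- the general case
    set ξ : Fin 3 → ℂ[X] := fun s => 1 + C (psi (k s) - 1) * X with hξ
    have hξ0 : ∀ s, (ξ s).eval 0 = 1 := by
      intro s; simp [hξ]
    have hξ1 : ∀ s, (ξ s).eval 1 = psi (k s) := by
      intro s; simp [hξ]
    set E' : Fin 3 → ℂ[X] := fun s => ξ s ^ d with hE
    have hE0 : ∀ s, (E' s).eval 0 = 1 := by
      intro s; rw [hE]; simp only [eval_pow, hξ0, one_pow]
    have hE1 : ∀ s, (E' s).eval 1 = 1 := by
      intro s; rw [hE]; simp only [eval_pow, hξ1, psi_pow]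
    set Nf : Fin 3 → ℂ[X] := ![C (q 1 * p 2) * E' 2 - C (q 2 * p 1) * E' 1,
      C (q 2 * p 0) * E' 0 - C (q 0 * p 2) * E' 2,
      C (q 0 * p 1) * E' 1 - C (q 1 * p 0) * E' 0] with hNf
    have hN0 : Nf 0 = C (q 1 * p 2) * E' 2 - C (q 2 * p 1) * E' 1 := rfl
    have hN1 : Nf 1 = C (q 2 * p 0) * E' 0 - C (q 0 * p 2) * E' 2 := rfl
    have hN2 : Nf 2 = C (q 0 * p 1) * E' 1 - C (q 1 * p 0) * E' 0 := rfl
    have hp0' : p 0 = -p 1 - p 2 := by linear_combination hs1
    have hq0' : q 0 = -q 1 - q 2 := by linear_combination hs2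
    have hNe : ∀ (c : ℂ) (_ : ∀ s, (E' s).eval c = 1) (s : Fin 3),
        (Nf s).eval c = q 1 * p 2 - q 2 * p 1 := by
      intro c hc s
      fin_cases s
      · show (Nf 0).eval c = _
        rw [hN0, eval_sub, eval_mul, eval_mul, eval_C, eval_C, hc, hc]
        ring
      · show (Nf 1).eval c = _
        rw [hN1, eval_sub, eval_mul, eval_mul, eval_C, eval_C, hc, hc, hp0', hq0']
        ring
      · show (Nf 2).eval c = _
        rw [hN2, eval_sub, eval_mul, eval_mul, eval_C, eval_C, hc, hc, hp0', hq0']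
        ring
    refine dual_core x hx i₁ i₂ hi β₁ β₂ k ξ Nf (q 1 * p 2 - q 2 * p 1) hκ hξ0 hξ1
      (hNe 0 hE0) (hNe 1 hE1) ?_ ?_
    · rw [Fin.sum_univ_three, ← hq, hN0, hN1, hN2]
      simp only [C_mul]
      ring
    · rw [Fin.sum_univ_three, ← hp]
      have h3 : ξ 0 ^ d * Nf 0 * C (p 0) + ξ 1 ^ d * Nf 1 * C (p 1) + ξ 2 ^ d * Nf 2 * C (p 2) =
          E' 0 * Nf 0 * C (p 0) + E' 1 * Nf 1 * C (p 1) + E' 2 * Nf 2 * C (p 2) := by
        rw [hE]
      rw [h3, hN0, hN1, hN2]
      simp only [C_mul]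
      ring

end Pool.Agent.FBB
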