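import Pool.Agent.FBB.Pt
import Pool.Agent.FBB.Bridge

/-!
# The family of points which exchanges two factors
-/

set_option autoImplicit false

noncomputable section

namespace Pool.Agent.FBB

open scoped LinearAlgebra.Projectivization
open Pool.Agent.ZCyc

variable {d m N : ℕ}

private lemma swap_mem_of_root (v : Place ℂ Om) {σ B C : Om} (hB : B ∈ v.ring)
    (hC : C ∈ v.ring) (h : σ ^ 2 + B * σ + C = 0) : σ ∈ v.ring := by
  by_contra hσ
  have hσ0 : σ ≠ 0 := by
    rintro rfl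
    exact hσ (zero_mem _)
  have h1 : v.Vanishes σ⁻¹ := (v.vanishes_iff_or _).2 (Or.inr (by simpa using hσ))
  have h2 : v.Vanishes (σ⁻¹ * B + σ⁻¹ * (σ⁻¹ * C)) :=
    Place.Vanishes.add v (h1.mul v hB) (h1.mul v (mul_mem (h1.mem v) hC))
  have h3 : σ⁻¹ * B + σ⁻¹ * (σ⁻¹ * C) = algebraMap ℂ Om (-1) := by
    rw [map_neg, map_one]
    field_simp
    linear_combination h
  rw [h3] at h2
  exact v.const_unit (by norm_num) h2

private lemma swap_vanishes_mul (v : Place ℂ Om) {f g : Om} (h : v.Vanishes (f * g)) :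
    v.Vanishes f ∨ v.Vanishes g := by
  by_contra hcon
  push Not at hcon
  obtain ⟨h1, h2⟩ := hcon
  rw [Place.vanishes_iff] at h h1 h2
  rw [_root_.map_mul] at h
  exact absurd h (not_lt.2 (one_le_mul (not_lt.1 h1) (not_lt.1 h2)))

/-- the values of the roots of a quadratic polynomial -/
private lemma swap_root_at (v : Place ℂ Om) {σ B C : Om} {c : ℂ} (hB : v.At B (-(1 + c)))
    (hC : v.At C c) (h : σ ^ 2 + B * σ + C = 0) : v.At σ 1 ∨ v.At σ c := by
  have hσ := swap_mem_of_root v hB.mem hC.mem h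
  have h1 : v.Vanishes ((σ - algebraMap ℂ Om 1) * (σ - algebraMap ℂ Om c)) := by
    have h2 := Place.Vanishes.add v (Place.Vanishes.mul v hB hσ) hC
    have h3 := Place.Vanishes.neg v h2
    convert h3 using 1
    simp only [map_neg, map_add, map_one]
    linear_combination h
  exact swap_vanishes_mul v h1

private lemma swap_xi_ne (z : ℂ) : (1 : Om) + tt * algebraMap ℂ Om z ≠ 0 := by
  intro h
  have h1 : algebraMap (RatFunc ℂ) Om (1 + RatFunc.X * RatFunc.C z) = 0 := by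
    rw [map_add, map_one, map_mul]
    exact h
  have h2 : (1 : RatFunc ℂ) + RatFunc.X * RatFunc.C z = 0 :=
    (algebraMap (RatFunc ℂ) Om).injective (by rw [h1, map_zero])
  have h3 : algebraMap (Polynomial ℂ) (RatFunc ℂ) (1 + Polynomial.X * Polynomial.C z) = 0 := by
    rw [map_add, map_one, map_mul, RatFunc.algebraMap_X, RatFunc.algebraMap_C]
    exact h2
  have h4 := (RatFunc.algebraMap_injective ℂ) (h3.trans (map_zero _).symm)
  have h5 := congrArg (Polynomial.eval 0) h4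
  simp at h5

/-- the coefficients of the quadratic equation -/
private def swB (d : ℕ) (p p' : Fin 3 → ℂ) (X : Fin 3 → Om) : Om :=
  algebraMap ℂ Om (p 0 / p 1) + algebraMap ℂ Om (p' 1 / p' 0) * X 1 ^ d -
    algebraMap ℂ Om (p 2 * p' 2 / (p' 0 * p 1)) * X 2 ^ d

private def swC (d : ℕ) (p p' : Fin 3 → ℂ) (X : Fin 3 → Om) : Om :=
  algebraMap ℂ Om (p 0 * p' 1 / (p' 0 * p 1)) * X 1 ^ d

private lemma swap_exists_mu (hd : d ≠ 0) (p p' : Fin 3 → ℂ) (hp : ∀ s, p s ≠ 0)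
    (hp' : ∀ s, p' s ≠ 0) (X : Fin 3 → Om) (hX0 : X 0 = 1) (hX : ∀ s, X s ≠ 0) (σ : Om)
    (hσ : σ ^ 2 + swB d p p' X * σ + swC d p p' X = 0) :
    ∃ mu : Fin 3 → Om, (∀ s, mu s ≠ 0) ∧ mu 0 ^ d = 1 ∧ mu 1 ^ d = σ ∧
      mu 2 ^ d = -(algebraMap ℂ Om (p 0 / p 2) + algebraMap ℂ Om (p 1 / p 2) * σ) ∧
      ∑ s, algebraMap ℂ Om (p s) * mu s ^ d = 0 ∧
      ∑ s, algebraMap ℂ Om (p' s) * (X s / mu s) ^ d = 0 := by
  have hne : ∀ z : ℂ, z ≠ 0 → algebraMap ℂ Om z ≠ 0 := fun z hz => by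
    simpa using hz
  have q : ∀ s, algebraMap ℂ Om (p s) ≠ 0 := fun s => hne _ (hp s)
  have q' : ∀ s, algebraMap ℂ Om (p' s) ≠ 0 := fun s => hne _ (hp' s)
  have hσ0 : σ ≠ 0 := by
    rintro rfl
    have h1 : swC d p p' X = 0 := by simpa [hd] using hσ
    unfold swC at h1
    rcases mul_eq_zero.1 h1 with h2 | h2
    · exact hne _ (div_ne_zero (mul_ne_zero (hp 0) (hp' 1)) (mul_ne_zero (hp' 0) (hp 1))) h2
    · exact hX 1 (pow_eq_zero_iff hd |>.1 h2)
  have key : algebraMap ℂ Om (p' 0) * σ * (algebraMap ℂ Om (p 0) + algebraMap ℂ Om (p 1) * σ) +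
      algebraMap ℂ Om (p' 1) * X 1 ^ d * (algebraMap ℂ Om (p 0) + algebraMap ℂ Om (p 1) * σ) -
      algebraMap ℂ Om (p' 2) * X 2 ^ d * algebraMap ℂ Om (p 2) * σ = 0 := by
    unfold swB swC at hσ
    simp only [map_div₀, map_mul] at hσ
    have q1 := q 1
    have q0' := q' 0
    field_simp at hσ
    linear_combination hσ
  have hL : algebraMap ℂ Om (p 0) + algebraMap ℂ Om (p 1) * σ ≠ 0 := by
    intro h
    rw [h] at key
    simp only [mul_zero, add_zero, zero_sub, neg_eq_zero, mul_eq_zero] at key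
    rcases key with ((h1 | h1) | h1) | h1
    · exact q' 2 h1
    · exact hX 2 (pow_eq_zero_iff hd |>.1 h1)
    · exact q 2 h1
    · exact hσ0 h1
  have hM2 : -(algebraMap ℂ Om (p 0 / p 2) + algebraMap ℂ Om (p 1 / p 2) * σ) ≠ 0 := by
    rw [neg_ne_zero]
    intro h
    apply hL
    rw [map_div₀, map_div₀] at h
    have q2 := q 2
    field_simp at h
    linear_combination h
  obtain ⟨m1, hm1⟩ := IsAlgClosed.exists_pow_nat_eq σ (Nat.pos_of_ne_zero hd)
  obtain ⟨m2, hm2⟩ := IsAlgClosed.exists_pow_nat_eq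
    (-(algebraMap ℂ Om (p 0 / p 2) + algebraMap ℂ Om (p 1 / p 2) * σ)) (Nat.pos_of_ne_zero hd)
  have hm10 : m1 ≠ 0 := by
    rintro rfl
    rw [zero_pow hd] at hm1
    exact hσ0 hm1.symm
  have hm20 : m2 ≠ 0 := by
    rintro rfl
    rw [zero_pow hd] at hm2
    exact hM2 hm2.symm
  refine ⟨![1, m1, m2], ?_, ?_, ?_, ?_, ?_, ?_⟩
  · intro s
    fin_cases s
    · exact one_ne_zero
    · exact hm10
    · exact hm20
  · simp
  · simpa using hm1
  · simpa using hm2
  · rw [Fin.sum_univ_three]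
    simp only [Matrix.cons_val_zero, Matrix.cons_val_one, Matrix.cons_val, one_pow]
    rw [hm1, hm2, map_div₀, map_div₀]
    have q2 := q 2
    field_simp
    ring
  · rw [Fin.sum_univ_three]
    simp only [Matrix.cons_val_zero, Matrix.cons_val_one, Matrix.cons_val, div_pow, one_pow]
    rw [hm1, hm2, map_div₀, map_div₀, hX0, one_pow]
    have q2 := q 2
    have h3 : -(algebraMap ℂ Om (p 0) / algebraMap ℂ Om (p 2) +
        algebraMap ℂ Om (p 1) / algebraMap ℂ Om (p 2) * σ) =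
        -(algebraMap ℂ Om (p 0) + algebraMap ℂ Om (p 1) * σ) / algebraMap ℂ Om (p 2) := by
      field_simp
    rw [h3]
    obtain ⟨L, hLdef⟩ : ∃ L : Om, L = algebraMap ℂ Om (p 0) + algebraMap ℂ Om (p 1) * σ :=
      ⟨_, rfl⟩
    rw [← hLdef] at hL key ⊢
    field_simp
    linear_combination key

private lemma swap_exists_sigma (B C : Om) : ∃ σ : Bool → Om, (∀ b, σ b ^ 2 + B * σ b + C = 0) ∧
    σ true + σ false = -B := by
  obtain ⟨s, hs⟩ : ∃ s : Om, s ^ 2 + B * s + C = 0 := by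
    have h1 : (Polynomial.X ^ 2 + Polynomial.C B * Polynomial.X + Polynomial.C C).degree ≠ 0 := by
      have h2 : (Polynomial.X ^ 2 + Polynomial.C B * Polynomial.X + Polynomial.C C).degree = 2 := by
        compute_degree!
      rw [h2]
      decide
    obtain ⟨s, hs⟩ := IsAlgClosed.exists_root _ h1
    refine ⟨s, ?_⟩
    simpa [Polynomial.IsRoot] using hs
  refine ⟨fun b => if b then s else -B - s, ?_, by simp⟩
  intro b
  cases b
  · simp only [Bool.false_eq_true, if_false]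
    linear_combination hs
  · simpa using hs

private lemma swap_at_sigma (v : Place ℂ Om) (p p' : Fin 3 → ℂ) (hp : ∀ s, p s ≠ 0)
    (hp' : ∀ s, p' s ≠ 0) (hs : p 0 + p 1 + p 2 = 0) (hs' : p' 0 + p' 1 + p' 2 = 0)
    (X : Fin 3 → Om) (e : Fin 3 → ℂ) (hX : ∀ s, v.At (X s) (e s)) (he : ∀ s, e s ^ d = 1)
    (σ : Bool → Om) (hσ : ∀ b, σ b ^ 2 + swB d p p' X * σ b + swC d p p' X = 0)
    (hσs : σ true + σ false = -swB d p p' X) :
    ∃ f : Bool → Bool, (∀ b, f (f b) = b) ∧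
      ∀ b, v.At (σ b) (if f b then 1 else p 0 * p' 1 / (p' 0 * p 1)) := by
  have hC : v.At (swC d p p' X) (p 0 * p' 1 / (p' 0 * p 1)) := by
    have h1 := (Place.at_const (v := v) (p 0 * p' 1 / (p' 0 * p 1))).mul ((hX 1).pow d)
    rw [he, mul_one] at h1
    exact h1
  have hB : v.At (swB d p p' X) (-(1 + p 0 * p' 1 / (p' 0 * p 1))) := by
    have h1 := ((Place.at_const (v := v) (p 0 / p 1)).add
      ((Place.at_const (v := v) (p' 1 / p' 0)).mul ((hX 1).pow d))).sub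
      ((Place.at_const (v := v) (p 2 * p' 2 / (p' 0 * p 1))).mul ((hX 2).pow d))
    rw [he, he, mul_one, mul_one] at h1
    have h2 : p 0 / p 1 + p' 1 / p' 0 - p 2 * p' 2 / (p' 0 * p 1) =
        -(1 + p 0 * p' 1 / (p' 0 * p 1)) := by
      have q1 := hp 1
      have q0 := hp' 0
      have e1 : p 2 = -p 0 - p 1 := by linear_combination hs
      have e2 : p' 2 = -p' 0 - p' 1 := by linear_combination hs'
      rw [e1, e2]
      field_simp
      ring
    rw [h2] at h1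
    exact h1
  have hBn := hB.neg
  rw [← hσs, neg_neg] at hBn
  rcases swap_root_at v hB hC (hσ true) with h | h
  · refine ⟨id, fun b => rfl, fun b => ?_⟩
    cases b
    · have h3 := hBn.sub h
      simpa using h3
    · simpa using h
  · refine ⟨fun b => !b, fun b => by simp, fun b => ?_⟩
    cases b
    · have h3 := hBn.sub h
      simpa using h3
    · simpa using h

/-- the values of the roots `mu` -/
private lemma swap_at_mu [NeZero d] (v : Place ℂ Om) (p p' : Fin 3 → ℂ) (hp : ∀ s, p s ≠ 0)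
    (hp' : ∀ s, p' s ≠ 0) (hs : p 0 + p 1 + p 2 = 0) (hs' : p' 0 + p' 1 + p' 2 = 0)
    (ρ : Fin 3 → ℂ) (hρ : ∀ s, ρ s ^ d * p s = p' s) (σ : Om) (f : Bool)
    (hσ : v.At σ (if f then 1 else p 0 * p' 1 / (p' 0 * p 1))) (mu : Fin 3 → Om)
    (h0 : mu 0 ^ d = 1) (h1 : mu 1 ^ d = σ)
    (h2 : mu 2 ^ d = -(algebraMap ℂ Om (p 0 / p 2) + algebraMap ℂ Om (p 1 / p 2) * σ)) :
    ∃ r : Fin 3 → ZMod d, ∀ s, v.At (mu s) (psi (r s) * (if f then 1 else ρ s / ρ 0)) := by
  have hd : d ≠ 0 := NeZero.ne d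
  have hρ0 : ∀ s, ρ s ≠ 0 := by
    intro s h
    have := hρ s
    rw [h, zero_pow hd, zero_mul] at this
    exact hp' s this.symm
  have hρd : ∀ s, ρ s ^ d = p' s / p s := fun s => by
    rw [eq_div_iff (hp s)]
    exact hρ s
  have key : ∀ s, v.At (mu s ^ d) ((if f then 1 else ρ s / ρ 0) ^ d) := by
    intro s
    cases f
    · simp only [Bool.false_eq_true, if_false] at hσ ⊢
      rw [div_pow, hρd, hρd]
      have q0 := hp 0
      have q1 := hp 1
      have q2 := hp 2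
      have r0 := hp' 0
      fin_cases s
      · simp only [Fin.zero_eta, Fin.isValue]
        rw [h0]
        have h3 : p' 0 / p 0 / (p' 0 / p 0) = 1 := div_self (div_ne_zero r0 q0)
        rw [h3]
        simpa using Place.at_const (v := v) (1 : ℂ)
      · simp only [Fin.mk_one, Fin.isValue]
        rw [h1]
        have h3 : p' 1 / p 1 / (p' 0 / p 0) = p 0 * p' 1 / (p' 0 * p 1) := by
          field_simp
        rw [h3]
        exact hσ
      · simp only [Fin.reduceFinMk, Fin.isValue]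
        rw [h2]
        have h3 := ((Place.at_const (v := v) (p 0 / p 2)).add
          ((Place.at_const (v := v) (p 1 / p 2)).mul hσ)).neg
        have h4 : -(p 0 / p 2 + p 1 / p 2 * (p 0 * p' 1 / (p' 0 * p 1))) =
            p' 2 / p 2 / (p' 0 / p 0) := by
          have e2 : p' 2 = -p' 0 - p' 1 := by linear_combination hs'
          rw [e2]
          field_simp
          ring
        rw [h4] at h3
        exact h3
    · simp only [if_true] at hσ ⊢
      rw [one_pow]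
      fin_cases s
      · simp only [Fin.zero_eta, Fin.isValue]
        rw [h0]
        simpa using Place.at_const (v := v) (1 : ℂ)
      · simp only [Fin.mk_one, Fin.isValue]
        rw [h1]
        exact hσ
      · simp only [Fin.reduceFinMk, Fin.isValue]
        rw [h2]
        have h3 := ((Place.at_const (v := v) (p 0 / p 2)).add
          ((Place.at_const (v := v) (p 1 / p 2)).mul hσ)).neg
        have h4 : -(p 0 / p 2 + p 1 / p 2 * 1) = 1 := by
          have q2 := hp 2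
          field_simp
          linear_combination -hs
        rw [h4] at h3
        exact h3
  choose r hr using fun s => root_at (key s) rfl
  exact ⟨r, hr⟩

/-- the path: the coordinates of the two factors -/
private def swP (i₁ i₂ : Fin m) (β₁ β₂ : Fin N → Fin 3) [NeZero d] (X : Fin 3 → Om)
    (mu : Bool → Fin 3 → Om) (x : Fin m → Fin N → ℂ) (a : (Fin 3 → ZMod d) × Bool) :
    Fin m → Fin N → Om := fun i j =>
  (if i = i₁ then algebraMap ℂ Om (psi (a.1 (β₁ j))) * mu a.2 (β₁ j) else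
    if i = i₂ then algebraMap ℂ Om (psi (-a.1 (β₂ j))) * (X (β₂ j) / mu a.2 (β₂ j)) else 1) *
    algebraMap ℂ Om (x i j)

private def swU (i₁ i₂ : Fin m) (β₁ β₂ : Fin N → Fin 3) [NeZero d] (ρ : Fin 3 → ℂ)
    (k : Fin 3 → ZMod d) (x : Fin m → Fin N → ℂ) (a : (Fin 3 → ZMod d) × Bool) :
    Fin m → Fin N → ℂ :=
  tw i₁ i₂ β₁ β₂ (fun s => psi (a.1 s) * (if a.2 then 1 else ρ s))
    (fun s => psi (k s - a.1 s) * (if a.2 then 1 else ρ s)⁻¹) x

private lemma swap_perm [NeZero d] (f : Bool → Bool) (hf : ∀ b, f (f b) = b)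
    (R : Bool → Fin 3 → ZMod d) : ∃ r : Equiv.Perm ((Fin 3 → ZMod d) × Bool),
      ∀ a, r a = (a.1 + R a.2, f a.2) := by
  refine ⟨⟨fun a => (a.1 + R a.2, f a.2), fun a => (a.1 - R (f a.2), f a.2), ?_, ?_⟩, fun a => rfl⟩
  · rintro ⟨l, b⟩
    simp [hf]
  · rintro ⟨l, b⟩
    simp [hf]

private lemma swap_end [NeZero d] (v : Place ℂ Om) (x : Fin m → Fin N → ℂ) (i₁ i₂ : Fin m)
    (hi : i₁ ≠ i₂) (β₁ β₂ : Fin N → Fin 3) (p p' : Fin 3 → ℂ) (hp : ∀ s, p s ≠ 0)
    (hp' : ∀ s, p' s ≠ 0) (hs : p 0 + p 1 + p 2 = 0) (hs' : p' 0 + p' 1 + p' 2 = 0)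
    (ρ : Fin 3 → ℂ) (hρ : ∀ s, ρ s ^ d * p s = p' s)
    (X : Fin 3 → Om) (e : Fin 3 → ℂ) (hX : ∀ s, v.At (X s) (e s)) (he : ∀ s, e s ^ d = 1)
    (c : ℂ) (k : Fin 3 → ZMod d) (hk : ∀ s, c * e s = psi (k s))
    (σ : Bool → Om) (hσ : ∀ b, σ b ^ 2 + swB d p p' X * σ b + swC d p p' X = 0)
    (hσs : σ true + σ false = -swB d p p' X) (mu : Bool → Fin 3 → Om)
    (h0 : ∀ b, mu b 0 ^ d = 1) (h1 : ∀ b, mu b 1 ^ d = σ b)
    (h2 : ∀ b, mu b 2 ^ d =
      -(algebraMap ℂ Om (p 0 / p 2) + algebraMap ℂ Om (p 1 / p 2) * σ b)) :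
    ∃ r : Equiv.Perm ((Fin 3 → ZMod d) × Bool), ∀ a i,
      RedV v (swP i₁ i₂ β₁ β₂ X mu x a i) (swU i₁ i₂ β₁ β₂ ρ k x (r a) i) := by
  have hd : d ≠ 0 := NeZero.ne d
  have hρ0 : ∀ s, ρ s ≠ 0 := by
    intro s h
    have := hρ s
    rw [h, zero_pow hd, zero_mul] at this
    exact hp' s this.symm
  obtain ⟨f, hf, hf'⟩ := swap_at_sigma v p p' hp hp' hs hs' X e hX he σ hσ hσs
  choose R hR using fun b => swap_at_mu v p p' hp hp' hs hs' ρ hρ (σ b) (f b) (hf' b) (mu b)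
    (h0 b) (h1 b) (h2 b)
  obtain ⟨r, hr⟩ := swap_perm f hf R
  refine ⟨r, fun a i => ?_⟩
  obtain ⟨l, b⟩ := a
  have hg : (if f b then (1 : ℂ) else ρ 0) ≠ 0 := by
    split_ifs
    · exact one_ne_zero
    · exact hρ0 0
  have hg' : ∀ s, (if f b then (1 : ℂ) else ρ s) ≠ 0 := by
    intro s
    split_ifs
    · exact one_ne_zero
    · exact hρ0 s
  have hgd : ∀ s, (if f b then (1 : ℂ) else ρ s / ρ 0) =
      (if f b then (1 : ℂ) else ρ s) / (if f b then (1 : ℂ) else ρ 0) := by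
    intro s
    split_ifs
    · simp
    · rfl
  have hmu : ∀ s, v.At (mu b s) (psi (R b s) *
      ((if f b then (1 : ℂ) else ρ s) / (if f b then (1 : ℂ) else ρ 0))) := fun s => by
    rw [← hgd]
    exact hR b s
  by_cases hi1 : i = i₁
  · refine ⟨algebraMap ℂ Om (if f b then 1 else ρ 0), fun j => ?_⟩
    subst hi1
    have h3 := (Place.at_const (v := v) (if f b then (1 : ℂ) else ρ 0)).mul
      (((Place.at_const (v := v) (psi (l (β₁ j)))).mul (hmu (β₁ j))).mul
        (Place.at_const (v := v) (x i j)))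
    unfold swP swU tw
    rw [hr]
    simp only [if_true, Pi.add_apply, psi_add]
    convert h3 using 1
    field_simp
  · by_cases hi2 : i = i₂
    · refine ⟨algebraMap ℂ Om (c * (if f b then 1 else ρ 0)⁻¹), fun j => ?_⟩
      subst hi2
      have h4 : psi (R b (β₂ j)) * ((if f b then (1 : ℂ) else ρ (β₂ j)) /
          (if f b then (1 : ℂ) else ρ 0)) ≠ 0 :=
        mul_ne_zero (psi_ne _) (div_ne_zero (hg' _) hg)
      have h3 := (Place.at_const (v := v) (c * (if f b then (1 : ℂ) else ρ 0)⁻¹)).mul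
        (((Place.at_const (v := v) (psi (-l (β₂ j)))).mul
          ((hX (β₂ j)).div (hmu (β₂ j)) h4)).mul (Place.at_const (v := v) (x i j)))
      unfold swP swU tw
      rw [hr]
      simp only [hi1, if_false, if_true, Pi.add_apply]
      convert h3 using 1
      have h5 : psi (k (β₂ j) - (l (β₂ j) + R b (β₂ j))) =
          psi (k (β₂ j)) * psi (-l (β₂ j)) * (psi (R b (β₂ j)))⁻¹ := by
        rw [eq_mul_inv_iff_mul_eq₀ (psi_ne _), ← psi_add, ← psi_add]
        congr 1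
        ring
      rw [h5, ← hk]
      have h6 := psi_ne (R b (β₂ j))
      have h7 := hg' (β₂ j)
      field_simp
    · refine ⟨1, fun j => ?_⟩
      unfold swP swU tw
      simp only [hi1, hi2, if_false, one_mul]
      exact Place.at_const _

private lemma swap_sum (β : Fin N → Fin 3) (u : Fin N → ℂ) (ν : Fin 3 → Om) :
    ∑ j, ν (β j) * algebraMap ℂ Om (u j) ^ d = ∑ s, algebraMap ℂ Om (bs d β u s) * ν s := by
  rw [← Finset.sum_fiberwise Finset.univ β]
  apply Finset.sum_congr rfl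
  intro s _
  unfold bs
  rw [map_sum, Finset.sum_mul]
  apply Finset.sum_congr rfl
  intro j hj
  rw [(Finset.mem_filter.1 hj).2, map_pow, mul_comm]

private lemma swap_good [NeZero d] (x : Fin m → Fin N → ℂ) (hx : Good d x) (i₁ i₂ : Fin m)
    (β₁ β₂ : Fin N → Fin 3) (X : Fin 3 → Om) (hX : ∀ s, X s ≠ 0) (mu : Bool → Fin 3 → Om)
    (hmu : ∀ b s, mu b s ≠ 0)
    (h₁ : ∀ b, ∑ s, algebraMap ℂ Om (bs d β₁ (x i₁) s) * mu b s ^ d = 0)
    (h₂ : ∀ b, ∑ s, algebraMap ℂ Om (bs d β₂ (x i₂) s) * (X s / mu b s) ^ d = 0)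
    (a : (Fin 3 → ZMod d) × Bool) (i : Fin m) :
    swP i₁ i₂ β₁ β₂ X mu x a i ≠ 0 ∧ ∑ j, swP i₁ i₂ β₁ β₂ X mu x a i j ^ d = 0 := by
  have hpsi : ∀ z : ZMod d, algebraMap ℂ Om (psi z) ≠ 0 := fun z => by simpa using psi_ne z
  have hpsid : ∀ z : ZMod d, algebraMap ℂ Om (psi z) ^ d = 1 := fun z => by
    rw [← map_pow, psi_pow, map_one]
  constructor
  · intro h
    apply (hx i).1
    funext j
    have h3 := congrFun h j
    unfold swP at h3
    rw [Pi.zero_apply, mul_eq_zero] at h3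
    rcases h3 with h3 | h3
    · exfalso
      split_ifs at h3
      · exact mul_ne_zero (hpsi _) (hmu _ _) h3
      · exact mul_ne_zero (hpsi _) (div_ne_zero (hX _) (hmu _ _)) h3
      · exact one_ne_zero h3
    · simpa using h3
  · unfold swP
    by_cases hi1 : i = i₁
    · subst hi1
      simp only [if_true, mul_pow, hpsid, one_mul]
      rw [swap_sum (d := d) β₁ (x i) (fun s => mu a.2 s ^ d)]
      exact h₁ a.2
    · by_cases hi2 : i = i₂
      · subst hi2
        simp only [hi1, if_false, if_true, mul_pow, hpsid, one_mul]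
        rw [swap_sum (d := d) β₂ (x i) (fun s => (X s / mu a.2 s) ^ d)]
        exact h₂ a.2
      · simp only [hi1, hi2, if_false, one_mul]
        have h3 := congrArg (algebraMap ℂ Om) (hx i).2
        rw [map_sum, map_zero] at h3
        simpa using h3

private lemma swap_bs_sum (β : Fin N → Fin 3) (u : Fin N → ℂ) (hu : ∑ j, u j ^ d = 0) :
    bs d β u 0 + bs d β u 1 + bs d β u 2 = 0 := by
  rw [← hu, ← Finset.sum_fiberwise Finset.univ β, Fin.sum_univ_three]
  rfl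

private lemma swU_ne [NeZero d] (x : Fin m → Fin N → ℂ) (hx : Good d x) (i₁ i₂ : Fin m)
    (β₁ β₂ : Fin N → Fin 3) (ρ : Fin 3 → ℂ) (hρ : ∀ s, ρ s ≠ 0) (k : Fin 3 → ZMod d)
    (a : (Fin 3 → ZMod d) × Bool) (i : Fin m) : swU i₁ i₂ β₁ β₂ ρ k x a i ≠ 0 := by
  intro h
  apply (hx i).1
  funext j
  have h3 := congrFun h j
  have hg : ∀ s, (if a.2 then (1 : ℂ) else ρ s) ≠ 0 := by
    intro s
    split_ifs
    · exact one_ne_zero
    · exact hρ s
  unfold swU tw at h3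
  rw [Pi.zero_apply, mul_eq_zero] at h3
  rcases h3 with h3 | h3
  · exfalso
    by_cases hi1 : i = i₁
    · rw [if_pos hi1] at h3
      exact mul_ne_zero (psi_ne _) (hg _) h3
    · rw [if_neg hi1] at h3
      by_cases hi2 : i = i₂
      · rw [if_pos hi2] at h3
        exact mul_ne_zero (psi_ne _) (inv_ne_zero (hg _)) h3
      · rw [if_neg hi2] at h3
        exact one_ne_zero h3
  · exact h3

theorem fam_swap [NeZero d] (x : Fin m → Fin N → ℂ) (hx : Good d x) (i₁ i₂ : Fin m)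
    (hi : i₁ ≠ i₂) (β₁ β₂ : Fin N → Fin 3) (h₁ : ∀ s, bs d β₁ (x i₁) s ≠ 0)
    (h₂ : ∀ s, bs d β₂ (x i₂) s ≠ 0) (ρ : Fin 3 → ℂ)
    (hρ : ∀ s, ρ s ^ d * bs d β₁ (x i₁) s = bs d β₂ (x i₂) s) (k : Fin 3 → ZMod d) :
    ∑ l : Fin 3 → ZMod d,
        (cl d (tw i₁ i₂ β₁ β₂ (fun s => psi (l s)) (fun s => psi (k s - l s)) x) +
          cl d (tw i₁ i₂ β₁ β₂ (fun s => psi (l s) * ρ s) (fun s => psi (k s - l s) * (ρ s)⁻¹) x)) =
      ∑ l : Fin 3 → ZMod d,
        (cl d (tw i₁ i₂ β₁ β₂ (fun s => psi (l s)) (fun s => psi (-l s)) x) +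
          cl d (tw i₁ i₂ β₁ β₂ (fun s => psi (l s) * ρ s) (fun s => psi (-l s) * (ρ s)⁻¹) x)) := by
  have hd : d ≠ 0 := NeZero.ne d
  have hρ0 : ∀ s, ρ s ≠ 0 := by
    intro s h
    have := hρ s
    rw [h, zero_pow hd, zero_mul] at this
    exact h₂ s this.symm
  have hs := swap_bs_sum β₁ (x i₁) (hx i₁).2
  have hs' := swap_bs_sum β₂ (x i₂) (hx i₂).2
  set X : Fin 3 → Om := fun s => 1 + tt * algebraMap ℂ Om (psi (k s - k 0) - 1) with hXdef
  have hX : ∀ s, X s ≠ 0 := fun s => swap_xi_ne _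
  have hX0 : X 0 = 1 := by
    simp only [hXdef]
    rw [sub_self, psi_zero, sub_self, map_zero, mul_zero, add_zero]
  obtain ⟨σ, hσ, hσs⟩ := swap_exists_sigma (swB d (bs d β₁ (x i₁)) (bs d β₂ (x i₂)) X)
    (swC d (bs d β₁ (x i₁)) (bs d β₂ (x i₂)) X)
  choose mu hmu m0 m1 m2 m3 m4 using fun b =>
    swap_exists_mu hd (bs d β₁ (x i₁)) (bs d β₂ (x i₂)) h₁ h₂ X hX0 hX (σ b) (hσ b)
  have hXat : ∀ (v : Place ℂ Om) (t : ℂ), v.At tt t → ∀ s,
      v.At (X s) (1 + t * (psi (k s - k 0) - 1)) := by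
    intro v t ht s
    have h3 := (Place.at_const (v := v) (1 : ℂ)).add
      (ht.mul (Place.at_const (v := v) (psi (k s - k 0) - 1)))
    rw [map_one] at h3
    exact h3
  have key := bridge (d := d) (swP i₁ i₂ β₁ β₂ X mu x)
    (swap_good x hx i₁ i₂ β₁ β₂ X hX mu hmu m3 m4) 1 0
    (swU i₁ i₂ β₁ β₂ ρ k x) (swU i₁ i₂ β₁ β₂ ρ 0 x)
    (swU_ne x hx i₁ i₂ β₁ β₂ ρ hρ0 k) (swU_ne x hx i₁ i₂ β₁ β₂ ρ hρ0 0)
    (fun v hv => swap_end v x i₁ i₂ hi β₁ β₂ _ _ h₁ h₂ hs hs' ρ hρ X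
      (fun s => 1 + 1 * (psi (k s - k 0) - 1)) (hXat v 1 hv)
      (fun s => by
        have h3 : (1 : ℂ) + 1 * (psi (k s - k 0) - 1) = psi (k s - k 0) := by ring
        simp only [h3]
        exact psi_pow _) (psi (k 0)) k
      (fun s => by
        have h3 : (1 : ℂ) + 1 * (psi (k s - k 0) - 1) = psi (k s - k 0) := by ring
        simp only [h3]
        rw [← psi_add]
        congr 1
        ring) σ hσ hσs mu m0 m1 m2)
    (fun v hv => swap_end v x i₁ i₂ hi β₁ β₂ _ _ h₁ h₂ hs hs' ρ hρ X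
      (fun s => 1 + 0 * (psi (k s - k 0) - 1)) (hXat v 0 hv)
      (fun s => by simp) 1 0
      (fun s => by simp [psi_zero]) σ hσ hσs mu m0 m1 m2)
  rw [Fintype.sum_prod_type, Fintype.sum_prod_type] at key
  simp only [Fintype.sum_bool] at key
  unfold swU at key
  simpa using key

end Pool.Agent.FBB
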