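import Pool.Agent.FBB.Pt
import Pool.Agent.FBB.Fourier
import Pool.Agent.FBB.Block
import Pool.Agent.FBB.Dual
import Pool.Agent.FBB.Swap
import Pool.Agent.FBB.Dihed

/-!
# Operations on the isotypic parts
-/

set_option autoImplicit false

noncomputable section

namespace Pool.Agent.FBB

open scoped LinearAlgebra.Projectivization
open Pool.Agent.ZCyc

variable {d m N : ℕ}

private theorem psi_ne_one [NeZero d] {a : ZMod d} (ha : a ≠ 0) : psi a ≠ 1 := by
  intro h
  apply ha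
  apply ZMod.injective_stdAddChar
  rw [AddChar.map_zero_eq_one]
  exact h

private theorem rot_comm [NeZero d] (K L : Fin m → Fin N → ZMod d) (x : Fin m → Fin N → ℂ) :
    rot K (rot L x) = rot L (rot K x) := by
  funext i j
  simp only [rot]
  ring

private def tk [NeZero d] (i₁ i₂ : Fin m) (β₁ β₂ : Fin N → Fin 3) (g h : Fin 3 → ZMod d) :
    Fin m → Fin N → ZMod d :=
  fun i j => if i = i₁ then g (β₁ j) else if i = i₂ then h (β₂ j) else 0

private theorem tw_rot [NeZero d] (i₁ i₂ : Fin m) (β₁ β₂ : Fin N → Fin 3) (g h : Fin 3 → ZMod d)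
    (ρ ρ' : Fin 3 → ℂ) (K : Fin m → Fin N → ZMod d) (x : Fin m → Fin N → ℂ) :
    tw i₁ i₂ β₁ β₂ (fun s => psi (g s) * ρ s) (fun s => psi (h s) * ρ' s) (rot K x) =
      rot K (rot (tk i₁ i₂ β₁ β₂ g h) (tw i₁ i₂ β₁ β₂ ρ ρ' x)) := by
  funext i j
  simp only [tw, rot, tk]
  split_ifs with h1 h2
  · ring
  · ring
  · rw [psi_zero]
    ring

private theorem tw_rot_one [NeZero d] (i₁ i₂ : Fin m) (β₁ β₂ : Fin N → Fin 3)
    (g h : Fin 3 → ZMod d) (K : Fin m → Fin N → ZMod d) (x : Fin m → Fin N → ℂ) :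
    tw i₁ i₂ β₁ β₂ (fun s => psi (g s)) (fun s => psi (h s)) (rot K x) =
      rot K (rot (tk i₁ i₂ β₁ β₂ g h) x) := by
  funext i j
  simp only [tw, rot, tk]
  split_ifs with h1 h2
  · ring
  · ring
  · rw [psi_zero]
    ring

private theorem sum_tk [NeZero d] (a : Fin m → Fin N → ZMod d) {i₁ i₂ : Fin m} (hi : i₁ ≠ i₂)
    (β₁ β₂ : Fin N → Fin 3) (g h : Fin 3 → ZMod d) :
    ∑ i, ∑ j, a i j * tk i₁ i₂ β₁ β₂ g h i j =
      ∑ s, (∑ j with β₁ j = s, a i₁ j) * g s + ∑ s, (∑ j with β₂ j = s, a i₂ j) * h s := by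
  rw [Fintype.sum_eq_add i₁ i₂ hi]
  · congr 1
    · rw [← Finset.sum_fiberwise Finset.univ β₁]
      refine Finset.sum_congr rfl fun s _ => ?_
      rw [Finset.sum_mul]
      refine Finset.sum_congr rfl fun j hj => ?_
      have hj' : β₁ j = s := by simpa using hj
      simp [tk, hj']
    · rw [← Finset.sum_fiberwise Finset.univ β₂]
      refine Finset.sum_congr rfl fun s _ => ?_
      rw [Finset.sum_mul]
      refine Finset.sum_congr rfl fun j hj => ?_
      have hj' : β₂ j = s := by simpa using hj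
      simp [tk, hj', hi.symm]
  · rintro i ⟨h1, h2⟩
    refine Finset.sum_eq_zero fun j _ => ?_
    simp [tk, h1, h2]

private theorem bs_rot [NeZero d] (β : Fin N → Fin 3) (K : Fin m → Fin N → ZMod d)
    (x : Fin m → Fin N → ℂ) (i : Fin m) (s : Fin 3) : bs d β (rot K x i) s = bs d β (x i) s := by
  simp only [bs, rot]
  refine Finset.sum_congr rfl fun j _ => ?_
  rw [mul_pow, psi_pow, one_mul]

private theorem E_fam {L : Type} [Fintype L] [NeZero d] (a : Fin m → Fin N → ZMod d)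
    (y z : L → Fin m → Fin N → ℂ)
    (h : ∀ K : Fin m → Fin N → ZMod d, ∑ l, cl d (rot K (y l)) = ∑ l, cl d (rot K (z l))) :
    ∑ l, E a (y l) = ∑ l, E a (z l) := by
  simp only [E]
  rw [Finset.sum_comm, Finset.sum_comm (s := (Finset.univ : Finset L))]
  refine Finset.sum_congr rfl fun K _ => ?_
  rw [← Finset.smul_sum, ← Finset.smul_sum, h K]

private theorem card_fun [NeZero d] : Fintype.card (Fin 3 → ZMod d) = d ^ 3 := by
  rw [Fintype.card_fun, ZMod.card, Fintype.card_fin]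

private theorem eq_zero_of_smul [NeZero d] {a : ZMod d} (ha : a ≠ 0) (n : ℕ) (hn : n ≠ 0)
    {e : V d m N} (h : n • (psi a • e) = n • e) : e = 0 := by
  have h1 : ((n : ℂ) * (psi a - 1)) • e = 0 := by
    rw [mul_smul, sub_smul, smul_sub, one_smul, Nat.cast_smul_eq_nsmul, Nat.cast_smul_eq_nsmul, h,
      sub_self]
  rcases smul_eq_zero.mp h1 with h2 | h2
  · rcases mul_eq_zero.mp h2 with h3 | h3
    · exact absurd (Nat.cast_eq_zero.mp h3) hn
    · exact absurd (sub_eq_zero.mp h3) (psi_ne_one ha)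
  · exact h2

theorem E_dual [NeZero d] (a : Fin m → Fin N → ZMod d) (x : Fin m → Fin N → ℂ) (hx : Good d x)
    (i₁ i₂ : Fin m) (hi : i₁ ≠ i₂) (ha₁ : ∀ j, a i₁ j ≠ 0) (ha₂ : ∀ j, a i₂ j ≠ 0)
    (β₁ β₂ : Fin N → Fin 3) (hβ₁ : Function.Surjective β₁) (hβ₂ : Function.Surjective β₂)
    (h : ∀ s, ∑ j with β₁ j = s, a i₁ j = -∑ j with β₂ j = s, a i₂ j)
    (s₀ : Fin 3) (hs₀ : ∑ j with β₁ j = s₀, a i₁ j ≠ 0) : E a x = 0 := by
  have hne : ∀ (β : Fin N → Fin 3), Function.Surjective β → ∀ s : Fin 3,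
      (Finset.univ.filter fun j => β j = s).Nonempty ∧
        (Finset.univ.filter fun j => β j = s) ≠ Finset.univ := by
    intro β hβ s
    constructor
    · obtain ⟨j, hj⟩ := hβ s
      exact ⟨j, by simp [hj]⟩
    · intro he
      obtain ⟨j, hj⟩ := hβ (s + 1)
      have hj' : j ∈ (Finset.univ.filter fun j => β j = s) := by rw [he]; exact Finset.mem_univ j
      have hj'' : β j = s := by simpa using hj'
      rw [hj''] at hj
      have h3 : ∀ s : Fin 3, s ≠ s + 1 := by decide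
      exact h3 s hj
  by_cases h₁ : ∀ s, bs d β₁ (x i₁) s ≠ 0
  swap
  · push Not at h₁
    obtain ⟨s, hs⟩ := h₁
    exact E_zero_of_degen a x hx i₁ ha₁ _ (hne β₁ hβ₁ s).1 (hne β₁ hβ₁ s).2 hs
  by_cases h₂ : ∀ s, bs d β₂ (x i₂) s ≠ 0
  swap
  · push Not at h₂
    obtain ⟨s, hs⟩ := h₂
    exact E_zero_of_degen a x hx i₂ ha₂ _ (hne β₂ hβ₂ s).1 (hne β₂ hβ₂ s).2 hs
  obtain ⟨k, hk⟩ : ∃ k : Fin 3 → ZMod d, k = Pi.single s₀ 1 := ⟨_, rfl⟩
  have key := E_fam a
    (fun l : Fin 3 → ZMod d => rot (tk i₁ i₂ β₁ β₂ (k + l) l) x)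
    (fun l : Fin 3 → ZMod d => rot (tk i₁ i₂ β₁ β₂ l l) x) (by
      intro K
      have := fam_dual (rot K x) (good_rot K hx) i₁ i₂ hi β₁ β₂
        (fun s => by rw [bs_rot]; exact h₁ s) (fun s => by rw [bs_rot]; exact h₂ s) k
      have e1 : ∀ l : Fin 3 → ZMod d,
          tw i₁ i₂ β₁ β₂ (fun s => psi (k s + l s)) (fun s => psi (l s)) (rot K x) =
            rot K (rot (tk i₁ i₂ β₁ β₂ (k + l) l) x) := fun l =>
        tw_rot_one i₁ i₂ β₁ β₂ (k + l) l K x
      have e2 : ∀ l : Fin 3 → ZMod d,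
          tw i₁ i₂ β₁ β₂ (fun s => psi (l s)) (fun s => psi (l s)) (rot K x) =
            rot K (rot (tk i₁ i₂ β₁ β₂ l l) x) := fun l =>
        tw_rot_one i₁ i₂ β₁ β₂ l l K x
      simp only [e1, e2] at this
      exact this)
  have c1 : ∀ l : Fin 3 → ZMod d, E a (rot (tk i₁ i₂ β₁ β₂ (k + l) l) x) =
      psi (∑ j with β₁ j = s₀, a i₁ j) • E a x := by
    intro l
    rw [E_rot, sum_tk a hi]
    congr 2
    have e3 : ∀ s, (∑ j with β₂ j = s, a i₂ j) = -(∑ j with β₁ j = s, a i₁ j) := by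
      intro s
      rw [h s, neg_neg]
    simp only [e3]
    rw [← Finset.sum_add_distrib, Finset.sum_eq_single s₀]
    · simp only [Pi.add_apply, hk, Pi.single_eq_same]
      ring
    · intro s _ hs
      simp only [Pi.add_apply, hk, Pi.single_eq_of_ne hs]
      ring
    · intro hh
      exact absurd (Finset.mem_univ _) hh
  have c2 : ∀ l : Fin 3 → ZMod d, E a (rot (tk i₁ i₂ β₁ β₂ l l) x) = E a x := by
    intro l
    rw [E_rot, sum_tk a hi]
    have e3 : ∀ s, (∑ j with β₂ j = s, a i₂ j) = -(∑ j with β₁ j = s, a i₁ j) := by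
      intro s
      rw [h s, neg_neg]
    simp only [e3]
    rw [← Finset.sum_add_distrib, Finset.sum_eq_zero, psi_zero, one_smul]
    intro s _
    ring
  simp only [c1, c2] at key
  rw [Finset.sum_const, Finset.sum_const, Finset.card_univ, card_fun] at key
  exact eq_zero_of_smul hs₀ _ (pow_ne_zero 3 (NeZero.ne d)) key

theorem E_step [NeZero d] (a : Fin m → Fin N → ZMod d) (x : Fin m → Fin N → ℂ) (hx : Good d x)
    (i₁ i₂ : Fin m) (hi : i₁ ≠ i₂) (β₁ β₂ : Fin N → Fin 3) (h₁ : ∀ s, bs d β₁ (x i₁) s ≠ 0)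
    (h₂ : ∀ s, bs d β₂ (x i₂) s ≠ 0)
    (h : ∀ s, ∑ j with β₁ j = s, a i₁ j = ∑ j with β₂ j = s, a i₂ j)
    (s₀ : Fin 3) (hs₀ : ∑ j with β₁ j = s₀, a i₁ j ≠ 0) (ρ : Fin 3 → ℂ)
    (hρ : ∀ s, ρ s ^ d * bs d β₁ (x i₁) s = bs d β₂ (x i₂) s) :
    E a (tw i₁ i₂ β₁ β₂ ρ (fun s => (ρ s)⁻¹) x) = -E a x := by
  obtain ⟨k, hk⟩ : ∃ k : Fin 3 → ZMod d, k = Pi.single s₀ 1 := ⟨_, rfl⟩
  obtain ⟨x', hx'⟩ : ∃ x', x' = tw i₁ i₂ β₁ β₂ ρ (fun s => (ρ s)⁻¹) x := ⟨_, rfl⟩
  have key := E_fam (L := (Fin 3 → ZMod d) × Bool) a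
    (fun l => rot (tk i₁ i₂ β₁ β₂ l.1 (k - l.1)) (if l.2 then x' else x))
    (fun l => rot (tk i₁ i₂ β₁ β₂ l.1 (-l.1)) (if l.2 then x' else x)) (by
      intro K
      have := fam_swap (rot K x) (good_rot K hx) i₁ i₂ hi β₁ β₂
        (fun s => by rw [bs_rot]; exact h₁ s) (fun s => by rw [bs_rot]; exact h₂ s) ρ
        (fun s => by rw [bs_rot, bs_rot]; exact hρ s) k
      have e1 : ∀ l : Fin 3 → ZMod d,
          tw i₁ i₂ β₁ β₂ (fun s => psi (l s)) (fun s => psi (k s - l s)) (rot K x) =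
            rot K (rot (tk i₁ i₂ β₁ β₂ l (k - l)) x) := fun l =>
        tw_rot_one i₁ i₂ β₁ β₂ l (k - l) K x
      have e2 : ∀ l : Fin 3 → ZMod d,
          tw i₁ i₂ β₁ β₂ (fun s => psi (l s) * ρ s) (fun s => psi (k s - l s) * (ρ s)⁻¹)
            (rot K x) = rot K (rot (tk i₁ i₂ β₁ β₂ l (k - l)) x') := fun l => by
        rw [hx']
        exact tw_rot i₁ i₂ β₁ β₂ l (k - l) ρ (fun s => (ρ s)⁻¹) K x
      have e3 : ∀ l : Fin 3 → ZMod d,
          tw i₁ i₂ β₁ β₂ (fun s => psi (l s)) (fun s => psi (-l s)) (rot K x) =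
            rot K (rot (tk i₁ i₂ β₁ β₂ l (-l)) x) := fun l =>
        tw_rot_one i₁ i₂ β₁ β₂ l (-l) K x
      have e4 : ∀ l : Fin 3 → ZMod d,
          tw i₁ i₂ β₁ β₂ (fun s => psi (l s) * ρ s) (fun s => psi (-l s) * (ρ s)⁻¹)
            (rot K x) = rot K (rot (tk i₁ i₂ β₁ β₂ l (-l)) x') := fun l => by
        rw [hx']
        exact tw_rot i₁ i₂ β₁ β₂ l (-l) ρ (fun s => (ρ s)⁻¹) K x
      simp only [e1, e2, e3, e4] at this
      rw [Fintype.sum_prod_type, Fintype.sum_prod_type]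
      simp only [Fintype.sum_bool, if_true, Bool.false_eq_true, if_false]
      simp only [add_comm (cl d (rot K (rot _ x')))]
      exact this)
  have c0 : ∀ (y : Fin m → Fin N → ℂ) (g l : Fin 3 → ZMod d),
      E a (rot (tk i₁ i₂ β₁ β₂ l (g - l)) y) =
        psi (∑ s, (∑ j with β₁ j = s, a i₁ j) * g s) • E a y := by
    intro y g l
    rw [E_rot, sum_tk a hi]
    congr 2
    simp only [← h]
    rw [← Finset.sum_add_distrib]
    refine Finset.sum_congr rfl fun s _ => ?_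
    simp only [Pi.sub_apply]
    ring
  have ck : ∑ s, (∑ j with β₁ j = s, a i₁ j) * k s = ∑ j with β₁ j = s₀, a i₁ j := by
    rw [Finset.sum_eq_single s₀]
    · rw [hk, Pi.single_eq_same, mul_one]
    · intro s _ hs
      rw [hk, Pi.single_eq_of_ne hs, mul_zero]
    · intro hh
      exact absurd (Finset.mem_univ _) hh
  have cz : ∑ s, (∑ j with β₁ j = s, a i₁ j) * (0 : Fin 3 → ZMod d) s = 0 := by
    simp
  have c1 : ∀ (y : Fin m → Fin N → ℂ) (l : Fin 3 → ZMod d),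
      E a (rot (tk i₁ i₂ β₁ β₂ l (k - l)) y) = psi (∑ j with β₁ j = s₀, a i₁ j) • E a y := by
    intro y l
    rw [c0 y k l, ck]
  have c2 : ∀ (y : Fin m → Fin N → ℂ) (l : Fin 3 → ZMod d),
      E a (rot (tk i₁ i₂ β₁ β₂ l (-l)) y) = E a y := by
    intro y l
    have := c0 y 0 l
    rw [cz, psi_zero, one_smul, zero_sub] at this
    exact this
  rw [Fintype.sum_prod_type, Fintype.sum_prod_type] at key
  simp only [Fintype.sum_bool, if_true, Bool.false_eq_true, if_false, c1, c2] at key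
  rw [Finset.sum_const, Finset.sum_const, Finset.card_univ, card_fun, ← smul_add] at key
  have := eq_zero_of_smul hs₀ _ (pow_ne_zero 3 (NeZero.ne d)) key
  rw [← hx']
  exact eq_neg_of_add_eq_zero_left this

private theorem exch_rot [NeZero d] (i₀ : Fin m) (j₁ j₂ : Fin N) (K : Fin m → Fin N → ZMod d)
    (x : Fin m → Fin N → ℂ) : exch i₀ j₁ j₂ (rot K x) =
      rot (fun i j => if i = i₀ then K i (Equiv.swap j₁ j₂ j) else K i j) (exch i₀ j₁ j₂ x) := by
  funext i j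
  simp only [exch, rot]
  split_ifs with h <;> rfl

private def swK (i₀ : Fin m) (j₁ j₂ : Fin N) :
    (Fin m → Fin N → ZMod d) ≃ (Fin m → Fin N → ZMod d) where
  toFun K := fun i j => if i = i₀ then K i (Equiv.swap j₁ j₂ j) else K i j
  invFun K := fun i j => if i = i₀ then K i (Equiv.swap j₁ j₂ j) else K i j
  left_inv K := by
    funext i j
    by_cases h : i = i₀
    · simp [h]
    · simp [h]
  right_inv K := by
    funext i j
    by_cases h : i = i₀
    · simp [h]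
    · simp [h]

private theorem sum_swK [NeZero d] (a : Fin m → Fin N → ZMod d) (i₀ : Fin m) (j₁ j₂ : Fin N)
    (h : a i₀ j₁ = a i₀ j₂) (K : Fin m → Fin N → ZMod d) :
    ∑ i, ∑ j, a i j * swK i₀ j₁ j₂ K i j = ∑ i, ∑ j, a i j * K i j := by
  refine Finset.sum_congr rfl fun i _ => ?_
  by_cases hi : i = i₀
  · subst hi
    have h1 : ∀ j, a i j = a i (Equiv.swap j₁ j₂ j) := by
      intro j
      by_cases e1 : j = j₁
      · subst e1
        rw [Equiv.swap_apply_left]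
        exact h
      by_cases e2 : j = j₂
      · subst e2
        rw [Equiv.swap_apply_right]
        exact h.symm
      rw [Equiv.swap_apply_of_ne_of_ne e1 e2]
    rw [← Equiv.sum_comp (Equiv.swap j₁ j₂) (fun j => a i j * K i j)]
    refine Finset.sum_congr rfl fun j _ => ?_
    rw [← h1 j]
    simp [swK]
  · refine Finset.sum_congr rfl fun j _ => ?_
    simp [swK, hi]

private theorem E_fam_exch {L : Type} [Fintype L] [NeZero d] (a : Fin m → Fin N → ZMod d)
    (i₀ : Fin m) (j₁ j₂ : Fin N) (h : a i₀ j₁ = a i₀ j₂)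
    (y z y' z' : L → Fin m → Fin N → ℂ)
    (hh : ∀ K : Fin m → Fin N → ZMod d, ∑ l, (cl d (rot K (y l)) + cl d (rot (swK i₀ j₁ j₂ K) (y' l))) =
      ∑ l, (cl d (rot K (z l)) + cl d (rot (swK i₀ j₁ j₂ K) (z' l)))) :
    ∑ l, (E a (y l) + E a (y' l)) = ∑ l, (E a (z l) + E a (z' l)) := by
  have h1 : ∀ w : Fin m → Fin N → ℂ, E a w = ∑ K : Fin m → Fin N → ZMod d,
      psi (-∑ i, ∑ j, a i j * K i j) • cl d (rot (swK i₀ j₁ j₂ K) w) := by
    intro w
    rw [E, ← Equiv.sum_comp (swK i₀ j₁ j₂)]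
    refine Finset.sum_congr rfl fun K _ => ?_
    rw [sum_swK a i₀ j₁ j₂ h K]
  have h2 : ∀ w w' : Fin m → Fin N → ℂ, E a w + E a w' = ∑ K : Fin m → Fin N → ZMod d,
      psi (-∑ i, ∑ j, a i j * K i j) •
        (cl d (rot K w) + cl d (rot (swK i₀ j₁ j₂ K) w')) := by
    intro w w'
    rw [h1 w', E, ← Finset.sum_add_distrib]
    refine Finset.sum_congr rfl fun K _ => ?_
    rw [smul_add]
  simp only [h2]
  rw [Finset.sum_comm, Finset.sum_comm (s := (Finset.univ : Finset L))]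
  refine Finset.sum_congr rfl fun K _ => ?_
  rw [← Finset.smul_sum, ← Finset.smul_sum, hh K]

theorem E_exch [NeZero d] (a : Fin m → Fin N → ZMod d) (x : Fin m → Fin N → ℂ) (hx : Good d x)
    (i₀ : Fin m) (j₁ j₂ : Fin N) (hj : j₁ ≠ j₂) (h : a i₀ j₁ = a i₀ j₂) (h0 : a i₀ j₁ ≠ 0) :
    E a (exch i₀ j₁ j₂ x) = -E a x := by
  have h0' : a i₀ j₂ ≠ 0 := by rwa [← h]
  by_cases h₁ : x i₀ j₁ = 0
  · rw [E_zero_of_coord a x i₀ j₁ h0 h₁, neg_zero]
    refine E_zero_of_coord a _ i₀ j₂ h0' ?_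
    simp only [exch, if_true, Equiv.swap_apply_right]
    exact h₁
  by_cases h₂ : x i₀ j₂ = 0
  · rw [E_zero_of_coord a x i₀ j₂ h0' h₂, neg_zero]
    refine E_zero_of_coord a _ i₀ j₁ h0 ?_
    simp only [exch, if_true, Equiv.swap_apply_left]
    exact h₂
  obtain ⟨r, hr⟩ : ∃ r : ZMod d → ZMod d → Fin m → Fin N → ZMod d, r = fun k l i j =>
    if i = i₀ then (if j = j₁ then l else if j = j₂ then k - l else 0) else 0 := ⟨_, rfl⟩
  have key := E_fam_exch (L := ZMod d) a i₀ j₁ j₂ h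
    (fun l => rot (r 1 l) x) (fun l => rot (r 0 l) x)
    (fun l => rot (r 1 l) (exch i₀ j₁ j₂ x)) (fun l => rot (r 0 l) (exch i₀ j₁ j₂ x)) (by
      intro K
      have := fam_dihed (rot K x) (good_rot K hx) i₀ j₁ j₂ hj
        (mul_ne_zero (psi_ne _) h₁) (mul_ne_zero (psi_ne _) h₂) 1
      have e1 : ∀ l : ZMod d, (fun i j => if i = i₀ then
          (if j = j₁ then l else if j = j₂ then 1 - l else 0) else 0) = r 1 l := fun l => by
        rw [hr]
      have e2 : ∀ l : ZMod d, (fun i j => if i = i₀ then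
          (if j = j₁ then l else if j = j₂ then -l else 0) else 0) = r 0 l := fun l => by
        rw [hr]
        simp only [zero_sub]
      have e3 : exch i₀ j₁ j₂ (rot K x) = rot (swK i₀ j₁ j₂ K) (exch i₀ j₁ j₂ x) :=
        exch_rot i₀ j₁ j₂ K x
      simp only [e1, e2, e3] at this
      simp only [rot_comm K, rot_comm (swK i₀ j₁ j₂ K)]
      exact this)
  have c0 : ∀ (k l : ZMod d), ∑ i, ∑ j, a i j * r k l i j = a i₀ j₁ * k := by
    intro k l
    rw [Finset.sum_eq_single i₀]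
    · rw [Fintype.sum_eq_add j₁ j₂ hj]
      · simp only [hr, if_true, hj.symm, if_false]
        rw [← h]
        ring
      · rintro j ⟨e1, e2⟩
        simp [hr, e1, e2]
    · intro i _ hi
      refine Finset.sum_eq_zero fun j _ => ?_
      simp [hr, hi]
    · intro hh
      exact absurd (Finset.mem_univ _) hh
  simp only [E_rot, c0, mul_one, mul_zero, psi_zero, one_smul] at key
  rw [Finset.sum_const, Finset.sum_const, Finset.card_univ, ZMod.card, ← smul_add] at key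
  have := eq_zero_of_smul h0 _ (NeZero.ne d) key
  exact eq_neg_of_add_eq_zero_right this

end Pool.Agent.FBB
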