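import Pool.Agent.FBB.Pt
import Pool.Agent.FBB.Fourier
import Pool.Agent.FBB.Block
import Pool.Agent.FBB.Ops

/-!
# Exchange of two factors
-/

set_option autoImplicit false

noncomputable section

namespace Pool.Agent.FBB

open scoped LinearAlgebra.Projectivization
open Pool.Agent.ZCyc

variable {d m N : ℕ}

/-- the intermediate points -/
private def chX (i₁ i₂ : Fin m) (e : Equiv.Perm (Fin N)) (x : Fin m → Fin N → ℂ) (k : ℕ) (ω : ℂ) :
    Fin m → Fin N → ℂ := fun i j =>
  if i = i₁ then (if (j : ℕ) ≤ k then ω * x i₂ (e j) else x i₁ j)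
  else if i = i₂ then (if ((e.symm j : Fin N) : ℕ) ≤ k then ω⁻¹ * x i₁ (e.symm j) else x i₂ j)
  else x i j

/-- the partial sums -/
private def chS (d : ℕ) (u : Fin N → ℂ) (k : ℕ) : ℂ :=
  ∑ j ∈ Finset.univ.filter (fun j : Fin N => (j : ℕ) ≤ k), u j ^ d

private theorem ch_sum_gt (u : Fin N → ℂ) (h : ∑ j, u j ^ d = 0) (k : ℕ) :
    ∑ j ∈ Finset.univ.filter (fun j : Fin N => k < (j : ℕ)), u j ^ d = -chS d u k := by
  have h1 := Finset.sum_filter_add_sum_filter_not Finset.univ (fun j : Fin N => (j : ℕ) ≤ k)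
    (fun j => u j ^ d)
  have h2 : (Finset.univ.filter fun j : Fin N => ¬ (j : ℕ) ≤ k) =
      Finset.univ.filter fun j : Fin N => k < (j : ℕ) := by
    ext j
    simp
  rw [h2, h] at h1
  unfold chS
  linear_combination h1

private theorem ch_sum_le (u v : Fin N → ℂ) (k : ℕ) (c : ℂ) :
    ∑ j : Fin N, (if (j : ℕ) ≤ k then c * u j else v j) ^ d =
      c ^ d * chS d u k + ∑ j ∈ Finset.univ.filter (fun j : Fin N => k < (j : ℕ)), v j ^ d := by
  rw [← Finset.sum_filter_add_sum_filter_not Finset.univ (fun j : Fin N => (j : ℕ) ≤ k)]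
  congr 1
  · unfold chS
    rw [Finset.mul_sum]
    refine Finset.sum_congr rfl fun j hj => ?_
    rw [if_pos (Finset.mem_filter.1 hj).2, mul_pow]
  · refine Finset.sum_congr (by ext j; simp) fun j hj => ?_
    rw [if_neg (by simpa using (Finset.mem_filter.1 hj).2)]

variable {i₁ i₂ : Fin m} {e : Equiv.Perm (Fin N)} {x : Fin m → Fin N → ℂ}

private theorem ch_good (hx : Good d x) (hi : i₁ ≠ i₂) (hx₁ : ∀ j, x i₁ j ≠ 0)
    (hx₂ : ∀ j, x i₂ j ≠ 0) {k : ℕ} (hk : k + 1 < N) {ω : ℂ}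
    (hω0 : ω ≠ 0) (hω : ω ^ d * chS d (fun j => x i₂ (e j)) k = chS d (x i₁) k) :
    Good d (chX i₁ i₂ e x k ω) := by
  intro i
  have hsy : ∑ j, x i₂ (e j) ^ d = 0 := by
    rw [Equiv.sum_comp e (fun j => x i₂ j ^ d)]
    exact (hx i₂).2
  by_cases h1 : i = i₁
  · subst h1
    refine ⟨fun h => ?_, ?_⟩
    · have := congrFun h ⟨k + 1, hk⟩
      simp only [chX, if_true] at this
      rw [if_neg (by simp)] at this
      exact hx₁ _ this
    · simp only [chX, if_true]
      rw [ch_sum_le, hω, ch_sum_gt _ (hx i).2]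
      ring
  · by_cases h2 : i = i₂
    · subst h2
      refine ⟨fun h => ?_, ?_⟩
      · have := congrFun h (e ⟨k + 1, hk⟩)
        simp only [chX, if_neg h1, if_true] at this
        rw [if_neg (by simp)] at this
        exact hx₂ _ this
      · simp only [chX, if_neg h1, if_true]
        rw [← Equiv.sum_comp e]
        simp only [Equiv.symm_apply_apply]
        rw [ch_sum_le, ch_sum_gt _ hsy, ← hω, ← mul_assoc, ← mul_pow, inv_mul_cancel₀ hω0,
          one_pow]
        ring
    · refine ⟨fun h => ?_, ?_⟩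
      · apply (hx i).1
        funext j
        have := congrFun h j
        simpa only [chX, if_neg h1, if_neg h2] using this
      · simp only [chX, if_neg h1, if_neg h2]
        exact (hx i).2

/-- The first point of the chain. -/
private theorem ch_zero [NeZero d] (hN : 0 < N) (a : Fin m → Fin N → ZMod d)
    (hi : i₁ ≠ i₂) (h : ∀ j, a i₂ (e j) = a i₁ j) (hx₁ : ∀ j, x i₁ j ≠ 0)
    (hx₂ : ∀ j, x i₂ j ≠ 0) {ω : ℂ}
    (hω : ω ^ d * chS d (fun j => x i₂ (e j)) 0 = chS d (x i₁) 0) :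
    E a (chX i₁ i₂ e x 0 ω) = E a x := by
  set j0 : Fin N := ⟨0, hN⟩ with hj0
  have hle : ∀ j : Fin N, (j : ℕ) ≤ 0 ↔ j = j0 := by
    intro j
    rw [hj0, Fin.ext_iff]
    simp
  have hS : ∀ u : Fin N → ℂ, chS d u 0 = u j0 ^ d := by
    intro u
    unfold chS
    simp only [hle]
    rw [Finset.filter_eq' , if_pos (Finset.mem_univ _), Finset.sum_singleton]
  rw [hS, hS] at hω
  have hy0 : x i₂ (e j0) ≠ 0 := hx₂ _
  have h1 : (ω * (x i₂ (e j0) / x i₁ j0)) ^ d = 1 := by
    rw [mul_pow, div_pow, ← mul_div_assoc, hω, div_self (pow_ne_zero _ (hx₁ _))]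
  obtain ⟨r, hr⟩ := exists_psi h1
  have hωr : ω * x i₂ (e j0) = psi r * x i₁ j0 := by
    rw [← hr]
    field_simp [hx₁ j0]
  have hω0 : ω ≠ 0 := by
    rintro rfl
    rw [zero_mul] at hωr
    exact mul_ne_zero (psi_ne r) (hx₁ j0) hωr.symm
  have hωr' : ω⁻¹ * x i₁ j0 = psi (-r) * x i₂ (e j0) := by
    have h2 : psi (-r) * psi r = 1 := by rw [← psi_add, neg_add_cancel, psi_zero]
    have h3 : ω * (psi (-r) * x i₂ (e j0)) = x i₁ j0 := by
      calc ω * (psi (-r) * x i₂ (e j0)) = psi (-r) * (ω * x i₂ (e j0)) := by ring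
        _ = (psi (-r) * psi r) * x i₁ j0 := by rw [hωr]; ring
        _ = x i₁ j0 := by rw [h2, one_mul]
    rw [← h3]
    field_simp
  set K : Fin m → Fin N → ZMod d := fun i j =>
    if i = i₁ then (if j = j0 then r else 0) else if i = i₂ then (if j = e j0 then -r else 0)
      else 0 with hK
  have h2 : chX i₁ i₂ e x 0 ω = rot K x := by
    funext i j
    unfold chX rot
    simp only [hK, hle]
    by_cases h3 : i = i₁
    · subst h3
      rw [if_pos rfl, if_pos rfl]
      split_ifs with h4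
      · rw [h4, hωr]
      · rw [psi_zero, one_mul]
    · rw [if_neg h3, if_neg h3]
      by_cases h4 : i = i₂
      · subst h4
        rw [if_pos rfl, if_pos rfl]
        by_cases h5 : j = e j0
        · have h6 : e.symm j = j0 := by rw [h5, Equiv.symm_apply_apply]
          rw [if_pos h6, if_pos h5, h6, hωr', h5]
        · have h6 : ¬ e.symm j = j0 := fun h7 => h5 (by rw [← h7, Equiv.apply_symm_apply])
          rw [if_neg h6, if_neg h5, psi_zero, one_mul]
      · rw [if_neg h4, if_neg h4, psi_zero, one_mul]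
  have h3 : ∑ i, ∑ j, a i j * K i j = 0 := by
    have h4 : ∀ i, ∑ j, a i j * K i j =
        (if i = i₁ then a i₁ j0 * r else 0) + (if i = i₂ then -(a i₁ j0 * r) else 0) := by
      intro i
      simp only [hK]
      by_cases h5 : i = i₁
      · subst h5
        simp [hi]
      · by_cases h6 : i = i₂
        · subst h6
          simp [h5, h]
        · simp [h5, h6]
    simp only [h4]
    rw [Finset.sum_add_distrib]
    simp
  rw [h2, E_rot, h3, psi_zero, one_smul]

private theorem ch_bs_filter (β : Fin N → Fin 3) (v : Fin N → ℂ) (s : Fin 3)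
    (e : Equiv.Perm (Fin N)) :
    bs d (fun j => β (e.symm j)) v s = bs d β (fun j => v (e j)) s := by
  unfold bs
  rw [Finset.sum_filter, Finset.sum_filter, ← Equiv.sum_comp e]
  simp

/-- The blocks. -/
private def chB (k : ℕ) (j : Fin N) : Fin 3 :=
  if (j : ℕ) ≤ k then 0 else if (j : ℕ) = k + 1 then 1 else 2

private theorem chB_zero {k : ℕ} {j : Fin N} : chB k j = 0 ↔ (j : ℕ) ≤ k := by
  unfold chB
  split_ifs with h1 h2
  · simp [h1]
  · simp [h1]
  · simp [h1]

private theorem chB_one {k : ℕ} {j : Fin N} : chB k j = 1 ↔ (j : ℕ) = k + 1 := by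
  unfold chB
  split_ifs <;> simp_all <;> omega

private theorem chB_two {k : ℕ} {j : Fin N} : chB k j = 2 ↔ k + 1 < (j : ℕ) := by
  unfold chB
  split_ifs <;> simp_all <;> omega

private theorem ch_bs (u v : Fin N → ℂ) (k : ℕ) (hk : k + 1 < N) (c : ℂ) (s : Fin 3) :
    bs d (chB k) (fun j : Fin N => if (j : ℕ) ≤ k then c * u j else v j) s =
      if s = 0 then c ^ d * chS d u k else if s = 1 then v ⟨k + 1, hk⟩ ^ d else
        ∑ j ∈ Finset.univ.filter (fun j : Fin N => k + 1 < (j : ℕ)), v j ^ d := by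
  unfold bs
  fin_cases s
  · simp only [Fin.zero_eta, Fin.isValue, if_true, chB_zero]
    unfold chS
    rw [Finset.mul_sum]
    refine Finset.sum_congr rfl fun j hj => ?_
    rw [if_pos (Finset.mem_filter.1 hj).2, mul_pow]
  · simp only [Fin.mk_one, Fin.isValue, one_ne_zero, if_false, if_true, chB_one]
    have h1 : (Finset.univ.filter fun j : Fin N => (j : ℕ) = k + 1) = {⟨k + 1, hk⟩} := by
      ext j
      simp [Fin.ext_iff]
    rw [h1, Finset.sum_singleton, if_neg (by simp)]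
  · simp only [Fin.reduceFinMk, Fin.isValue, Fin.reduceEq, if_false, chB_two]
    refine Finset.sum_congr rfl fun j hj => ?_
    rw [if_neg]
    have := (Finset.mem_filter.1 hj).2
    omega

/-- One step of the chain. -/
private theorem ch_step [NeZero d] (a : Fin m → Fin N → ZMod d) (hx : Good d x)
    (hi : i₁ ≠ i₂) (h : ∀ j, a i₂ (e j) = a i₁ j) (ha : ∀ j, a i₁ j ≠ 0)
    (hx₁ : ∀ j, x i₁ j ≠ 0) (hx₂ : ∀ j, x i₂ j ≠ 0)
    (hS₁ : ∀ k, k + 1 < N → chS d (x i₁) k ≠ 0)
    (hS₂ : ∀ k, k + 1 < N → chS d (fun j => x i₂ (e j)) k ≠ 0) {k : ℕ} (hk : k + 2 < N)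
    {ω ω' : ℂ} (hω : ω ^ d * chS d (fun j => x i₂ (e j)) k = chS d (x i₁) k)
    (hω' : ω' ^ d * chS d (fun j => x i₂ (e j)) (k + 1) = chS d (x i₁) (k + 1)) :
    E a (chX i₁ i₂ e x (k + 1) ω') = -E a (chX i₁ i₂ e x k ω) := by
  have hd : d ≠ 0 := NeZero.ne d
  have hk1 : k + 1 < N := by omega
  set j1 : Fin N := ⟨k + 1, hk1⟩ with hj1
  have hω0 : ω ≠ 0 := by
    rintro rfl
    rw [zero_pow hd, zero_mul] at hω
    exact hS₁ k hk1 hω.symm
  have hω0' : ω' ≠ 0 := by
    rintro rfl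
    rw [zero_pow hd, zero_mul] at hω'
    exact hS₁ (k + 1) (by omega) hω'.symm
  have hsy : ∑ j, x i₂ (e j) ^ d = 0 := by
    rw [Equiv.sum_comp e (fun j => x i₂ j ^ d)]
    exact (hx i₂).2
  have hX₁ : chX i₁ i₂ e x k ω i₁ =
      fun j : Fin N => if (j : ℕ) ≤ k then ω * x i₂ (e j) else x i₁ j := by
    funext j
    simp only [chX, if_true]
  have hX₂ : (fun j => chX i₁ i₂ e x k ω i₂ (e j)) =
      fun j : Fin N => if (j : ℕ) ≤ k then ω⁻¹ * x i₁ j else x i₂ (e j) := by
    funext j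
    simp only [chX, if_neg (Ne.symm hi), if_true, Equiv.symm_apply_apply]
  set ρ : Fin 3 → ℂ := fun s => if s = 0 then ω⁻¹ else if s = 1 then x i₂ (e j1) / x i₁ j1
    else ω'⁻¹ with hρ
  have hb₁ := fun s => ch_bs (d := d) (fun j => x i₂ (e j)) (x i₁) k hk1 ω s
  have hb₂ := fun s => ch_bs (d := d) (x i₁) (fun j => x i₂ (e j)) k hk1 ω⁻¹ s
  have hinv : ω⁻¹ ^ d * chS d (x i₁) k = chS d (fun j => x i₂ (e j)) k := by
    rw [← hω, ← mul_assoc, ← mul_pow, inv_mul_cancel₀ hω0, one_pow, one_mul]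
  have hinv' : ω'⁻¹ ^ d * chS d (x i₁) (k + 1) = chS d (fun j => x i₂ (e j)) (k + 1) := by
    rw [← hω', ← mul_assoc, ← mul_pow, inv_mul_cancel₀ hω0', one_pow, one_mul]
  have hBx : ∀ s, bs d (chB k) (chX i₁ i₂ e x k ω i₁) s = if s = 0 then chS d (x i₁) k else
      if s = 1 then x i₁ j1 ^ d else -chS d (x i₁) (k + 1) := by
    intro s
    rw [hX₁, hb₁, hω, ch_sum_gt _ (hx i₁).2]
  have hBy : ∀ s, bs d (fun j => chB k (e.symm j)) (chX i₁ i₂ e x k ω i₂) s =
      if s = 0 then chS d (fun j => x i₂ (e j)) k else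
      if s = 1 then x i₂ (e j1) ^ d else -chS d (fun j => x i₂ (e j)) (k + 1) := by
    intro s
    rw [ch_bs_filter, hX₂, hb₂, hinv, ch_sum_gt _ hsy]
  have hstep := E_step a (chX i₁ i₂ e x k ω) (ch_good hx hi hx₁ hx₂ hk1 hω0 hω) i₁ i₂ hi
    (chB k) (fun j => chB k (e.symm j))
    (by
      intro s
      rw [hBx]
      split_ifs
      · exact hS₁ k hk1
      · exact pow_ne_zero _ (hx₁ _)
      · exact neg_ne_zero.2 (hS₁ (k + 1) (by omega)))
    (by
      intro s
      rw [hBy]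
      split_ifs
      · exact hS₂ k hk1
      · exact pow_ne_zero _ (hx₂ _)
      · exact neg_ne_zero.2 (hS₂ (k + 1) (by omega)))
    (by
      intro s
      rw [Finset.sum_filter, Finset.sum_filter, ← Equiv.sum_comp e (fun j =>
        if chB k (e.symm j) = s then a i₂ j else 0)]
      simp only [Equiv.symm_apply_apply, h])
    1
    (by
      have h1 : (Finset.univ.filter fun j : Fin N => chB k j = 1) = {j1} := by
        ext j
        rw [Finset.mem_filter, Finset.mem_singleton, chB_one, hj1, Fin.ext_iff]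
        simp
      rw [h1, Finset.sum_singleton]
      exact ha j1)
    ρ
    (by
      intro s
      rw [hBx, hBy]
      simp only [hρ]
      split_ifs
      · exact hinv
      · rw [div_pow, div_mul_cancel₀ _ (pow_ne_zero _ (hx₁ _))]
      · rw [mul_neg, hinv'])
  rw [← hstep]
  have h5 : tw i₁ i₂ (chB k) (fun j => chB k (e.symm j)) ρ (fun s => (ρ s)⁻¹)
      (chX i₁ i₂ e x k ω) = fun i j =>
        (if i = i₁ then ω'⁻¹ else if i = i₂ then ω' else 1) * chX i₁ i₂ e x (k + 1) ω' i j := by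
    funext i j
    unfold tw
    have key : ∀ l : Fin N, ρ (chB k l) * (if (l : ℕ) ≤ k then ω * x i₂ (e l) else x i₁ l) =
        ω'⁻¹ * (if (l : ℕ) ≤ k + 1 then ω' * x i₂ (e l) else x i₁ l) := by
      intro l
      rcases lt_trichotomy (l : ℕ) (k + 1) with hl | hl | hl
      · have h6 : (l : ℕ) ≤ k := by omega
        rw [chB_zero.2 h6, if_pos h6, if_pos (by omega : (l : ℕ) ≤ k + 1)]
        simp only [hρ, if_true]
        rw [← mul_assoc, ← mul_assoc, inv_mul_cancel₀ hω0, inv_mul_cancel₀ hω0']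
      · have h6 : l = j1 := by rw [hj1, Fin.ext_iff]; exact hl
        rw [chB_one.2 hl, if_neg (by omega), if_pos (by omega : (l : ℕ) ≤ k + 1), h6]
        simp only [hρ, if_true, one_ne_zero, if_false]
        rw [← mul_assoc, inv_mul_cancel₀ hω0', div_mul_cancel₀ _ (hx₁ _), one_mul]
      · rw [chB_two.2 hl, if_neg (by omega), if_neg (by omega)]
        simp [hρ]
    have key' : ∀ l : Fin N, (ρ (chB k l))⁻¹ *
        (if (l : ℕ) ≤ k then ω⁻¹ * x i₁ l else x i₂ (e l)) =
        ω' * (if (l : ℕ) ≤ k + 1 then ω'⁻¹ * x i₁ l else x i₂ (e l)) := by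
      intro l
      rcases lt_trichotomy (l : ℕ) (k + 1) with hl | hl | hl
      · have h6 : (l : ℕ) ≤ k := by omega
        rw [chB_zero.2 h6, if_pos h6, if_pos (by omega : (l : ℕ) ≤ k + 1)]
        simp only [hρ, if_true]
        rw [← mul_assoc, ← mul_assoc, inv_inv, mul_inv_cancel₀ hω0, mul_inv_cancel₀ hω0']
      · have h6 : l = j1 := by rw [hj1, Fin.ext_iff]; exact hl
        rw [chB_one.2 hl, if_neg (by omega), if_pos (by omega : (l : ℕ) ≤ k + 1), h6]
        simp only [hρ, if_true, one_ne_zero, if_false]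
        rw [← mul_assoc, mul_inv_cancel₀ hω0', inv_div, div_mul_cancel₀ _ (hx₂ _), one_mul]
      · rw [chB_two.2 hl, if_neg (by omega), if_neg (by omega)]
        simp [hρ]
    by_cases h3 : i = i₁
    · subst h3
      rw [if_pos rfl, if_pos rfl]
      simp only [chX, if_true]
      exact key j
    · rw [if_neg h3, if_neg h3]
      by_cases h4 : i = i₂
      · subst h4
        rw [if_pos rfl, if_pos rfl]
        simp only [chX, if_neg h3, if_true]
        have := key' (e.symm j)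
        rwa [Equiv.apply_symm_apply] at this
      · rw [if_neg h4, if_neg h4]
        simp only [chX, if_neg h3, if_neg h4]
  rw [h5, E_smul a (fun i => if i = i₁ then ω'⁻¹ else if i = i₂ then ω' else 1)]
  intro i
  split_ifs
  · exact inv_ne_zero hω0'
  · exact hω0'
  · exact one_ne_zero

private theorem ch_all [NeZero d] (hN : 2 ≤ N) (a : Fin m → Fin N → ZMod d) (hx : Good d x)
    (hi : i₁ ≠ i₂) (h : ∀ j, a i₂ (e j) = a i₁ j) (ha : ∀ j, a i₁ j ≠ 0)
    (hx₁ : ∀ j, x i₁ j ≠ 0) (hx₂ : ∀ j, x i₂ j ≠ 0)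
    (hS₁ : ∀ k, k + 1 < N → chS d (x i₁) k ≠ 0)
    (hS₂ : ∀ k, k + 1 < N → chS d (fun j => x i₂ (e j)) k ≠ 0) (k : ℕ) (hk : k + 1 < N) :
    ∀ ω : ℂ, ω ^ d * chS d (fun j => x i₂ (e j)) k = chS d (x i₁) k →
      E a (chX i₁ i₂ e x k ω) = ((-1 : ℂ) ^ k) • E a x := by
  induction k with
  | zero =>
    intro ω hω
    rw [ch_zero (by omega) a hi h hx₁ hx₂ hω, pow_zero, one_smul]
  | succ k ih =>
    intro ω' hω'
    obtain ⟨ω, hω⟩ := IsAlgClosed.exists_pow_nat_eq
      (chS d (x i₁) k / chS d (fun j => x i₂ (e j)) k) (Nat.pos_of_ne_zero (NeZero.ne d))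
    have hω1 : ω ^ d * chS d (fun j => x i₂ (e j)) k = chS d (x i₁) k := by
      rw [hω, div_mul_cancel₀ _ (hS₂ k (by omega))]
    rw [ch_step a hx hi h ha hx₁ hx₂ hS₁ hS₂ (by omega) hω1 hω', ih (by omega) ω hω1, pow_succ,
      mul_neg_one, neg_smul]

private theorem ch_good_exch (hx : Good d x) (hi : i₁ ≠ i₂) : Good d (exchF i₁ i₂ e x) := by
  intro i
  by_cases h1 : i = i₁
  · subst h1
    have h2 : exchF i i₂ e x i = fun j => x i₂ (e j) := by
      funext j
      simp only [exchF, if_true]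
    rw [h2]
    refine ⟨fun h3 => (hx i₂).1 ?_, ?_⟩
    · funext j
      have := congrFun h3 (e.symm j)
      simpa using this
    · rw [Equiv.sum_comp e (fun j => x i₂ j ^ d)]
      exact (hx i₂).2
  · by_cases h2 : i = i₂
    · subst h2
      have h3 : exchF i₁ i e x i = fun j => x i₁ (e.symm j) := by
        funext j
        simp only [exchF, if_neg h1, if_true]
      rw [h3]
      refine ⟨fun h4 => (hx i₁).1 ?_, ?_⟩
      · funext j
        have := congrFun h4 (e j)
        simpa using this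
      · rw [Equiv.sum_comp e.symm (fun j => x i₁ j ^ d)]
        exact (hx i₁).2
    · have h3 : exchF i₁ i₂ e x i = x i := by
        funext j
        simp only [exchF, if_neg h1, if_neg h2]
      rw [h3]
      exact hx i

/-- The degenerate case. -/
private theorem ch_degen [NeZero d] (a : Fin m → Fin N → ZMod d) (hx : Good d x)
    (hi : i₁ ≠ i₂) (h : ∀ j, a i₂ (e j) = a i₁ j) (ha : ∀ j, a i₁ j ≠ 0) (A : Finset (Fin N))
    (hA : A.Nonempty) (hA' : A ≠ Finset.univ)
    (hs : ∑ j ∈ A, x i₁ j ^ d = 0 ∨ ∑ j ∈ A, x i₂ (e j) ^ d = 0) :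
    E a x = 0 ∧ E a (exchF i₁ i₂ e x) = 0 := by
  have ha₂ : ∀ j, a i₂ j ≠ 0 := by
    intro j
    rw [← Equiv.apply_symm_apply e j, h]
    exact ha _
  have hB : (A.map e.toEmbedding).Nonempty := Finset.Nonempty.map hA
  have hB' : A.map e.toEmbedding ≠ Finset.univ := by
    intro h1
    apply hA'
    rw [Finset.eq_univ_iff_forall] at h1 ⊢
    intro j
    obtain ⟨l, hl, hl'⟩ := Finset.mem_map.1 (h1 (e j))
    have : l = j := e.injective hl'
    rwa [← this]
  have hg := ch_good_exch (e := e) hx hi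
  rcases hs with hs | hs
  · refine ⟨E_zero_of_degen a x hx i₁ ha A hA hA' hs, ?_⟩
    refine E_zero_of_degen a _ hg i₂ ha₂ (A.map e.toEmbedding) hB hB' ?_
    rw [Finset.sum_map]
    simp only [Equiv.coe_toEmbedding, exchF, if_neg (Ne.symm hi), if_true, Equiv.symm_apply_apply]
    exact hs
  · constructor
    · refine E_zero_of_degen a x hx i₂ ha₂ (A.map e.toEmbedding) hB hB' ?_
      rw [Finset.sum_map]
      exact hs
    · refine E_zero_of_degen a _ hg i₁ ha A hA hA' ?_
      simp only [exchF, if_true]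
      exact hs

/-- Exchange of two factors with the same weights. -/
theorem E_exchF [NeZero d] (hN : 2 ≤ N) (a : Fin m → Fin N → ZMod d) (x : Fin m → Fin N → ℂ)
    (hx : Good d x) (i₁ i₂ : Fin m) (hi : i₁ ≠ i₂) (e : Equiv.Perm (Fin N))
    (h : ∀ j, a i₂ (e j) = a i₁ j) (ha : MinZero (a i₁)) :
    E a (exchF i₁ i₂ e x) = ((-1 : ℂ) ^ N) • E a x := by
  have hd : d ≠ 0 := NeZero.ne d
  have hsing : ∀ j : Fin N, ({j} : Finset (Fin N)) ≠ Finset.univ := by
    intro j h1
    have h2 := congrArg Finset.card h1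
    rw [Finset.card_singleton, Finset.card_univ, Fintype.card_fin] at h2
    omega
  have ha1 : ∀ j, a i₁ j ≠ 0 := by
    intro j
    have := ha.2 {j} (Finset.singleton_nonempty j) (hsing j)
    rwa [Finset.sum_singleton] at this
  by_cases hdeg : ∃ A : Finset (Fin N), A.Nonempty ∧ A ≠ Finset.univ ∧
      (∑ j ∈ A, x i₁ j ^ d = 0 ∨ ∑ j ∈ A, x i₂ (e j) ^ d = 0)
  · obtain ⟨A, hA, hA', hs⟩ := hdeg
    obtain ⟨h1, h2⟩ := ch_degen a hx hi h ha1 A hA hA' hs
    rw [h1, h2, smul_zero]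
  push Not at hdeg
  have hx₁ : ∀ j, x i₁ j ≠ 0 := by
    intro j h1
    have := (hdeg {j} (Finset.singleton_nonempty j) (hsing j)).1
    rw [Finset.sum_singleton, h1, zero_pow hd] at this
    exact this rfl
  have hx₂ : ∀ j, x i₂ j ≠ 0 := by
    intro j h1
    have := (hdeg {e.symm j} (Finset.singleton_nonempty _) (hsing _)).2
    rw [Finset.sum_singleton, Equiv.apply_symm_apply, h1, zero_pow hd] at this
    exact this rfl
  have hfil : ∀ k, k + 1 < N → (Finset.univ.filter fun j : Fin N => (j : ℕ) ≤ k).Nonempty ∧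
      (Finset.univ.filter fun j : Fin N => (j : ℕ) ≤ k) ≠ Finset.univ := by
    intro k hk
    refine ⟨⟨⟨0, by omega⟩, by simp⟩, fun h1 => ?_⟩
    have h2 : (⟨k + 1, hk⟩ : Fin N) ∈ (Finset.univ.filter fun j : Fin N => (j : ℕ) ≤ k) := by
      rw [h1]
      exact Finset.mem_univ _
    have h3 := (Finset.mem_filter.1 h2).2
    simp at h3
  have hS₁ : ∀ k, k + 1 < N → chS d (x i₁) k ≠ 0 := fun k hk =>
    (hdeg _ (hfil k hk).1 (hfil k hk).2).1
  have hS₂ : ∀ k, k + 1 < N → chS d (fun j => x i₂ (e j)) k ≠ 0 := fun k hk =>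
    (hdeg _ (hfil k hk).1 (hfil k hk).2).2
  obtain ⟨n, rfl⟩ : ∃ n, N = n + 2 := ⟨N - 2, by omega⟩
  set jl : Fin (n + 2) := ⟨n + 1, by omega⟩ with hjl
  have hgt : (Finset.univ.filter fun j : Fin (n + 2) => n < (j : ℕ)) = {jl} := by
    ext j
    have := j.2
    simp only [Finset.mem_filter, Finset.mem_univ, true_and, Finset.mem_singleton, hjl,
      Fin.ext_iff]
    omega
  have hsy : ∑ j, x i₂ (e j) ^ d = 0 := by
    rw [Equiv.sum_comp e (fun j => x i₂ j ^ d)]
    exact (hx i₂).2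
  have hl₁ : chS d (x i₁) n = -x i₁ jl ^ d := by
    have := ch_sum_gt (x i₁) (hx i₁).2 n
    rw [hgt, Finset.sum_singleton] at this
    rw [this, neg_neg]
  have hl₂ : chS d (fun j => x i₂ (e j)) n = -x i₂ (e jl) ^ d := by
    have := ch_sum_gt (fun j => x i₂ (e j)) hsy n
    rw [hgt, Finset.sum_singleton] at this
    rw [this, neg_neg]
  set ω : ℂ := x i₁ jl / x i₂ (e jl) with hωd
  have hω0 : ω ≠ 0 := div_ne_zero (hx₁ _) (hx₂ _)
  have hω : ω ^ d * chS d (fun j => x i₂ (e j)) n = chS d (x i₁) n := by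
    rw [hl₁, hl₂, hωd, div_pow, mul_neg, div_mul_cancel₀ _ (pow_ne_zero _ (hx₂ _))]
  have hend := ch_all hN a hx hi h ha1 hx₁ hx₂ hS₁ hS₂ n (by omega) ω hω
  have h5 : chX i₁ i₂ e x n ω = fun i j =>
      (if i = i₁ then ω else if i = i₂ then ω⁻¹ else 1) * exchF i₁ i₂ e x i j := by
    have hle : ∀ l : Fin (n + 2), ¬ (l : ℕ) ≤ n → l = jl := by
      intro l hl
      have := l.2
      rw [hjl, Fin.ext_iff]
      simp only
      omega
    funext i j
    unfold chX exchF
    by_cases h3 : i = i₁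
    · subst h3
      rw [if_pos rfl, if_pos rfl, if_pos rfl]
      split_ifs with h4
      · rfl
      · rw [hle j h4, hωd, div_mul_cancel₀ _ (hx₂ _)]
    · rw [if_neg h3, if_neg h3, if_neg h3]
      by_cases h4 : i = i₂
      · subst h4
        rw [if_pos rfl, if_pos rfl, if_pos rfl]
        split_ifs with h6
        · rfl
        · have h7 := hle _ h6
          have h8 : j = e jl := by rw [← h7, Equiv.apply_symm_apply]
          rw [h7, h8, hωd, inv_div, div_mul_cancel₀ _ (hx₁ _)]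
      · rw [if_neg h4, if_neg h4, if_neg h4, one_mul]
  rw [h5, E_smul a (fun i => if i = i₁ then ω else if i = i₂ then ω⁻¹ else 1)] at hend
  · rw [hend, pow_add]
    norm_num
  · intro i
    split_ifs
    · exact hω0
    · exact inv_ne_zero hω0
    · exact one_ne_zero

end Pool.Agent.FBB
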