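import Pool.Agent.FBB.Defs2

/-!
# The coefficients of a combination of automorphisms which kills all forms
-/

set_option autoImplicit false

noncomputable section

namespace Pool.Agent.FBB

open scoped LinearAlgebra.Projectivization
open Pool.Agent.ZCyc

variable {d m N : ℕ}

private theorem coeff_pull_monomial (g : Sym d m N) (s : Fin m × Fin N →₀ ℕ) :
    g.pull (MvPolynomial.monomial s 1) = MvPolynomial.monomial (s.equivMapDomain g.perm.symm)
      ((((Equiv.Perm.sign g.perm : ℤˣ) : ℤ) : ℂ) *
        ∏ J, ((g.scal J : ℂˣ) : ℂ) ^ (s J + 1)) := by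
  have h1 : MvPolynomial.aeval
      (fun J => MvPolynomial.C ((g.scal J : ℂˣ) : ℂ) * MvPolynomial.X (g.perm.symm J))
      (MvPolynomial.monomial s (1 : ℂ)) =
      MvPolynomial.C (∏ J, ((g.scal J : ℂˣ) : ℂ) ^ s J) *
        (MvPolynomial.monomial (s.equivMapDomain g.perm.symm) (1 : ℂ)) := by
    have e2 : ∏ J, (MvPolynomial.X (g.perm.symm J) : MvPolynomial (Fin m × Fin N) ℂ) ^ s J =
        ∏ J, MvPolynomial.X J ^ (s.equivMapDomain g.perm.symm) J := by
      rw [← Equiv.prod_comp g.perm]
      refine Finset.prod_congr rfl fun J _ => ?_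
      rw [Equiv.symm_apply_apply, Finsupp.equivMapDomain_apply, Equiv.symm_symm]
    rw [MvPolynomial.aeval_monomial, map_one, one_mul, Finsupp.prod_fintype _ _ (fun _ => pow_zero _),
      MvPolynomial.monomial_eq, map_one, one_mul, Finsupp.prod_fintype _ _ (fun _ => pow_zero _),
      map_prod, ← e2, ← Finset.prod_mul_distrib]
    refine Finset.prod_congr rfl fun J _ => ?_
    rw [mul_pow, map_pow]
  unfold Sym.pull
  rw [h1, MvPolynomial.smul_eq_C_mul, ← mul_assoc, ← map_mul, MvPolynomial.C_mul_monomial, mul_one]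
  congr 1
  rw [mul_assoc, ← Finset.prod_mul_distrib]
  congr 1
  refine Finset.prod_congr rfl fun J _ => ?_
  rw [pow_succ']

private theorem coeff_psi_finsum [NeZero d] {I : Type} (s : Finset I) (f : I → ZMod d) :
    psi (∑ i ∈ s, f i) = ∏ i ∈ s, psi (f i) := by
  classical
  induction s using Finset.induction_on with
  | empty =>
    rw [Finset.sum_empty, Finset.prod_empty]
    exact AddChar.map_zero_eq_one _
  | insert a s ha ih =>
    rw [Finset.sum_insert ha, Finset.prod_insert ha, ← ih]
    exact AddChar.map_add_eq_mul _ _ _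

private theorem coeff_psi_sum [NeZero d] (b : Fin m × Fin N → ℕ) (z : Fin m × Fin N → ZMod d) :
    ∏ J, psi (z J) ^ b J = psi (∑ J, (b J : ZMod d) * z J) := by
  rw [coeff_psi_finsum]
  refine Finset.prod_congr rfl fun J _ => ?_
  unfold psi
  rw [← nsmul_eq_mul, AddChar.map_nsmul_eq_pow]

/-- the coefficients of a combination which kills all forms -/
theorem coeff_forms [NeZero d] (γ : Sym d m N →₀ ℚ) (hγ : KillsForms γ)
    (z : Sym d m N → Fin m → Fin N → ZMod d)
    (hz : ∀ g i j, ((g.scal (i, j) : ℂˣ) : ℂ) = psi (z g i j))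
    (b c : Fin m → Fin N → ℕ) (hb : ∀ i j, 0 < b i j) (hs : ∀ i, ∑ j, b i j = d)
    (hm : 0 < m) :
    ∑ g ∈ γ.support with (∀ i j, b (g.perm (i, j)).1 (g.perm (i, j)).2 = c i j),
      (((γ g * ((Equiv.Perm.sign g.perm : ℤˣ) : ℤ) : ℚ)) : ℂ) *
        psi (∑ i, ∑ j, (b i j : ZMod d) * z g i j) = 0 := by
  by_cases hc : ∀ i j, 0 < c i j
  · set s : Fin m × Fin N →₀ ℕ := Finsupp.equivFunOnFinite.symm fun J => b J.1 J.2 - 1 with hsd
    set t : Fin m × Fin N →₀ ℕ := Finsupp.equivFunOnFinite.symm fun J => c J.1 J.2 - 1 with htd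
    have hsJ : ∀ J, s J = b J.1 J.2 - 1 := fun J => rfl
    have htJ : ∀ J, t J = c J.1 J.2 - 1 := fun J => rfl
    have hsum : ∀ i, ∑ j, s (i, j) + N = d := by
      intro i
      rw [← hs i]
      have h1 : ∑ j : Fin N, (s (i, j) + 1) = ∑ j, b i j :=
        Finset.sum_congr rfl fun j _ => by
          rw [hsJ]
          have := hb i j
          simp only
          omega
      rw [← h1, Finset.sum_add_distrib]
      simp
    have he : d - N + N = d := by
      have := hsum ⟨0, hm⟩
      omega
    have hP : MultiHom (d - N) (MvPolynomial.monomial s (1 : ℂ)) := by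
      intro s' hs' i
      have h1 : s' = s := by
        have := MvPolynomial.support_monomial_subset hs'
        exact Finset.mem_singleton.1 this
      rw [h1]
      have := hsum i
      omega
    have h0 := congrArg (MvPolynomial.coeff t) (hγ (d - N) he _ hP)
    rw [Finsupp.sum, MvPolynomial.coeff_sum, MvPolynomial.coeff_zero] at h0
    rw [Finset.sum_filter]
    refine (Finset.sum_congr rfl fun g _ => ?_).trans h0
    rw [MvPolynomial.coeff_smul, coeff_pull_monomial, MvPolynomial.coeff_monomial]
    have hiff : (s.equivMapDomain g.perm.symm = t) ↔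
        ∀ i j, b (g.perm (i, j)).1 (g.perm (i, j)).2 = c i j := by
      constructor
      · intro h i j
        have h2 := DFunLike.congr_fun h (i, j)
        rw [Finsupp.equivMapDomain_apply, Equiv.symm_symm, hsJ, htJ] at h2
        have h3 := hb (g.perm (i, j)).1 (g.perm (i, j)).2
        have h4 := hc i j
        simp only at h2
        omega
      · intro h
        ext ⟨i, j⟩
        rw [Finsupp.equivMapDomain_apply, Equiv.symm_symm, hsJ, htJ, h i j]
    by_cases hg : ∀ i j, b (g.perm (i, j)).1 (g.perm (i, j)).2 = c i j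
    · rw [if_pos hg, if_pos (hiff.2 hg)]
      have h5 : ∏ J, ((g.scal J : ℂˣ) : ℂ) ^ (s J + 1) =
          psi (∑ i, ∑ j, (b i j : ZMod d) * z g i j) := by
        rw [← Fintype.sum_prod_type' (fun i j => (b i j : ZMod d) * z g i j),
          ← coeff_psi_sum (fun J => b J.1 J.2) (fun J => z g J.1 J.2)]
        refine Finset.prod_congr rfl fun J _ => ?_
        rw [← hz, hsJ, Nat.sub_add_cancel (hb _ _)]
      rw [h5, smul_eq_mul]
      push_cast
      ring
    · rw [if_neg hg, if_neg (fun h => hg (hiff.1 h)), smul_zero]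
  · push Not at hc
    obtain ⟨i, j, hij⟩ := hc
    apply Finset.sum_eq_zero
    intro g hg
    have h1 := (Finset.mem_filter.1 hg).2 i j
    have h2 := hb (g.perm (i, j)).1 (g.perm (i, j)).2
    omega

end Pool.Agent.FBB
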