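import Pool.Agent.FBB.Defs4

/-!
# FBB: change of the base points of a product of differences
-/

set_option autoImplicit false

noncomputable section

namespace Pool.Agent.FBB

open scoped LinearAlgebra.Projectivization

variable {d m m' N : ℕ}

private lemma cycBase_congr (J : Finset (Fin m)) (x y y' : Pts m N) (h : ∀ j ∈ J, y j = y' j) :
    cyc J x y = cyc J x y' := by
  unfold cyc
  apply Finset.sum_congr rfl
  intro S hS
  rw [Finset.mem_powerset] at hS
  congr 1
  funext i
  by_cases hi : i ∈ S
  · rw [if_pos hi, if_pos hi, h i (hS hi)]
  · rw [if_neg hi, if_neg hi]

private lemma cycBase_insert (J : Finset (Fin m)) {i : Fin m} (hi : i ∉ J) (x y : Pts m N) :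
    cyc (insert i J) x y = cyc J x y - cyc J (Function.update x i (y i)) y := by
  unfold cyc
  rw [Finset.sum_powerset_insert hi, sub_eq_add_neg, ← Finset.sum_neg_distrib]
  congr 1
  apply Finset.sum_congr rfl
  intro S hS
  rw [Finset.mem_powerset] at hS
  have hiS : i ∉ S := fun h => hi (hS h)
  rw [← Finsupp.single_neg, Finset.card_insert_of_notMem hiS, pow_succ, mul_neg_one]
  congr 1
  funext l
  by_cases hl : l = i
  · subst hl
    rw [if_pos (Finset.mem_insert_self _ _), if_neg hiS, Function.update_self]
  · by_cases hlS : l ∈ S
    · rw [if_pos (Finset.mem_insert_of_mem hlS), if_pos hlS]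
    · rw [if_neg, if_neg hlS, Function.update_of_ne hl]
      rw [Finset.mem_insert]
      rintro (h | h)
      · exact hl h
      · exact hlS h

theorem cyc_base (n : ℕ) (J : Finset (Fin m)) (w w' v v' : Pts m N) (hw : OnX d w)
    (hw' : OnX d w') (hv : OnX d v) (hv' : OnX d v') (h : ∀ j ∈ J, w j = v j ∧ w' j = v' j) :
    cyc J w w' - cyc J v v' ∈ Fil n d m N (n * (J.card + 1)) := by
  have key : ∀ T : Finset (Fin m), Disjoint T J →
      cyc J w w' - cyc J (fun i => if i ∈ T then v i else w i) w' ∈
        Fil n d m N (n * (J.card + 1)) := by
    intro T
    induction T using Finset.induction_on with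
    | empty =>
      intro _
      have : (fun i : Fin m => if i ∈ (∅ : Finset (Fin m)) then v i else w i) = w := by
        funext i
        simp
      rw [this, sub_self]
      exact Submodule.zero_mem _
    | insert i T hiT ih =>
      intro hdisj
      rw [Finset.disjoint_insert_left] at hdisj
      obtain ⟨hiJ, hTJ⟩ := hdisj
      have h1 := ih hTJ
      have hstep : cyc J (fun l => if l ∈ T then v l else w l) w' -
          cyc J (fun l => if l ∈ insert i T then v l else w l) w' =
          cyc (insert i J) (fun l => if l ∈ T then v l else w l)
            (Function.update w' i (v i)) := by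
        rw [cycBase_insert J hiJ]
        have e1 : ∀ x : Pts m N, cyc J x (Function.update w' i (v i)) = cyc J x w' := by
          intro x
          apply cycBase_congr
          intro j hj
          rw [Function.update_of_ne]
          rintro rfl
          exact hiJ hj
        rw [e1, e1]
        congr 2
        funext l
        by_cases hl : l = i
        · subst hl
          rw [if_pos (Finset.mem_insert_self _ _), Function.update_self, Function.update_self]
        · rw [Function.update_of_ne hl]
          by_cases hlT : l ∈ T
          · rw [if_pos (Finset.mem_insert_of_mem hlT), if_pos hlT]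
          · rw [if_neg, if_neg hlT]
            rw [Finset.mem_insert]
            rintro (h | h)
            · exact hl h
            · exact hlT h
      have h2 : cyc (insert i J) (fun l => if l ∈ T then v l else w l)
          (Function.update w' i (v i)) ∈ Fil n d m N (n * (J.card + 1)) := by
        apply Submodule.mem_sup_left
        apply Submodule.subset_span
        refine ⟨insert i J, _, _, ?_, ?_, ?_, rfl⟩
        · intro l
          by_cases hlT : l ∈ T
          · simp only [if_pos hlT]; exact hv l
          · simp only [if_neg hlT]; exact hw l
        · intro l
          by_cases hl : l = i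
          · subst hl
            rw [Function.update_self]; exact hv l
          · rw [Function.update_of_ne hl]; exact hw' l
        · rw [Finset.card_insert_of_notMem hiJ]
      rw [← hstep] at h2
      have h3 := Submodule.add_mem _ h1 h2
      rwa [sub_add_sub_cancel] at h3
  have h4 := key Jᶜ disjoint_compl_left
  have h5 : (fun i => if i ∈ Jᶜ then v i else w i) = v := by
    funext i
    by_cases hi : i ∈ J
    · rw [if_neg (by rw [Finset.mem_compl]; exact fun h => h hi), (h i hi).1]
    · rw [if_pos (Finset.mem_compl.2 hi)]
  rw [h5, cycBase_congr J v w' v' (fun j hj => (h j hj).2)] at h4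
  exact h4

end Pool.Agent.FBB
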