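import Mathlib

/-!
# Zero-cycles on powers of Fermat hypersurfaces: definitions

`X` is the Fermat hypersurface `x₀ᵈ + ⋯ + x_{N-1}ᵈ = 0` in the complex projective space of
dimension `N - 1`, so that `dim X = N - 2`. We define the zero-cycles on `X ^ m` which are
rationally equivalent to zero, the standard automorphisms of `X ^ m` and their action on
zero-cycles and on holomorphic forms of top degree.
-/

set_option autoImplicit false

noncomputable section

namespace Pool.Agent.FBB

open scoped LinearAlgebra.Projectivization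

/-- The points of the `m`-th power of the projective space with `N` homogeneous coordinates. -/
abbrev Pts (m N : ℕ) : Type := Fin m → ℙ ℂ (Fin N → ℂ)

/-- The point lies on `X ^ m`, where `X` is the Fermat hypersurface of degree `d`. -/
def OnX (d : ℕ) {m N : ℕ} (p : Pts m N) : Prop := ∀ i, ∑ j, (p i).rep j ^ d = 0

/-- The point `P` of the projective space with coordinates in the field `F` reduces to the complex
point `p` modulo the maximal ideal of the valuation ring `A`: a multiple of the vector `P` is
congruent to a vector of homogeneous coordinates of `p`. If `F` is the function field of a smooth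
projective curve `D`, then `P` is a morphism from `D` to the projective space, `A` is a point of
`D`, and `p` is the value of `P` at this point. -/
def Red {F : Type} [Field F] [Algebra ℂ F] (A : ValuationSubring F) {N : ℕ} (P : Fin N → F)
    (p : ℙ ℂ (Fin N → ℂ)) : Prop :=
  ∃ s : F, ∀ j, s * P j - algebraMap ℂ F (p.rep j) ∈ A.nonunits

/-- The zero-cycles on `X ^ m` with coefficients in `R` which are rationally equivalent to zero:
the span of the cycles `P_* (π^* a - π^* b)`, where `π : D → ℙ¹` is a finite Galois covering of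
smooth projective curves with group `G`, `P : D → X ^ m` is a morphism and `a`, `b` are points of
`ℙ¹` (`≠ ∞`). Here `D` is given by its function field `F`, a finite Galois extension of `ℂ(t)`,
and `P` by a point of `X ^ m` with coordinates in `F`. If `A` is a point of `D` above `a`, then
`π^* a` is the sum of the points `τ⁻¹ A`, and the value of `P` at `τ⁻¹ A` is the value of `τ P` at
`A`. (Every function on a curve `D'`, i.e. every finite morphism `D' → ℙ¹`, is dominated by a
Galois covering, so this is rational equivalence with coefficients in the field `R` of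
characteristic zero.) -/
def ratEq (R : Type) [Field R] (d m N : ℕ) : Submodule R (Pts m N →₀ R) :=
  Submodule.span R {z | ∃ (F : Type) (_ : Field F) (_ : Algebra ℂ F) (_ : Algebra (RatFunc ℂ) F)
    (_ : IsScalarTower ℂ (RatFunc ℂ) F) (_ : FiniteDimensional (RatFunc ℂ) F)
    (_ : IsGalois (RatFunc ℂ) F) (P : Fin m → Fin N → F) (a b : ℂ) (A B : ValuationSubring F)
    (p q : (F ≃ₐ[RatFunc ℂ] F) → Pts m N),
    (∀ i, P i ≠ 0 ∧ ∑ j, P i j ^ d = 0) ∧
    (∀ c : ℂ, algebraMap ℂ F c ∈ A) ∧
    algebraMap (RatFunc ℂ) F (RatFunc.X - RatFunc.C a) ∈ A.nonunits ∧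
    (∀ c : ℂ, algebraMap ℂ F c ∈ B) ∧
    algebraMap (RatFunc ℂ) F (RatFunc.X - RatFunc.C b) ∈ B.nonunits ∧
    (∀ τ i, Red A (fun j => τ (P i j)) (p τ i)) ∧
    (∀ τ i, Red B (fun j => τ (P i j)) (q τ i)) ∧
    z = ∑ τ, (Finsupp.single (p τ) 1 - Finsupp.single (q τ) 1)}

/-- A standard automorphism of `X ^ m`: it permutes the factors, and permutes the homogeneous
coordinates of every factor and multiplies them by `d`-th roots of unity. -/
structure Sym (d m N : ℕ) where
  /-- the permutation of the coordinates `(i, j)`, where `i` is the number of the factor -/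
  perm : Equiv.Perm (Fin m × Fin N)
  block : ∀ i i' j j', (perm (i, j)).1 = (perm (i', j')).1 ↔ i = i'
  /-- the roots of unity -/
  scal : Fin m × Fin N → rootsOfUnity d ℂ

variable {d m N : ℕ}

/-- The linear map which defines the automorphism. -/
def Sym.lin (g : Sym d m N) (x : Fin m → Fin N → ℂ) : Fin m → Fin N → ℂ := fun i j =>
  ((g.scal (i, j) : ℂˣ) : ℂ) * x (g.perm.symm (i, j)).1 (g.perm.symm (i, j)).2

theorem Sym.lin_ne (g : Sym d m N) (x : Fin m → Fin N → ℂ) (hx : ∀ i, x i ≠ 0) (i : Fin m) :
    g.lin x i ≠ 0 := by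
  intro h
  by_cases hN : ∃ j : Fin N, True
  · obtain ⟨j, -⟩ := hN
    apply hx (g.perm.symm (i, j)).1
    funext l
    have h1 : (g.perm ((g.perm.symm (i, j)).1, l)).1 = i := by
      have := (g.block (g.perm.symm (i, j)).1 (g.perm.symm (i, j)).1 l
        (g.perm.symm (i, j)).2).2 rfl
      rw [this]
      simp
    have h2 := congrFun h (g.perm ((g.perm.symm (i, j)).1, l)).2
    have h3 : (i, (g.perm ((g.perm.symm (i, j)).1, l)).2) =
        g.perm ((g.perm.symm (i, j)).1, l) := by
      rw [Prod.ext_iff]
      exact ⟨h1.symm, rfl⟩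
    unfold Sym.lin at h2
    rw [h3] at h2
    simp only [Equiv.symm_apply_apply, Pi.zero_apply, mul_eq_zero, Units.ne_zero, false_or] at h2
    exact h2
  · apply hx i
    funext j
    exact absurd ⟨j, trivial⟩ hN

/-- The action of the automorphism on points. -/
def Sym.act (g : Sym d m N) (p : Pts m N) : Pts m N := fun i =>
  Projectivization.mk ℂ (g.lin (fun i => (p i).rep) i)
    (g.lin_ne _ (fun i => (p i).rep_nonzero) i)

/-- `P` is homogeneous of degree `e` in every one of the `m` groups of `N` variables. If
`e = d - N`, these polynomials are the holomorphic forms of top degree on `X ^ m`: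
`H⁰(X, K)` is the space of the residues of `P Ω / f`, where `f` is the equation of `X` and
`Ω = ∑ (-1)ʲ x_j dx_0 ∧ ⋯ ∧ dx_{j-1} ∧ dx_{j+1} ∧ ⋯`, and `H⁰(X ^ m, K)` is its `m`-th tensor
power. -/
def MultiHom (e : ℕ) (P : MvPolynomial (Fin m × Fin N) ℂ) : Prop :=
  ∀ s ∈ P.support, ∀ i, ∑ j, s (i, j) = e

/-- The pull-back of a holomorphic form of top degree by the automorphism: `det(g) P ∘ g`. -/
def Sym.pull (g : Sym d m N) (P : MvPolynomial (Fin m × Fin N) ℂ) :
    MvPolynomial (Fin m × Fin N) ℂ :=
  ((((Equiv.Perm.sign g.perm : ℤˣ) : ℤ) : ℂ) * ∏ J, ((g.scal J : ℂˣ) : ℂ)) •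
    MvPolynomial.aeval
      (fun J => MvPolynomial.C ((g.scal J : ℂˣ) : ℂ) * MvPolynomial.X (g.perm.symm J)) P

/-- The zero-cycle `([x₁] - [y₁]) × ⋯ × ([x_m] - [y_m])`. -/
def prodDiff (x y : Pts m N) : Pts m N →₀ ℚ :=
  ∑ S : Finset (Fin m), Finsupp.single (fun i => if i ∈ S then y i else x i) ((-1) ^ S.card)

/-- The image of a zero-cycle under a combination of automorphisms. -/
def push (γ : Sym d m N →₀ ℚ) (z : Pts m N →₀ ℚ) : Pts m N →₀ ℚ :=
  γ.sum fun g c => c • z.mapDomain g.act

/-- The combination of automorphisms acts as zero on the holomorphic forms of top degree. -/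
def KillsForms (γ : Sym d m N →₀ ℚ) : Prop :=
  ∀ e : ℕ, e + N = d → ∀ P : MvPolynomial (Fin m × Fin N) ℂ, MultiHom e P →
    (γ.sum fun g c => (c : ℂ) • g.pull P) = 0

end Pool.Agent.FBB
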