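import Pool.Agent.FBB.Defs
import Pool.Agent.ZCyc.Basic

/-!
# Auxiliary definitions
-/

set_option autoImplicit false

noncomputable section

namespace Pool.Agent.FBB

open scoped LinearAlgebra.Projectivization
open Pool.Agent.ZCyc

/-- zero-cycles modulo rational equivalence (with complex coefficients) -/
abbrev V (d m N : ℕ) : Type := (Pts m N →₀ ℂ) ⧸ ratEq ℂ d m N

/-- the cycle of the point with the homogeneous coordinates `x i` -/
def pt {m N : ℕ} (x : Fin m → Fin N → ℂ) : Pts m N →₀ ℂ := by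
  classical
  exact if h : ∀ i, x i ≠ 0 then
    Finsupp.single (fun i => Projectivization.mk ℂ (x i) (h i)) 1 else 0

/-- its class -/
def cl (d : ℕ) {m N : ℕ} (x : Fin m → Fin N → ℂ) : V d m N := Submodule.Quotient.mk (pt x)

/-- `x` is a point of `X ^ m` -/
def Good (d : ℕ) {m N : ℕ} (x : Fin m → Fin N → ℂ) : Prop :=
  ∀ i, x i ≠ 0 ∧ ∑ j, x i j ^ d = 0

/-- the algebraic closure of `ℂ(t)` -/
abbrev Om : Type := AlgebraicClosure (RatFunc ℂ)

/-- the variable `t` -/
def tt : Om := algebraMap (RatFunc ℂ) Om RatFunc.X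

/-- the value of the projective point `P` at `v` is `u` -/
def RedV (v : Place ℂ Om) {N : ℕ} (P : Fin N → Om) (u : Fin N → ℂ) : Prop :=
  ∃ s : Om, ∀ j, v.At (s * P j) (u j)

/-- the root of unity `exp (2 π i k / d)` -/
def psi {d : ℕ} [NeZero d] (k : ZMod d) : ℂ := ZMod.stdAddChar k

/-- multiply the coordinates `(i, j)` by the roots of unity `psi (k i j)` -/
def rot {d m N : ℕ} [NeZero d] (k : Fin m → Fin N → ZMod d) (x : Fin m → Fin N → ℂ) :
    Fin m → Fin N → ℂ := fun i j => psi (k i j) * x i j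

/-- the part of the class of `x` on which the roots of unity act by the character `a` -/
def E {d m N : ℕ} [NeZero d] (a : Fin m → Fin N → ZMod d) (x : Fin m → Fin N → ℂ) : V d m N :=
  ∑ k : Fin m → Fin N → ZMod d, psi (-∑ i, ∑ j, a i j * k i j) • cl d (rot k x)

/-- multiply the coordinates of the factors `i₁` and `i₂` by `g` and `h`, constant on blocks -/
def tw {m N : ℕ} (i₁ i₂ : Fin m) (β₁ β₂ : Fin N → Fin 3) (g h : Fin 3 → ℂ)
    (x : Fin m → Fin N → ℂ) : Fin m → Fin N → ℂ := fun i j =>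
  (if i = i₁ then g (β₁ j) else if i = i₂ then h (β₂ j) else 1) * x i j

/-- the sum of the `d`-th powers over a block -/
def bs (d : ℕ) {N : ℕ} (β : Fin N → Fin 3) (u : Fin N → ℂ) (s : Fin 3) : ℂ :=
  ∑ j with β j = s, u j ^ d

/-- exchange the coordinates `j₁` and `j₂` of the factor `i₀` -/
def exch {m N : ℕ} (i₀ : Fin m) (j₁ j₂ : Fin N) (x : Fin m → Fin N → ℂ) : Fin m → Fin N → ℂ :=
  fun i j => if i = i₀ then x i (Equiv.swap j₁ j₂ j) else x i j

/-- exchange the factors `i₁` and `i₂`, permuting the coordinates by `e` -/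
def exchF {m N : ℕ} (i₁ i₂ : Fin m) (e : Equiv.Perm (Fin N)) (x : Fin m → Fin N → ℂ) :
    Fin m → Fin N → ℂ :=
  fun i j => if i = i₁ then x i₂ (e j) else if i = i₂ then x i₁ (e.symm j) else x i j

/-- minimal zero-sum sequences -/
def MinZero {d N : ℕ} (a : Fin N → ZMod d) : Prop :=
  ∑ j, a j = 0 ∧ ∀ A : Finset (Fin N), A.Nonempty → A ≠ Finset.univ → ∑ j ∈ A, a j ≠ 0

end Pool.Agent.FBB
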