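import Pool.Agent.FBB.Defs

/-!
# The category of powers of a Fermat hypersurface and the filtration

Morphisms `X ^ m → X ^ m'` all of whose components are constant or a factor followed by a standard
automorphism of `X`, their action on zero-cycles and on holomorphic forms.
-/

set_option autoImplicit false

noncomputable section

namespace Pool.Agent.FBB

open scoped LinearAlgebra.Projectivization

variable {d m m' N : ℕ}

/-- A morphism from `X ^ m` to `X`: a constant (a point of `X`), or the factor with number `i`
followed by a standard automorphism of `X`, `x ↦ (ζ l * x (π⁻¹ l))_l`. -/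
inductive Comp (d m N : ℕ) : Type
  | const (p : ℙ ℂ (Fin N → ℂ)) (hp : ∑ j, p.rep j ^ d = 0) : Comp d m N
  | fac (i : Fin m) (π : Equiv.Perm (Fin N)) (ζ : Fin N → rootsOfUnity d ℂ) : Comp d m N

/-- The morphisms from `X ^ m` to `X ^ m'`: projections, diagonals, constants, standard
automorphisms and everything composed from them. -/
abbrev Mor (d m m' N : ℕ) : Type := Fin m' → Comp d m N

theorem fac_ne (π : Equiv.Perm (Fin N)) (ζ : Fin N → rootsOfUnity d ℂ)
    (p : ℙ ℂ (Fin N → ℂ)) : (fun l => ((ζ l : ℂˣ) : ℂ) * p.rep (π.symm l)) ≠ 0 := by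
  intro h
  apply p.rep_nonzero
  funext l
  have := congrFun h (π l)
  simpa using this

/-- The value of the component at a point. -/
def Comp.app (f : Comp d m N) (x : Pts m N) : ℙ ℂ (Fin N → ℂ) :=
  match f with
  | .const p _ => p
  | .fac i π ζ => Projectivization.mk ℂ (fun l => ((ζ l : ℂˣ) : ℂ) * (x i).rep (π.symm l))
      (fac_ne π ζ (x i))

/-- The value of the morphism at a point. -/
def Mor.app (f : Mor d m m' N) (x : Pts m N) : Pts m' N := fun j => (f j).app x

/-- The push-forward of zero-cycles by a combination of morphisms (a correspondence). -/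
def pushM (γ : Mor d m m' N →₀ ℚ) : (Pts m N →₀ ℚ) →ₗ[ℚ] (Pts m' N →₀ ℚ) :=
  γ.sum fun f c => c • Finsupp.lmapDomain ℚ ℚ f.app

/-- `I` and `J` are increasing sequences of `k` factors of `X ^ m` and `X ^ m'`. The components
`J b` of `f` are standard automorphisms of the factors `I b'`, in some order, so that `f` induces an
isomorphism `g` from `X ^ k` (the factors `I`) to `X ^ k` (the factors `J`). -/
def Induces (f : Mor d m m' N) {k : ℕ} (I : Fin k ↪o Fin m) (J : Fin k ↪o Fin m')
    (g : Sym d k N) : Prop :=
  ∀ b : Fin k, ∃ (i : Fin k) (π : Equiv.Perm (Fin N)) (ζ : Fin N → rootsOfUnity d ℂ),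
    f (J b) = Comp.fac (I i) π ζ ∧
      ∀ l, g.perm.symm (b, l) = (i, π.symm l) ∧ g.scal (b, l) = ζ l

/-- `H⁰(X ^ m', Ω^(n k))` is the direct sum over all increasing sequences `J` of `k` factors of the
spaces of forms of top degree on `X ^ k` (the factors `J`), i.e. of polynomials `P`, and likewise
for `X ^ m`. This is the component with index `I` of the pull-back by `f` of the form `P` with
index `J`. -/
def pullComp (f : Mor d m m' N) {k : ℕ} (I : Fin k ↪o Fin m) (J : Fin k ↪o Fin m')
    (P : MvPolynomial (Fin k × Fin N) ℂ) : MvPolynomial (Fin k × Fin N) ℂ := by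
  classical
  exact if h : ∃ g, Induces f I J g then h.choose.pull P else 0

/-- The correspondence `γ` from `X ^ m` to `X ^ m'` acts as zero on the holomorphic `ν`-forms,
where `n = dim X = N - 2`. (There are none except for `ν = n k`; for `k = 0` they are the constants,
for `k > 0` the polynomials are of degree `d - N` in every group of variables.) -/
def KillsNuForms (n : ℕ) (γ : Mor d m m' N →₀ ℚ) (ν : ℕ) : Prop :=
  ∀ k : ℕ, ν = n * k → ∀ e : ℕ, (k = 0 ∨ e + N = d) →
    ∀ (I : Fin k ↪o Fin m) (J : Fin k ↪o Fin m') (P : MvPolynomial (Fin k × Fin N) ℂ),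
      MultiHom e P → (γ.sum fun f c => (c : ℂ) • pullComp f I J P) = 0

end Pool.Agent.FBB
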