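import Pool.Agent.FBB.Defs3

/-!
# The filtration
-/

set_option autoImplicit false

noncomputable section

namespace Pool.Agent.FBB

open scoped LinearAlgebra.Projectivization

variable {d m m' N : ℕ}

/-- the product of the differences `[x i] - [y i]` for `i ∈ I` and of the points `x i` for
`i ∉ I` -/
def cyc (I : Finset (Fin m)) (x y : Pts m N) : Pts m N →₀ ℚ :=
  ∑ S ∈ I.powerset, Finsupp.single (fun i => if i ∈ S then y i else x i) ((-1) ^ S.card)

/-- the filtration on zero-cycles -/
def Fil (n d m N ν : ℕ) : Submodule ℚ (Pts m N →₀ ℚ) :=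
  Submodule.span ℚ {z | ∃ (I : Finset (Fin m)) (x y : Pts m N), OnX d x ∧ OnX d y ∧
    ν ≤ n * I.card ∧ z = cyc I x y} ⊔ ratEq ℚ d m N

/-- the number of the factor of a non-constant component -/
def Comp.src : Comp d m N → Option (Fin m)
  | .const _ _ => none
  | .fac i _ _ => some i

/-- `f` maps `K` onto `I` -/
def Onto (f : Mor d m m' N) (K : Finset (Fin m')) (I : Finset (Fin m)) : Prop :=
  (∀ j ∈ K, ∃ i ∈ I, (f j).src = some i) ∧ ∀ i ∈ I, ∃ j ∈ K, (f j).src = some i

/-- the morphism `X ^ k → X ^ m'`, the factors `κ b`, with the constant `o` elsewhere -/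
def emb (o : ℙ ℂ (Fin N → ℂ)) (ho : ∑ j, o.rep j ^ d = 0) {k : ℕ} (κ : Fin k ↪o Fin m') :
    Mor d k m' N := by
  classical
  exact fun j => if h : ∃ b, κ b = j then Comp.fac h.choose 1 1 else Comp.const o ho

end Pool.Agent.FBB
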