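import Pool.Agent.FBB.Defs2

/-!
# Descent to rational coefficients and Galois conjugation
-/

set_option autoImplicit false

noncomputable section

namespace Pool.Agent.FBB

open scoped LinearAlgebra.Projectivization
open Pool.Agent.ZCyc

variable {d m N : ℕ}

private theorem descent_lin {T : Type} (f : (T →₀ ℚ) →ₗ[ℚ] ℚ) (w : T →₀ ℚ) :
    Finsupp.linearCombination ℂ (fun p : T => ((f (Finsupp.single p 1) : ℚ) : ℂ))
      (w.mapRange (fun c : ℚ => (c : ℂ)) (by simp)) = ((f w : ℚ) : ℂ) := by
  induction w using Finsupp.induction_linear with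
  | zero => simp
  | add a b ha hb =>
    rw [Finsupp.mapRange_add (by intro x y; push_cast; rfl), map_add, map_add, ha, hb]
    push_cast
    rfl
  | single p c =>
    rw [Finsupp.mapRange_single, Finsupp.linearCombination_single, smul_eq_mul]
    have : (Finsupp.single p c : T →₀ ℚ) = c • Finsupp.single p 1 := by simp
    rw [this, map_smul, smul_eq_mul]
    push_cast
    rfl

/-- rational coefficients -/
theorem ratEq_descent (z : Pts m N →₀ ℚ)
    (h : z.mapRange (fun c : ℚ => (c : ℂ)) (by simp) ∈ ratEq ℂ d m N) : z ∈ ratEq ℚ d m N := by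
  by_contra hz
  obtain ⟨f, hf, hle⟩ := Submodule.exists_le_ker_of_notMem hz
  have key : ratEq ℂ d m N ≤ LinearMap.ker
      (Finsupp.linearCombination ℂ (fun p : Pts m N => ((f (Finsupp.single p 1) : ℚ) : ℂ))) := by
    unfold ratEq
    rw [Submodule.span_le]
    rintro y ⟨F, i1, i2, i3, i4, i5, i6, P, a, b, A, B, p, q, h1, h2, h3, h4, h5, h6, h7, hy⟩
    have hw : (∑ τ, (Finsupp.single (p τ) 1 - Finsupp.single (q τ) 1) : Pts m N →₀ ℚ) ∈
        ratEq ℚ d m N := by
      unfold ratEq
      exact Submodule.subset_span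
        ⟨F, i1, i2, i3, i4, i5, i6, P, a, b, A, B, p, q, h1, h2, h3, h4, h5, h6, h7, rfl⟩
    have hk := hle hw
    rw [LinearMap.mem_ker] at hk
    have h8 := descent_lin f (∑ τ, (Finsupp.single (p τ) 1 - Finsupp.single (q τ) 1))
    rw [hk] at h8
    have h9 : (∑ τ, (Finsupp.single (p τ) 1 - Finsupp.single (q τ) 1) :
        Pts m N →₀ ℚ).mapRange (fun c : ℚ => (c : ℂ)) (by simp) = y := by
      rw [hy]
      have e : ∀ w : Pts m N →₀ ℚ, w.mapRange (fun c : ℚ => (c : ℂ)) (by simp) =
          Finsupp.mapRange.addMonoidHom (Rat.castHom ℂ).toAddMonoidHom w := by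
        intro w
        rfl
      rw [e, map_sum]
      refine Finset.sum_congr rfl fun τ _ => ?_
      rw [map_sub]
      simp
    rw [h9] at h8
    rw [SetLike.mem_coe, LinearMap.mem_ker, h8]
    simp
  have h1 := key h
  rw [LinearMap.mem_ker, descent_lin] at h1
  exact hf (by exact_mod_cast h1)

private theorem descent_psi [NeZero d] (k : ZMod d) : psi k = psi (1 : ZMod d) ^ k.val := by
  unfold psi
  rw [← AddChar.map_nsmul_eq_pow]
  congr 1
  simp

private theorem descent_prim [NeZero d] (t : (ZMod d)ˣ) :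
    IsPrimitiveRoot (psi (t : ZMod d)) d := by
  have h1 : IsPrimitiveRoot (psi (1 : ZMod d)) d := by
    have h := Complex.isPrimitiveRoot_exp d (NeZero.ne d)
    unfold psi
    have e := ZMod.stdAddChar_coe (N := d) 1
    rw [Int.cast_one] at e
    rw [e]
    convert h using 2
    push_cast
    ring
  rw [descent_psi]
  exact h1.pow_of_coprime _ (ZMod.val_coe_unit_coprime t)

/-- Galois conjugation -/
theorem psi_conj [NeZero d] {I : Type} (s : Finset I) (c : I → ℚ) (k : I → ZMod d)
    (t : (ZMod d)ˣ) (h : ∑ i ∈ s, (c i : ℂ) * psi (k i) = 0) :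
    ∑ i ∈ s, (c i : ℂ) * psi ((t : ZMod d) * k i) = 0 := by
  set P : Polynomial ℚ := ∑ i ∈ s, Polynomial.C (c i) * Polynomial.X ^ (k i).val with hP
  have hval : ∀ z : ℂ, Polynomial.aeval z P = ∑ i ∈ s, (c i : ℂ) * z ^ (k i).val := by
    intro z
    rw [hP, map_sum]
    refine Finset.sum_congr rfl fun i _ => ?_
    rw [map_mul, Polynomial.aeval_C, map_pow, Polynomial.aeval_X]
    rfl
  have h1 : Polynomial.aeval (psi (1 : ZMod d)) P = 0 := by
    rw [hval, ← h]
    refine Finset.sum_congr rfl fun i _ => ?_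
    rw [← descent_psi]
  have hd : 0 < d := Nat.pos_of_ne_zero (NeZero.ne d)
  have p1 : IsPrimitiveRoot (psi (1 : ZMod d)) d := by
    have := descent_prim (1 : (ZMod d)ˣ)
    simpa using this
  have pt := descent_prim t
  have hdvd : minpoly ℚ (psi (t : ZMod d)) ∣ P := by
    rw [← Polynomial.cyclotomic_eq_minpoly_rat pt hd, Polynomial.cyclotomic_eq_minpoly_rat p1 hd]
    exact minpoly.dvd ℚ _ h1
  have h2 : Polynomial.aeval (psi (t : ZMod d)) P = 0 := by
    obtain ⟨Q, hQ⟩ := hdvd
    rw [hQ, map_mul, minpoly.aeval, zero_mul]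
  rw [hval] at h2
  rw [← h2]
  refine Finset.sum_congr rfl fun i _ => ?_
  congr 1
  unfold psi
  rw [← AddChar.map_nsmul_eq_pow]
  congr 1
  rw [nsmul_eq_mul, ZMod.natCast_zmod_val, mul_comm]

end Pool.Agent.FBB
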