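import Pool.Agent.FBB.Defs4
import Pool.Agent.ZCyc.Basic

/-!
# Support and degree of the zero-cycles which are rationally equivalent to zero
-/

set_option autoImplicit false

noncomputable section

namespace Pool.Agent.FBB

open scoped LinearAlgebra.Projectivization

variable {d m m' N : ℕ}

private theorem ne_top {F : Type} [Field F] [Algebra ℂ F] [Algebra (RatFunc ℂ) F]
    {A : ValuationSubring F} {a : ℂ}
    (h : algebraMap (RatFunc ℂ) F (RatFunc.X - RatFunc.C a) ∈ A.nonunits) : A ≠ ⊤ := by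
  rintro rfl
  rw [ValuationSubring.mem_nonunits_iff_or] at h
  rcases h with h | h
  · rw [map_eq_zero] at h
    have h2 : (RatFunc.X - RatFunc.C a : RatFunc ℂ) =
        algebraMap (Polynomial ℂ) (RatFunc ℂ) (Polynomial.X - Polynomial.C a) := by
      rw [map_sub, RatFunc.algebraMap_X, RatFunc.algebraMap_C]
    rw [h2] at h
    exact RatFunc.algebraMap_ne_zero (Polynomial.X_sub_C_ne_zero a) h
  · exact h (ValuationSubring.mem_top _)

private theorem onX_of_red {F : Type} [Field F] [Algebra ℂ F] [Algebra (RatFunc ℂ) F]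
    {A : ValuationSubring F} {a : ℂ} {P : Fin m → Fin N → F} (hP : ∀ i, ∑ j, P i j ^ d = 0)
    (hA : ∀ c : ℂ, algebraMap ℂ F c ∈ A)
    (h : algebraMap (RatFunc ℂ) F (RatFunc.X - RatFunc.C a) ∈ A.nonunits)
    {p : Pts m N} (τ : F ≃ₐ[RatFunc ℂ] F) (hr : ∀ i, Red A (fun j => τ (P i j)) (p i)) :
    OnX d p := by
  intro i
  obtain ⟨s, hs⟩ := hr i
  set v : ZCyc.Place ℂ F := ⟨A, hA, ne_top h⟩ with hv
  have h1 : ∀ j, v.At (s * τ (P i j)) ((p i).rep j) := fun j => hs j
  have h2 : v.At (∑ j, (s * τ (P i j)) ^ d) (∑ j, (p i).rep j ^ d) :=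
    ZCyc.Place.At.sum fun j _ => (h1 j).pow d
  have h3 : ∑ j, (s * τ (P i j)) ^ d = 0 := by
    have h4 : ∀ j, (s * τ (P i j)) ^ d = s ^ d * τ (P i j ^ d) := by
      intro j
      rw [mul_pow, map_pow]
    rw [Finset.sum_congr rfl fun j _ => h4 j, ← Finset.mul_sum, ← map_sum, hP i, map_zero,
      mul_zero]
  rw [h3] at h2
  have h5 := ZCyc.Place.at_const (v := v) (0 : ℂ)
  rw [map_zero] at h5
  exact h2.unique h5

theorem ratEq_supp (z : Pts m N →₀ ℚ) (hz : z ∈ ratEq ℚ d m N) : ∀ p ∈ z.support, OnX d p := by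
  classical
  intro x hx
  by_contra hcon
  rw [Finsupp.mem_support_iff] at hx
  apply hx
  clear hx
  have key : ratEq ℚ d m N ≤ LinearMap.ker (Finsupp.lapply (R := ℚ) (M := ℚ) x) := by
    refine Submodule.span_le.2 ?_
    rintro _ ⟨F, _, _, _, _, _, _, P, a, b, A, B, p, q, hP, hA, ha, hB, hb, hp, hq, rfl⟩
    rw [SetLike.mem_coe, LinearMap.mem_ker, map_sum]
    refine Finset.sum_eq_zero fun τ _ => ?_
    rw [map_sub, Finsupp.lapply_apply, Finsupp.lapply_apply, Finsupp.single_apply,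
      Finsupp.single_apply, if_neg, if_neg, sub_zero]
    · rintro rfl
      exact hcon (onX_of_red (fun i => (hP i).2) hB hb τ (hq τ))
    · rintro rfl
      exact hcon (onX_of_red (fun i => (hP i).2) hA ha τ (hp τ))
  exact key hz

theorem ratEq_deg (z : Pts m N →₀ ℚ) (hz : z ∈ ratEq ℚ d m N) : (z.sum fun _ c => c) = 0 := by
  have key : ratEq ℚ d m N ≤
      LinearMap.ker (Finsupp.linearCombination ℚ (fun _ : Pts m N => (1 : ℚ))) := by
    refine Submodule.span_le.2 ?_
    rintro _ ⟨F, _, _, _, _, _, _, P, a, b, A, B, p, q, hP, hA, ha, hB, hb, hp, hq, rfl⟩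
    rw [SetLike.mem_coe, LinearMap.mem_ker, map_sum]
    refine Finset.sum_eq_zero fun τ _ => ?_
    rw [map_sub, Finsupp.linearCombination_single, Finsupp.linearCombination_single, sub_self]
  have h := key hz
  rw [LinearMap.mem_ker, Finsupp.linearCombination_apply] at h
  simpa using h

end Pool.Agent.FBB
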