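import Pool.Agent.FBB.Defs4
import Pool.Agent.FBB.Supp

/-!
# The filtration: first properties
-/

set_option autoImplicit false

noncomputable section

namespace Pool.Agent.FBB

open scoped LinearAlgebra.Projectivization

variable {d m m' N : ℕ}

theorem ratEq_le_Fil (n ν : ℕ) : ratEq ℚ d m N ≤ Fil n d m N ν := le_sup_right

theorem Fil_anti (n ν : ℕ) : Fil n d m N (ν + 1) ≤ Fil n d m N ν := by
  apply sup_le_sup_right
  apply Submodule.span_mono
  rintro z ⟨I, x, y, hx, hy, hI, rfl⟩
  exact ⟨I, x, y, hx, hy, by omega, rfl⟩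

private theorem cyc_mem (n ν : ℕ) {I : Finset (Fin m)} {x y : Pts m N} (hx : OnX d x)
    (hy : OnX d y) (h : ν ≤ n * I.card) : cyc I x y ∈ Fil n d m N ν :=
  Submodule.mem_sup_left (Submodule.subset_span ⟨I, x, y, hx, hy, h, rfl⟩)

private theorem cyc_empty (x y : Pts m N) : cyc ∅ x y = Finsupp.single x 1 := by
  unfold cyc
  simp

private theorem cyc_supp {I : Finset (Fin m)} {x y : Pts m N} (hx : OnX d x) (hy : OnX d y) :
    cyc I x y ∈ Finsupp.supported ℚ ℚ {p : Pts m N | OnX d p} := by
  unfold cyc
  apply Submodule.sum_mem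
  intro S _
  apply Finsupp.single_mem_supported
  intro i
  change ∑ j, (if i ∈ S then y i else x i).rep j ^ d = 0
  split_ifs
  · exact hy i
  · exact hx i

private theorem Fil_supp (n ν : ℕ) :
    Fil n d m N ν ≤ Finsupp.supported ℚ ℚ {p : Pts m N | OnX d p} := by
  apply sup_le
  · rw [Submodule.span_le]
    rintro z ⟨I, x, y, hx, hy, -, rfl⟩
    exact cyc_supp hx hy
  · intro z hz
    rw [Finsupp.mem_supported]
    intro p hp
    exact ratEq_supp z hz p hp

theorem Fil_zero (n : ℕ) (z : Pts m N →₀ ℚ) :
    z ∈ Fil n d m N 0 ↔ ∀ p ∈ z.support, OnX d p := by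
  constructor
  · intro hz p hp
    have h1 := (Finsupp.mem_supported ℚ z).1 (Fil_supp n 0 hz)
    exact h1 hp
  · intro h
    rw [← Finsupp.sum_single z]
    apply Submodule.sum_mem
    intro p hp
    have h1 : (Finsupp.single p (z p) : Pts m N →₀ ℚ) = z p • cyc ∅ p p := by
      rw [cyc_empty, Finsupp.smul_single, smul_eq_mul, mul_one]
    rw [h1]
    exact Submodule.smul_mem _ _ (cyc_mem n 0 (h p hp) (h p hp) (Nat.zero_le _))

/-- the degree of a zero-cycle -/
private def degL : (Pts m N →₀ ℚ) →ₗ[ℚ] ℚ := Finsupp.linearCombination ℚ fun _ => (1 : ℚ)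

private theorem degL_eq (z : Pts m N →₀ ℚ) : degL z = z.sum fun _ c => c := by
  unfold degL
  rw [Finsupp.linearCombination_apply]
  simp

private theorem degL_cyc {I : Finset (Fin m)} (hI : I.Nonempty) (x y : Pts m N) :
    degL (cyc I x y) = 0 := by
  unfold cyc
  rw [map_sum]
  have h1 : ∀ S ∈ I.powerset, degL (Finsupp.single (fun i => if i ∈ S then y i else x i)
      ((-1 : ℚ) ^ S.card)) = (((-1 : ℤ) ^ S.card : ℤ) : ℚ) := by
    intro S _
    unfold degL
    rw [Finsupp.linearCombination_single]
    simp
  rw [Finset.sum_congr rfl h1, ← Int.cast_sum, Finset.sum_powerset_neg_one_pow_card_of_nonempty hI]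
  simp

/-- a point can be changed to another one -/
private theorem single_sub_mem (n : ℕ) (hn : 1 ≤ n) {x y : Pts m N} (hx : OnX d x)
    (hy : OnX d y) :
    (Finsupp.single x 1 - Finsupp.single y 1 : Pts m N →₀ ℚ) ∈ Fil n d m N 1 := by
  have h1 : ∀ k ≤ m, (Finsupp.single x 1 -
      Finsupp.single (fun i : Fin m => if (i : ℕ) < k then y i else x i) 1 : Pts m N →₀ ℚ) ∈
        Fil n d m N 1 := by
    intro k
    induction k with
    | zero =>
      intro _
      simp
    | succ k ih =>
      intro hk
      have h2 := ih (by omega)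
      set w : Pts m N := fun i : Fin m => if (i : ℕ) < k then y i else x i with hw
      have hwX : OnX d w := by
        intro i
        change ∑ j, (if (i : ℕ) < k then y i else x i).rep j ^ d = 0
        split_ifs
        · exact hy i
        · exact hx i
      have h3 : cyc {(⟨k, by omega⟩ : Fin m)} w y = (Finsupp.single w 1 -
          Finsupp.single (fun i : Fin m => if (i : ℕ) < k + 1 then y i else x i) 1 :
            Pts m N →₀ ℚ) := by
        unfold cyc
        have h4 : (({(⟨k, by omega⟩ : Fin m)} : Finset (Fin m)).powerset) =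
            {∅, {(⟨k, by omega⟩ : Fin m)}} := by
          ext S
          rw [Finset.mem_powerset, Finset.subset_singleton_iff, Finset.mem_insert,
            Finset.mem_singleton]
        rw [h4, Finset.sum_pair (Finset.singleton_ne_empty _).symm]
        simp only [Finset.notMem_empty, if_false, Finset.card_empty, pow_zero,
          Finset.card_singleton, pow_one, Finset.mem_singleton]
        have h5 : (fun i : Fin m => if i = (⟨k, by omega⟩ : Fin m) then y i else w i) =
            fun i : Fin m => if (i : ℕ) < k + 1 then y i else x i := by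
          funext i
          rw [hw]
          by_cases hi : i = (⟨k, by omega⟩ : Fin m)
          · subst hi
            simp
          · have hi' : (i : ℕ) ≠ k := fun h => hi (Fin.ext h)
            simp only [if_neg hi]
            by_cases h6 : (i : ℕ) < k
            · rw [if_pos h6, if_pos (by omega)]
            · rw [if_neg h6, if_neg (by omega)]
        rw [h5, Finsupp.single_neg, ← sub_eq_add_neg]
      have h6 : cyc {(⟨k, by omega⟩ : Fin m)} w y ∈ Fil n d m N 1 :=
        cyc_mem n 1 hwX hy (by rw [Finset.card_singleton]; omega)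
      rw [h3] at h6
      have h7 := Submodule.add_mem _ h2 h6
      rwa [sub_add_sub_cancel] at h7
  have h8 := h1 m le_rfl
  have h9 : (fun i : Fin m => if (i : ℕ) < m then y i else x i) = y := by
    funext i
    rw [if_pos i.isLt]
  rwa [h9] at h8

theorem Fil_one (n : ℕ) (hn : 1 ≤ n) (z : Pts m N →₀ ℚ) :
    z ∈ Fil n d m N 1 ↔ (∀ p ∈ z.support, OnX d p) ∧ (z.sum fun _ c => c) = 0 := by
  constructor
  · intro hz
    refine ⟨fun p hp => (Finsupp.mem_supported ℚ z).1 (Fil_supp n 1 hz) hp, ?_⟩
    rw [← degL_eq]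
    have h1 : Fil n d m N 1 ≤ LinearMap.ker (degL (m := m) (N := N)) := by
      apply sup_le
      · rw [Submodule.span_le]
        rintro w ⟨I, x, y, hx, hy, hI, rfl⟩
        rw [SetLike.mem_coe, LinearMap.mem_ker]
        apply degL_cyc
        rw [Finset.nonempty_iff_ne_empty]
        rintro rfl
        simp at hI
      · intro w hw
        rw [LinearMap.mem_ker, degL_eq]
        exact ratEq_deg w hw
    exact LinearMap.mem_ker.1 (h1 hz)
  · rintro ⟨hs, hdeg⟩
    by_cases h0 : z.support = ∅
    · rw [Finsupp.support_eq_empty] at h0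
      rw [h0]
      exact Submodule.zero_mem _
    · obtain ⟨p₀, hp₀⟩ := Finset.nonempty_iff_ne_empty.2 h0
      have h1 : z = ∑ p ∈ z.support, z p • (Finsupp.single p 1 - Finsupp.single p₀ 1 :
          Pts m N →₀ ℚ) := by
        have h2 : ∀ p ∈ z.support, z p • (Finsupp.single p 1 - Finsupp.single p₀ 1 :
            Pts m N →₀ ℚ) = Finsupp.single p (z p) - z p • Finsupp.single p₀ 1 := by
          intro p _
          rw [smul_sub, Finsupp.smul_single, smul_eq_mul, mul_one]
        rw [Finset.sum_congr rfl h2, Finset.sum_sub_distrib, ← Finset.sum_smul]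
        have h3 : ∑ p ∈ z.support, z p = 0 := hdeg
        rw [h3, zero_smul, sub_zero]
        exact (Finsupp.sum_single z).symm
      rw [h1]
      apply Submodule.sum_mem
      intro p hp
      exact Submodule.smul_mem _ _ (single_sub_mem n hn (hs p hp) (hs p₀ hp₀))

theorem Fil_two (n : ℕ) (hn : 2 ≤ n) : Fil n d m N 2 = Fil n d m N 1 := by
  apply le_antisymm (Fil_anti n 1)
  apply sup_le_sup_right
  apply Submodule.span_mono
  rintro z ⟨I, x, y, hx, hy, hI, rfl⟩
  refine ⟨I, x, y, hx, hy, ?_, rfl⟩
  have h1 : 1 ≤ I.card := by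
    rcases Nat.eq_zero_or_pos I.card with h | h
    · rw [h] at hI
      omega
    · exact h
  calc 2 ≤ n * 1 := by omega
    _ ≤ n * I.card := Nat.mul_le_mul_left n h1

theorem Fil_top (n : ℕ) (hn : 1 ≤ n) : Fil n d m N (n * m + 1) = ratEq ℚ d m N := by
  apply le_antisymm _ (ratEq_le_Fil n _)
  apply sup_le _ le_rfl
  rw [Submodule.span_le]
  rintro z ⟨I, x, y, hx, hy, hI, rfl⟩
  exfalso
  have h1 : I.card ≤ m := by
    have := Finset.card_le_univ I
    simpa using this
  have h2 := Nat.mul_le_mul_left n h1
  omega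

end Pool.Agent.FBB
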