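import Pool.Agent.FBB.Defs2

/-!
# Patterns of minimal zero-sum sequences
-/

set_option autoImplicit false

namespace Pool.Agent.FBB

variable {d m N : ℕ}

private lemma pattern_subset {ι : Type} [DecidableEq ι] (f : ι → ℕ) :
    ∀ (n : ℕ) (s : Finset ι), s.card = n → (∀ j ∈ s, 0 < f j) → ∑ j ∈ s, f j < 2 * s.card →
      ∀ x ≤ ∑ j ∈ s, f j, ∃ A ⊆ s, ∑ j ∈ A, f j = x := by
  intro n
  induction n with
  | zero =>
    intro s hs _ h x _
    rw [hs] at h
    omega
  | succ n ih =>
    intro s hs hf h x hx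
    by_cases hex : ∃ j ∈ s, 2 ≤ f j
    · obtain ⟨j, hj, hj2⟩ := hex
      have hsum : f j + ∑ i ∈ s.erase j, f i = ∑ i ∈ s, f i := Finset.add_sum_erase s f hj
      have hcard : (s.erase j).card = n := by rw [Finset.card_erase_of_mem hj, hs]; rfl
      have hle : (s.erase j).card ≤ ∑ i ∈ s.erase j, f i := by
        rw [Finset.card_eq_sum_ones]
        exact Finset.sum_le_sum fun i hi => hf i (Finset.mem_of_mem_erase hi)
      have hih := ih (s.erase j) hcard (fun i hi => hf i (Finset.mem_of_mem_erase hi))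
        (by omega)
      by_cases hx' : x ≤ ∑ i ∈ s.erase j, f i
      · obtain ⟨A, hA, hAx⟩ := hih x hx'
        exact ⟨A, hA.trans (Finset.erase_subset _ _), hAx⟩
      · obtain ⟨A, hA, hAx⟩ := hih (x - f j) (by omega)
        have hjA : j ∉ A := fun h => (Finset.mem_erase.mp (hA h)).1 rfl
        refine ⟨insert j A, ?_, ?_⟩
        · intro i hi
          rcases Finset.mem_insert.mp hi with rfl | hi
          · exact hj
          · exact Finset.mem_of_mem_erase (hA hi)
        · rw [Finset.sum_insert hjA, hAx]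
          omega
    · push Not at hex
      have h1 : ∀ j ∈ s, f j = 1 := fun j hj => by
        have := hex j hj
        have := hf j hj
        omega
      have hsum : ∑ j ∈ s, f j = s.card := by
        rw [Finset.sum_congr rfl h1, Finset.card_eq_sum_ones]
      rw [hsum] at hx
      obtain ⟨A, hA, hAc⟩ := Finset.exists_subset_card_eq hx
      refine ⟨A, hA, ?_⟩
      rw [Finset.sum_congr rfl fun j hj => h1 j (hA hj), ← Finset.card_eq_sum_ones, hAc]

private lemma pattern_part (hN : d + 3 ≤ 2 * N) (b : Fin N → ℕ) (hb : ∀ j, 0 < b j)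
    (hs : ∑ j, b j = d) (x : ℕ) (hx0 : 0 < x) (hx : x + 2 ≤ d) :
    ∃ β : Fin N → Fin 3, Function.Surjective β ∧ (∑ j with β j = 0, b j = 1) ∧
      (∑ j with β j = 1, b j = x) ∧ (∑ j with β j = 2, b j = d - 1 - x) := by
  -- a term equal to one
  obtain ⟨j₀, hj₀⟩ : ∃ j, b j = 1 := by
    by_contra hcon
    push Not at hcon
    have h1 : ∑ _j : Fin N, 2 ≤ ∑ j, b j := Finset.sum_le_sum fun j _ => by
      have := hb j
      have := hcon j
      omega
    rw [Finset.sum_const, Finset.card_univ, Fintype.card_fin, smul_eq_mul, hs] at h1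
    omega
  have herase : b j₀ + ∑ j ∈ Finset.univ.erase j₀, b j = ∑ j, b j :=
    Finset.add_sum_erase Finset.univ b (Finset.mem_univ j₀)
  have hcard : (Finset.univ.erase j₀ : Finset (Fin N)).card = N - 1 := by
    rw [Finset.card_erase_of_mem (Finset.mem_univ _), Finset.card_univ, Fintype.card_fin]
  obtain ⟨A, hA, hAx⟩ := pattern_subset b (N - 1) (Finset.univ.erase j₀) hcard
    (fun j _ => hb j) (by rw [hcard]; omega) x (by omega)
  have hj₀A : j₀ ∉ A := fun h => (Finset.mem_erase.mp (hA h)).1 rfl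
  let β : Fin N → Fin 3 := fun j => if j = j₀ then 0 else if j ∈ A then 1 else 2
  have f0 : (Finset.univ.filter fun j => β j = 0) = {j₀} := by
    ext j
    simp only [β, Finset.mem_filter, Finset.mem_univ, true_and, Finset.mem_singleton]
    split_ifs with h1 h2 <;> simp [h1]
  have f1 : (Finset.univ.filter fun j => β j = 1) = A := by
    ext j
    simp only [β, Finset.mem_filter, Finset.mem_univ, true_and]
    split_ifs with h1 h2
    · simp [h1, hj₀A]
    · simp [h2]
    · simp [h2]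
  have s0 : ∑ j with β j = 0, b j = 1 := by rw [f0, Finset.sum_singleton, hj₀]
  have s1 : ∑ j with β j = 1, b j = x := by rw [f1, hAx]
  have htot : ∑ s : Fin 3, ∑ j with β j = s, b j = ∑ j, b j := by
    rw [Finset.sum_fiberwise]
  have s2 : ∑ j with β j = 2, b j = d - 1 - x := by
    rw [Fin.sum_univ_three, s0, s1, hs] at htot
    omega
  refine ⟨β, ?_, s0, s1, s2⟩
  have hpos : ∀ s : Fin 3, 0 < ∑ j with β j = s, b j := by
    intro s
    fin_cases s
    · show 0 < ∑ j with β j = 0, b j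
      rw [s0]; exact one_pos
    · show 0 < ∑ j with β j = 1, b j
      rw [s1]; exact hx0
    · show 0 < ∑ j with β j = 2, b j
      rw [s2]; omega
  intro s
  by_contra hcon
  push Not at hcon
  have := hpos s
  rw [Finset.filter_false_of_mem fun j _ => hcon j, Finset.sum_empty] at this
  exact lt_irrefl _ this

theorem pattern [NeZero d] (hN : d + 3 ≤ 2 * N) (t t' : (ZMod d)ˣ) (htt : t ≠ t')
    (b b' : Fin N → ℕ) (hb : ∀ j, 0 < b j) (hb' : ∀ j, 0 < b' j) (hs : ∑ j, b j = d)
    (hs' : ∑ j, b' j = d) :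
    ∃ β β' : Fin N → Fin 3, Function.Surjective β ∧ Function.Surjective β' ∧
      (∀ s, ∑ j with β j = s, (t : ZMod d) * (b j : ZMod d) =
        -∑ j with β' j = s, (t' : ZMod d) * (b' j : ZMod d)) ∧
      ∑ j with β j = 0, (t : ZMod d) * (b j : ZMod d) ≠ 0 := by
  have hd0 : 0 < d := Nat.pos_of_ne_zero (NeZero.ne d)
  have hd1 : d ≠ 1 := by
    rintro rfl
    exact htt (Subsingleton.elim _ _)
  have : Fact (1 < d) := ⟨by omega⟩
  have : Nontrivial (ZMod d) := inferInstance
  -- bounds for the representative of a unit different from `-1`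
  have key : ∀ u : (ZMod d)ˣ, u ≠ -1 → 0 < (u : ZMod d).val ∧ (u : ZMod d).val + 2 ≤ d := by
    intro u hu
    have h1 : (u : ZMod d).val < d := ZMod.val_lt _
    have h2 : (u : ZMod d).val ≠ 0 := fun h => u.ne_zero ((ZMod.val_eq_zero _).mp h)
    have h3 : (u : ZMod d).val ≠ d - 1 := by
      intro h
      apply hu
      apply Units.ext
      have h4 : (((u : ZMod d).val : ℕ) : ZMod d) = ((d - 1 : ℕ) : ZMod d) := by rw [h]
      rw [ZMod.natCast_zmod_val, Nat.cast_sub (by omega), ZMod.natCast_self, Nat.cast_one,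
        zero_sub] at h4
      rw [h4]
      rfl
    omega
  set u : (ZMod d)ˣ := -(t * t'⁻¹) with hu
  have hu1 : u ≠ -1 := by
    intro h
    rw [hu, neg_inj, mul_inv_eq_one] at h
    exact htt h
  have hu2 : u⁻¹ ≠ -1 := by
    intro h
    apply hu1
    rw [← inv_inv u, h]
    simp
  obtain ⟨hw0, hw⟩ := key u hu1
  obtain ⟨hq0, hq⟩ := key u⁻¹ hu2
  obtain ⟨β, hβs, hβ0, hβ1, hβ2⟩ := pattern_part hN b hb hs _ hq0 hq
  obtain ⟨γ, hγs, hγ0, hγ1, hγ2⟩ := pattern_part hN b' hb' hs' _ hw0 hw
  have hfil : ∀ s : Fin 3, (Finset.univ.filter fun j => Equiv.swap (0 : Fin 3) 1 (γ j) = s) =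
      Finset.univ.filter fun j => γ j = Equiv.swap (0 : Fin 3) 1 s := by
    intro s
    ext j
    simp only [Finset.mem_filter, Finset.mem_univ, true_and]
    rw [← Equiv.eq_symm_apply, Equiv.symm_swap]
  have hT : ∀ (t : (ZMod d)ˣ) (b : Fin N → ℕ) (F : Finset (Fin N)) (c : ℕ), ∑ j ∈ F, b j = c →
      ∑ j ∈ F, (t : ZMod d) * (b j : ZMod d) = (t : ZMod d) * (c : ZMod d) := by
    intro t b F c h
    rw [← h, Nat.cast_sum, Finset.mul_sum]
  have hsub : ∀ x : ℕ, x + 2 ≤ d → ((d - 1 - x : ℕ) : ZMod d) = -1 - (x : ZMod d) := by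
    intro x hx
    rw [Nat.cast_sub (by omega), Nat.cast_sub (by omega), ZMod.natCast_self, Nat.cast_one]
    ring
  have e1 : (u : ZMod d) * (t' : ZMod d) = -(t : ZMod d) := by
    have : u * t' = -t := by rw [hu]; simp
    have h2 := congrArg (fun z : (ZMod d)ˣ => (z : ZMod d)) this
    simpa using h2
  have e2 : ((u⁻¹ : (ZMod d)ˣ) : ZMod d) * (t : ZMod d) = -(t' : ZMod d) := by
    have : u⁻¹ * t = -t' := by
      rw [hu, neg_mul_eq_mul_neg t, mul_inv]
      rw [mul_comm t⁻¹, mul_assoc, inv_mul_cancel, mul_one]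
      simp
    have h2 := congrArg (fun z : (ZMod d)ˣ => (z : ZMod d)) this
    simpa using h2
  refine ⟨β, fun j => Equiv.swap (0 : Fin 3) 1 (γ j), hβs, ?_, ?_, ?_⟩
  · exact (Equiv.surjective _).comp hγs
  · intro s
    rw [hfil s]
    fin_cases s
    · show ∑ j with β j = 0, _ = -∑ j with γ j = Equiv.swap (0 : Fin 3) 1 0, _
      rw [Equiv.swap_apply_left, hT t b _ _ hβ0, hT t' b' _ _ hγ1, ZMod.natCast_zmod_val,
        Nat.cast_one]
      linear_combination e1
    · show ∑ j with β j = 1, _ = -∑ j with γ j = Equiv.swap (0 : Fin 3) 1 1, _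
      rw [Equiv.swap_apply_right, hT t b _ _ hβ1, hT t' b' _ _ hγ0, ZMod.natCast_zmod_val,
        Nat.cast_one]
      linear_combination e2
    · show ∑ j with β j = 2, _ = -∑ j with γ j = Equiv.swap (0 : Fin 3) 1 2, _
      rw [Equiv.swap_apply_of_ne_of_ne (by decide) (by decide), hT t b _ _ hβ2,
        hT t' b' _ _ hγ2, hsub _ hq, hsub _ hw, ZMod.natCast_zmod_val, ZMod.natCast_zmod_val]
      linear_combination -e2 - e1
  · rw [hT t b _ _ hβ0, Nat.cast_one, mul_one]
    exact t.ne_zero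

end Pool.Agent.FBB
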