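import Pool.Agent.FBB.Defs2
import Pool.Agent.SavChen.Final

/-!
# The theorem of Savchev and Chen for minimal zero-sum sequences
-/

set_option autoImplicit false

noncomputable section

namespace Pool.Agent.FBB

open Finset

theorem savchev_chen {d N : ℕ} [NeZero d] (hN : d + 3 ≤ 2 * N) (a : Fin N → ZMod d)
    (ha : MinZero a) :
    ∃ (t : (ZMod d)ˣ) (b : Fin N → ℕ), (∀ j, 0 < b j) ∧ ∑ j, b j = d ∧
      ∀ j, a j = (t : ZMod d) * (b j : ZMod d) := by
  classical
  have hd : 0 < d := Nat.pos_of_ne_zero (NeZero.ne d)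
  have hNpos : 0 < N := by omega
  obtain ⟨h0, hmin⟩ := ha
  set j₀ : Fin N := ⟨0, hNpos⟩
  have hz : SavChen.ZeroFree a (univ.erase j₀) := by
    intro T hT hne h
    refine hmin T hne ?_ h
    rintro rfl
    exact notMem_erase j₀ univ (hT (mem_univ _))
  have hcard : (univ.erase j₀ : Finset (Fin N)).card = N - 1 := by
    rw [card_erase_of_mem (mem_univ _), card_univ, Fintype.card_fin]
  obtain ⟨u, hu⟩ := SavChen.savchev_chen a (univ.erase j₀) hz (by omega)
  -- all the values are positive
  have hne : ∀ j, a j ≠ 0 := by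
    intro j hj
    apply hmin {j} (singleton_nonempty j) _ (by rw [sum_singleton, hj])
    intro h
    have h1 := congrArg card h
    rw [card_singleton, card_univ, Fintype.card_fin] at h1
    omega
  have hune : ∀ j, (u : ZMod d) * a j ≠ 0 := fun j hj => hne j (by
    have := congrArg (fun z => ((u⁻¹ : (ZMod d)ˣ) : ZMod d) * z) hj
    simpa using this)
  refine ⟨u⁻¹, fun j => ((u : ZMod d) * a j).val, ?_, ?_, ?_⟩
  · intro j
    exact Nat.pos_of_ne_zero fun h => hune j ((ZMod.val_eq_zero _).1 h)
  · have h1 := add_sum_erase univ (fun j => ((u : ZMod d) * a j).val) (mem_univ j₀)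
    have h2 : ((∑ j, ((u : ZMod d) * a j).val : ℕ) : ZMod d) = 0 := by
      rw [Nat.cast_sum, sum_congr rfl fun j _ => ZMod.natCast_zmod_val _, ← mul_sum, h0, mul_zero]
    rw [ZMod.natCast_eq_zero_iff] at h2
    obtain ⟨c, hc⟩ := h2
    have h3 : ((u : ZMod d) * a j₀).val < d := ZMod.val_lt _
    have h4 : 0 < ((u : ZMod d) * a j₀).val :=
      Nat.pos_of_ne_zero fun h => hune j₀ ((ZMod.val_eq_zero _).1 h)
    have h5 : ∑ j, ((u : ZMod d) * a j).val < 2 * d := by
      rw [← h1]
      omega
    have h6 : 0 < ∑ j, ((u : ZMod d) * a j).val := by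
      rw [← h1]
      omega
    rw [hc] at h5 h6 ⊢
    have h7 : c < 2 := by
      by_contra hcon
      push Not at hcon
      have := Nat.mul_le_mul_left d hcon
      omega
    interval_cases c
    · omega
    · omega
  · intro j
    rw [ZMod.natCast_zmod_val, ← mul_assoc, Units.inv_mul, one_mul]

end Pool.Agent.FBB
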