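import Pool.Agent.FBB.Ops
import Pool.Agent.FBB.Chain

/-!
# Permutations of the coordinates act by the sign
-/

set_option autoImplicit false

noncomputable section

namespace Pool.Agent.FBB

open scoped LinearAlgebra.Projectivization
open Pool.Agent.ZCyc

variable {d m N : ℕ}

private def pull (σ : Equiv.Perm (Fin m × Fin N)) (x : Fin m → Fin N → ℂ) : Fin m → Fin N → ℂ :=
  fun i j => x (σ (i, j)).1 (σ (i, j)).2

private lemma pull_pull (σ τ : Equiv.Perm (Fin m × Fin N)) (x : Fin m → Fin N → ℂ) :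
    pull σ (pull τ x) = pull (τ * σ) x := rfl

private def Blk (σ : Equiv.Perm (Fin m × Fin N)) : Prop :=
  ∀ i i' j j', (σ (i, j)).1 = (σ (i', j')).1 ↔ i = i'

private def Inv (a : Fin m → Fin N → ZMod d) (σ : Equiv.Perm (Fin m × Fin N)) : Prop :=
  ∀ i j, a (σ (i, j)).1 (σ (i, j)).2 = a i j

private lemma Blk.mul {σ τ : Equiv.Perm (Fin m × Fin N)} (hτ : Blk τ) (hσ : Blk σ) :
    Blk (τ * σ) := by
  intro i i' j j'
  have h := hτ (σ (i, j)).1 (σ (i', j')).1 (σ (i, j)).2 (σ (i', j')).2
  exact h.trans (hσ i i' j j')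

private lemma Inv.mul {a : Fin m → Fin N → ZMod d} {σ τ : Equiv.Perm (Fin m × Fin N)}
    (hτ : Inv a τ) (hσ : Inv a σ) : Inv a (τ * σ) := by
  intro i j
  have h := hτ (σ (i, j)).1 (σ (i, j)).2
  exact h.trans (hσ i j)

private lemma Blk.exists_perm {σ : Equiv.Perm (Fin m × Fin N)} (hσ : Blk σ) (i : Fin m)
    (j₀ : Fin N) : ∃ e : Equiv.Perm (Fin N), ∀ l, σ (i, l) = ((σ (i, j₀)).1, e l) := by
  have hinj : Function.Injective (fun l : Fin N => (σ (i, l)).2) := by
    intro l l' h
    have h1 : (σ (i, l)).1 = (σ (i, l')).1 := (hσ i i l l').2 rfl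
    have h2 : σ (i, l) = σ (i, l') := Prod.ext h1 h
    have h3 := σ.injective h2
    simpa using h3
  refine ⟨Equiv.ofBijective _ (Finite.injective_iff_bijective.mp hinj), fun l => ?_⟩
  exact Prod.ext ((hσ i i l j₀).2 rfl) rfl

private lemma good_pull {σ : Equiv.Perm (Fin m × Fin N)} (hσ : Blk σ) (hN : 2 ≤ N)
    {x : Fin m → Fin N → ℂ} (hx : Good d x) : Good d (pull σ x) := by
  intro i
  obtain ⟨e, he⟩ := hσ.exists_perm i ⟨0, by omega⟩
  set i' := (σ (i, ⟨0, by omega⟩)).1 with hi'
  have h1 : pull σ x i = fun l => x i' (e l) := by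
    funext l
    show x (σ (i, l)).1 (σ (i, l)).2 = _
    rw [he l]
  rw [h1]
  refine ⟨fun h => (hx i').1 ?_, ?_⟩
  · funext l
    have := congrFun h (e.symm l)
    simpa using this
  · exact (Equiv.sum_comp e (fun l => x i' l ^ d)).trans (hx i').2

private lemma minZero_ne (hN : 2 ≤ N) {a : Fin N → ZMod d} (ha : MinZero a) (j : Fin N) :
    a j ≠ 0 := by
  have h := ha.2 {j} (Finset.singleton_nonempty j) (by
    intro h
    have := congrArg Finset.card h
    rw [Finset.card_singleton, Finset.card_univ, Fintype.card_fin] at this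
    omega)
  rwa [Finset.sum_singleton] at h

private lemma sign_aux [NeZero d] (hN : 2 ≤ N) (a : Fin m → Fin N → ZMod d)
    (ha : ∀ i, MinZero (a i)) (n : ℕ) : ∀ σ : Equiv.Perm (Fin m × Fin N), σ.support.card = n →
      Blk σ → Inv a σ → ∀ x, Good d x →
      E a (pull σ x) = (((Equiv.Perm.sign σ : ℤˣ) : ℤ) : ℂ) • E a x := by
  induction n using Nat.strong_induction_on with
  | _ n ih =>
  intro σ hn hσ haσ x hx
  by_cases h1 : σ = 1
  · subst h1
    rw [Equiv.Perm.sign_one]
    simp only [Units.val_one, Int.cast_one, one_smul]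
    rfl
  -- it is enough to find an involution which makes the support smaller
  suffices hτ : ∃ τ : Equiv.Perm (Fin m × Fin N), τ * τ = 1 ∧ Blk τ ∧ Inv a τ ∧
      E a (pull τ x) = (((Equiv.Perm.sign τ : ℤˣ) : ℤ) : ℂ) • E a x ∧
      (τ * σ).support.card < σ.support.card by
    obtain ⟨τ, h2, hb, hi, hE, hc⟩ := hτ
    have h3 : pull σ x = pull (τ * σ) (pull τ x) := by
      rw [pull_pull, ← mul_assoc, h2, one_mul]
    rw [h3, ih _ (hn ▸ hc) (τ * σ) rfl (hb.mul hσ) (hi.mul haσ) _ (good_pull hb hN hx), hE,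
      smul_smul]
    congr 1
    rw [← Int.cast_mul, ← Units.val_mul, ← Equiv.Perm.sign_mul]
    have h4 : Equiv.Perm.sign (τ * σ * τ) = Equiv.Perm.sign σ := by
      rw [Equiv.Perm.sign_mul, mul_comm, ← Equiv.Perm.sign_mul, ← mul_assoc, h2, one_mul]
    rw [h4]
  obtain ⟨⟨i, j⟩, hJ⟩ : ∃ J, σ J ≠ J := by
    by_contra hcon
    push Not at hcon
    exact h1 (Equiv.ext hcon)
  by_cases hi : (σ (i, j)).1 = i
  · -- a transposition
    set j' := (σ (i, j)).2 with hj'
    have hσJ : σ (i, j) = (i, j') := Prod.ext hi rfl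
    have hjj : j ≠ j' := by
      rintro h
      apply hJ
      rw [hσJ, ← h]
    have haj : a i j' = a i j := by
      have h := haσ i j
      rw [hσJ] at h
      exact h
    have hsw : ∀ i₁ l, Equiv.swap (i, j) (i, j') (i₁, l) =
        if i₁ = i then (i₁, Equiv.swap j j' l) else (i₁, l) := by
      intro i₁ l
      split_ifs with h
      · subst h
        rw [Equiv.swap_apply_def, Equiv.swap_apply_def]
        simp only [Prod.mk.injEq, true_and]
        split_ifs <;> rfl
      · rw [Equiv.swap_apply_of_ne_of_ne]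
        · intro h'
          exact h (congrArg Prod.fst h')
        · intro h'
          exact h (congrArg Prod.fst h')
    have hsw1 : ∀ z, (Equiv.swap (i, j) (i, j') z).1 = z.1 := by
      rintro ⟨i₁, l⟩
      rw [hsw]
      split_ifs <;> rfl
    refine ⟨Equiv.swap (i, j) (i, j'), Equiv.swap_mul_self _ _, ?_, ?_, ?_, ?_⟩
    · intro i₁ i₂ l₁ l₂
      rw [hsw1, hsw1]
    · intro i₁ l
      rw [hsw]
      split_ifs with h
      · subst h
        show a i₁ (Equiv.swap j j' l) = a i₁ l
        rw [Equiv.swap_apply_def]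
        split_ifs with h2 h3
        · rw [h2, haj]
        · rw [h3, haj]
        · rfl
      · rfl
    · have h2 : pull (Equiv.swap (i, j) (i, j')) x = exch i j j' x := by
        funext i₁ l
        show x (Equiv.swap (i, j) (i, j') (i₁, l)).1 (Equiv.swap (i, j) (i, j') (i₁, l)).2 =
          if i₁ = i then x i₁ (Equiv.swap j j' l) else x i₁ l
        rw [hsw]
        split_ifs <;> rfl
      rw [h2, E_exch a x hx i j j' hjj haj.symm (minZero_ne hN (ha i) j),
        Equiv.Perm.sign_swap (fun h => hjj (congrArg Prod.snd h))]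
      simp
    · have := Equiv.Perm.card_support_swap_mul hJ
      rw [hσJ] at this
      exact this
  · -- an exchange of two factors
    set i' := (σ (i, j)).1 with hi'
    obtain ⟨e, he⟩ := hσ.exists_perm i j
    rw [← hi'] at he
    have hae : ∀ l, a i' (e l) = a i l := by
      intro l
      have h := haσ i l
      rw [he l] at h
      exact h
    set κ : Equiv.Perm (Fin m × Fin N) :=
      Equiv.prodCongrRight fun i₁ => if i₁ = i' then e.symm else 1 with hκ
    set s : Equiv.Perm (Fin m × Fin N) :=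
      Equiv.prodCongrLeft fun _ : Fin N => Equiv.swap i i' with hs
    have hκa : ∀ i₁ l, κ (i₁, l) = (i₁, (if i₁ = i' then e.symm else 1 : Equiv.Perm (Fin N)) l) :=
      fun _ _ => rfl
    have hsa : ∀ i₁ l, s (i₁, l) = (Equiv.swap i i' i₁, l) := fun _ _ => rfl
    have hκi : ∀ i₁ l, κ⁻¹ (i₁, l) =
        (i₁, (if i₁ = i' then e else 1 : Equiv.Perm (Fin N)) l) := by
      intro i₁ l
      rw [Equiv.Perm.inv_eq_iff_eq, hκa]
      split_ifs <;> simp
    set τ : Equiv.Perm (Fin m × Fin N) := κ⁻¹ * s * κ with hτ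
    have hτa : ∀ i₁ l, τ (i₁, l) = if i₁ = i then (i', e l) else
        if i₁ = i' then (i, e.symm l) else (i₁, l) := by
      intro i₁ l
      rw [hτ, Equiv.Perm.mul_apply, Equiv.Perm.mul_apply, hκa, hsa, hκi]
      by_cases h1 : i₁ = i
      · subst h1
        rw [Equiv.swap_apply_left, if_pos rfl, if_neg (Ne.symm hi), if_pos rfl]
        rfl
      · by_cases h2 : i₁ = i'
        · subst h2
          rw [Equiv.swap_apply_right, if_neg (Ne.symm hi), if_pos rfl, if_neg h1, if_pos rfl]
          rfl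
        · rw [Equiv.swap_apply_of_ne_of_ne h1 h2, if_neg h2, if_neg h2, if_neg h1, if_neg h2]
          rfl
    have hττ : τ * τ = 1 := by
      have hss : s * s = 1 := by
        ext1 ⟨i₁, l⟩
        rw [Equiv.Perm.mul_apply, hsa, hsa, Equiv.swap_apply_self]
        rfl
      rw [hτ]
      calc κ⁻¹ * s * κ * (κ⁻¹ * s * κ) = κ⁻¹ * (s * s) * κ := by group
        _ = 1 := by rw [hss]; group
    have hτ1 : ∀ z, (τ z).1 = Equiv.swap i i' z.1 := by
      rintro ⟨i₁, l⟩
      rw [hτa, Equiv.swap_apply_def]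
      split_ifs <;> rfl
    refine ⟨τ, hττ, ?_, ?_, ?_, ?_⟩
    · intro i₁ i₂ l₁ l₂
      rw [hτ1, hτ1]
      exact (Equiv.swap i i').injective.eq_iff
    · intro i₁ l
      rw [hτa]
      split_ifs with h2 h3
      · subst h2
        exact hae l
      · subst h3
        have h := hae (e.symm l)
        rw [Equiv.apply_symm_apply] at h
        exact h.symm
      · rfl
    · have h2 : pull τ x = exchF i i' e x := by
        funext i₁ l
        show x (τ (i₁, l)).1 (τ (i₁, l)).2 =
          if i₁ = i then x i' (e l) else if i₁ = i' then x i (e.symm l) else x i₁ l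
        rw [hτa]
        split_ifs <;> rfl
      rw [h2, E_exchF hN a x hx i i' (Ne.symm hi) e hae (ha i)]
      have h3 : Equiv.Perm.sign τ = (-1) ^ N := by
        rw [hτ, Equiv.Perm.sign_mul, Equiv.Perm.sign_mul, mul_comm, ← mul_assoc,
          Equiv.Perm.sign_inv, Int.units_mul_self, one_mul, hs, Equiv.Perm.sign_prodCongrLeft,
          Finset.prod_const, Equiv.Perm.sign_swap (Ne.symm hi), Finset.card_univ,
          Fintype.card_fin]
      rw [h3]
      push_cast
      rfl
    · apply Finset.card_lt_card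
      rw [Finset.ssubset_iff_of_subset]
      · refine ⟨(i, j), Equiv.Perm.mem_support.mpr hJ, ?_⟩
        rw [Equiv.Perm.mem_support, not_not, Equiv.Perm.mul_apply, he j, hτa, if_neg hi,
          if_pos rfl, Equiv.symm_apply_apply]
      · intro z hz
        rw [Equiv.Perm.mem_support] at hz ⊢
        intro hσz
        apply hz
        obtain ⟨i₁, l⟩ := z
        rw [Equiv.Perm.mul_apply, hσz, hτa]
        have h2 : i₁ ≠ i := by
          rintro rfl
          have := congrArg Prod.fst hσz
          rw [he l] at this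
          exact hi this
        have h3 : i₁ ≠ i' := by
          intro h3
          have h4 : (σ (i₁, l)).1 = (σ (i, j)).1 := by rw [hσz, h3]
          exact h2 ((hσ i₁ i l j).1 h4)
        rw [if_neg h2, if_neg h3]

theorem E_sign [NeZero d] (hN : 2 ≤ N) (a : Fin m → Fin N → ZMod d) (ha : ∀ i, MinZero (a i))
    (σ : Equiv.Perm (Fin m × Fin N))
    (hσ : ∀ i i' j j', (σ (i, j)).1 = (σ (i', j')).1 ↔ i = i')
    (haσ : ∀ i j, a (σ (i, j)).1 (σ (i, j)).2 = a i j) (x : Fin m → Fin N → ℂ) (hx : Good d x) :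
    E a (fun i j => x (σ (i, j)).1 (σ (i, j)).2) =
      (((Equiv.Perm.sign σ : ℤˣ) : ℤ) : ℂ) • E a x :=
  sign_aux hN a ha _ σ rfl hσ haσ x hx

end Pool.Agent.FBB
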