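import Pool.Agent.FBB.Pt
import Pool.Agent.FBB.Fourier
import Pool.Agent.FBB.Block
import Pool.Agent.FBB.Ops
import Pool.Agent.FBB.Sign
import Pool.Agent.FBB.SavChen
import Pool.Agent.FBB.Pattern
import Pool.Agent.FBB.Descent
import Pool.Agent.FBB.Coeff

/-!
# FBB: the theorem
-/

set_option autoImplicit false

noncomputable section

namespace Pool.Agent.FBB

open scoped LinearAlgebra.Projectivization
open Pool.Agent.ZCyc

variable {d m N : ℕ}

/-- homogeneous coordinates of the vertices of the product of differences -/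
private def vtx (x y : Pts m N) (S : Finset (Fin m)) : Fin m → Fin N → ℂ :=
  fun i => (if i ∈ S then y i else x i).rep

private lemma good_vtx {x y : Pts m N} (hx : OnX d x) (hy : OnX d y) (S : Finset (Fin m)) :
    Good d (vtx x y S) := by
  intro i
  unfold vtx
  by_cases h : i ∈ S
  · simp only [h, if_true]
    exact ⟨(y i).rep_nonzero, hy i⟩
  · simp only [h, if_false]
    exact ⟨(x i).rep_nonzero, hx i⟩

private lemma good_perm {x : Fin m → Fin N → ℂ} (hN : 0 < N) (hx : Good d x)
    (σ : Equiv.Perm (Fin m × Fin N))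
    (hσ : ∀ i i' j j', (σ (i, j)).1 = (σ (i', j')).1 ↔ i = i') :
    Good d (fun i j => x (σ (i, j)).1 (σ (i, j)).2) := by
  intro i
  obtain ⟨j₀⟩ : Nonempty (Fin N) := ⟨⟨0, hN⟩⟩
  have h1 : ∀ j, (σ (i, j)).1 = (σ (i, j₀)).1 := fun j => (hσ i i j j₀).2 rfl
  set i' := (σ (i, j₀)).1 with hi'
  have hinj : Function.Injective (fun j => (σ (i, j)).2) := by
    intro j j' h
    have : σ (i, j) = σ (i, j') := by
      rw [Prod.ext_iff]
      exact ⟨by rw [h1 j, h1 j'], h⟩
    have := σ.injective this
    simpa using this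
  have hbij : Function.Bijective (fun j => (σ (i, j)).2) :=
    (Finite.injective_iff_bijective).1 hinj
  obtain ⟨hx1, hx2⟩ := hx i'
  constructor
  · intro h
    apply hx1
    funext l
    obtain ⟨j, hj⟩ := hbij.2 l
    have := congrFun h j
    simp only [h1 j, Pi.zero_apply] at this
    simp only at hj
    rw [← hj]
    exact this
  · have : ∑ j, x (σ (i, j)).1 (σ (i, j)).2 ^ d = ∑ j, x i' ((fun j => (σ (i, j)).2) j) ^ d := by
      apply Finset.sum_congr rfl
      intro j _
      rw [h1 j]
    rw [this, hbij.sum_comp (fun l => x i' l ^ d)]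
    exact hx2

private lemma symm_block (g : Sym d m N) (i i' : Fin m) (j j' : Fin N) :
    (g.perm.symm (i, j)).1 = (g.perm.symm (i', j')).1 ↔ i = i' := by
  have := g.block (g.perm.symm (i, j)).1 (g.perm.symm (i', j')).1 (g.perm.symm (i, j)).2
    (g.perm.symm (i', j')).2
  simp only [Prod.mk.eta, Equiv.apply_symm_apply] at this
  exact this.symm

/-- class of the image of a zero-cycle -/
private lemma push_class (γ : Sym d m N →₀ ℚ) (x y : Pts m N) :
    (Submodule.Quotient.mk ((push γ (prodDiff x y)).mapRange (fun c : ℚ => (c : ℂ)) (by simp)) :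
      V d m N) = ∑ g ∈ γ.support, (γ g : ℂ) • ∑ S : Finset (Fin m),
        ((-1 : ℂ) ^ S.card) • cl d (g.lin (vtx x y S)) := by
  classical
  have h1 : ∀ (g : Sym d m N) (S : Finset (Fin m)),
      pt (g.lin (vtx x y S)) =
        Finsupp.single (g.act (fun i => if i ∈ S then y i else x i)) (1 : ℂ) := by
    intro g S
    rw [pt_eq_single _ (g.lin_ne _ (fun i => by
      unfold vtx
      exact Projectivization.rep_nonzero _))]
    rfl
  have h2 : (push γ (prodDiff x y)).mapRange (fun c : ℚ => (c : ℂ)) (by simp) =
      ∑ g ∈ γ.support, (γ g : ℂ) • ∑ S : Finset (Fin m),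
        ((-1 : ℂ) ^ S.card) • pt (g.lin (vtx x y S)) := by
    have key : ∀ z : Pts m N →₀ ℚ, z.mapRange (fun c : ℚ => (c : ℂ)) (by simp) =
        Finsupp.mapRange.addMonoidHom ((algebraMap ℚ ℂ).toAddMonoidHom) z := by
      intro z
      rfl
    rw [key]
    unfold push prodDiff
    rw [Finsupp.sum, map_sum]
    apply Finset.sum_congr rfl
    intro g _
    rw [Finsupp.mapDomain_finsetSum, Finset.smul_sum, map_sum, Finset.smul_sum]
    apply Finset.sum_congr rfl
    intro S _
    rw [h1, Finsupp.mapDomain_single, Finsupp.smul_single, Finsupp.smul_single,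
      Finsupp.smul_single, Finsupp.mapRange.addMonoidHom_apply, Finsupp.mapRange_single]
    congr 1
    simp
  rw [h2]
  unfold cl
  rw [← Submodule.mkQ_apply, map_sum]
  apply Finset.sum_congr rfl
  intro g _
  rw [map_smul, map_sum]
  congr 1

theorem main_aux [NeZero d] (hN : d + 3 ≤ 2 * N) (hm : 0 < m) (γ : Sym d m N →₀ ℚ)
    (hγ : KillsForms γ) (x y : Pts m N) (hx : OnX d x) (hy : OnX d y) :
    ∑ g ∈ γ.support, (γ g : ℂ) • ∑ S : Finset (Fin m),
      ((-1 : ℂ) ^ S.card) • cl d (g.lin (vtx x y S)) = 0 := by
  classical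
  have hd : 0 < d := Nat.pos_of_ne_zero (NeZero.ne d)
  have hN2 : 2 ≤ N := by omega
  have hN0 : 0 < N := by omega
  -- logarithms of the roots of unity
  have hz : ∀ g : Sym d m N, ∀ i j, ∃ k : ZMod d, ((g.scal (i, j) : ℂˣ) : ℂ) = psi k := by
    intro g i j
    apply exists_psi
    have := (g.scal (i, j)).2
    rw [mem_rootsOfUnity] at this
    have h2 := congrArg (Units.val) this
    simpa using h2
  choose z hz using hz
  -- the permuted vectors
  let w : Sym d m N → Finset (Fin m) → Fin m → Fin N → ℂ := fun g S i j =>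
    vtx x y S (g.perm.symm (i, j)).1 (g.perm.symm (i, j)).2
  have hw : ∀ g S, Good d (w g S) := fun g S =>
    good_perm hN0 (good_vtx hx hy S) g.perm.symm (symm_block g)
  have hlin : ∀ g S, g.lin (vtx x y S) = rot (z g) (w g S) := by
    intro g S
    funext i j
    simp only [Sym.lin, rot, w, hz]
  -- Fourier expansion
  have hdc : ((d : ℂ) ^ (m * N)) ≠ 0 := pow_ne_zero _ (by exact_mod_cast hd.ne')
  have hexp : ((d : ℂ) ^ (m * N)) • (∑ g ∈ γ.support, (γ g : ℂ) • ∑ S : Finset (Fin m),
      ((-1 : ℂ) ^ S.card) • cl d (g.lin (vtx x y S))) =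
      ∑ a : Fin m → Fin N → ZMod d, ∑ g ∈ γ.support, (γ g : ℂ) • ∑ S : Finset (Fin m),
        ((-1 : ℂ) ^ S.card) • psi (∑ i, ∑ j, a i j * z g i j) • E a (w g S) := by
    rw [Finset.sum_comm, Finset.smul_sum]
    apply Finset.sum_congr rfl
    intro g _
    rw [← Finset.smul_sum, smul_comm]
    congr 1
    rw [Finset.sum_comm, Finset.smul_sum]
    apply Finset.sum_congr rfl
    intro S _
    rw [← Finset.smul_sum, smul_comm]
    congr 1
    rw [← sum_E]
    apply Finset.sum_congr rfl
    intro a _
    rw [hlin, E_rot]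
  suffices hT : ∀ a : Fin m → Fin N → ZMod d, ∑ g ∈ γ.support, (γ g : ℂ) • ∑ S : Finset (Fin m),
      ((-1 : ℂ) ^ S.card) • psi (∑ i, ∑ j, a i j * z g i j) • E a (w g S) = 0 by
    have h0 : ((d : ℂ) ^ (m * N)) • (∑ g ∈ γ.support, (γ g : ℂ) • ∑ S : Finset (Fin m),
      ((-1 : ℂ) ^ S.card) • cl d (g.lin (vtx x y S))) = 0 := by
      rw [hexp]
      exact Finset.sum_eq_zero fun a _ => hT a
    exact (smul_eq_zero.1 h0).resolve_left hdc
  intro a
  -- case (i): a component of the character is trivial
  by_cases c1 : ∃ i₀, a i₀ = 0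
  · obtain ⟨i₀, hi₀⟩ := c1
    apply Finset.sum_eq_zero
    intro g _
    have : ∑ S : Finset (Fin m), ((-1 : ℂ) ^ S.card) •
        psi (∑ i, ∑ j, a i j * z g i j) • E a (w g S) = 0 := by
      set i' := (g.perm.symm (i₀, ⟨0, hN0⟩)).1 with hi'
      apply Finset.sum_involution (fun S _ => symmDiff S {i'})
      · intro S _
        have h1 : E a (w g (symmDiff S {i'})) = E a (w g S) := by
          have h2 : w g (symmDiff S {i'}) =
              Function.update (w g S) i₀ (w g (symmDiff S {i'}) i₀) := by
            funext i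
            by_cases hi : i = i₀
            · subst hi
              rw [Function.update_self]
            · rw [Function.update_of_ne hi]
              funext j
              have h3 : (g.perm.symm (i, j)).1 ≠ i' := by
                intro h
                exact hi ((symm_block g i i₀ j ⟨0, hN0⟩).1 h)
              simp only [w, vtx]
              have h4 : ((g.perm.symm (i, j)).1 ∈ symmDiff S {i'}) ↔
                  (g.perm.symm (i, j)).1 ∈ S := by
                rw [Finset.mem_symmDiff]
                simp [h3]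
              simp only [h4]
          rw [h2]
          obtain ⟨h5, h6⟩ := hw g (symmDiff S {i'}) i₀
          exact E_const hN2 a (w g S) (hw g S) i₀ hi₀ _ h5 h6
        rw [h1, ← add_smul]
        have h7 : ((-1 : ℂ) ^ S.card) + (-1 : ℂ) ^ (symmDiff S {i'}).card = 0 := by
          by_cases hS : i' ∈ S
          · have : symmDiff S {i'} = S.erase i' := by
              ext l
              rw [Finset.mem_symmDiff, Finset.mem_erase, Finset.mem_singleton]
              constructor
              · rintro (⟨h, h'⟩ | ⟨h, h'⟩)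
                · exact ⟨h', h⟩
                · subst h
                  exact absurd hS h'
              · rintro ⟨h, h'⟩
                exact Or.inl ⟨h', h⟩
            rw [this]
            have h8 := Finset.card_erase_add_one hS
            rw [← h8, pow_succ]
            ring
          · have : symmDiff S {i'} = insert i' S := by
              ext l
              rw [Finset.mem_symmDiff, Finset.mem_insert, Finset.mem_singleton]
              constructor
              · rintro (⟨h, h'⟩ | ⟨h, h'⟩)
                · exact Or.inr h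
                · exact Or.inl h
              · rintro (h | h)
                · subst h
                  exact Or.inr ⟨rfl, hS⟩
                · refine Or.inl ⟨h, ?_⟩
                  rintro rfl
                  exact hS h
            rw [this, Finset.card_insert_of_notMem hS, pow_succ]
            ring
        rw [h7, zero_smul]
      · intro S _ _ h
        have : i' ∈ symmDiff S {i'} ↔ i' ∈ S := by rw [h]
        rw [Finset.mem_symmDiff] at this
        by_cases hS : i' ∈ S <;> simp [hS] at this
      · intro S _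
        exact symmDiff_symmDiff_cancel_right _ _
      · intro S _
        exact Finset.mem_univ _
    rw [this, smul_zero]
  push Not at c1
  -- all the E vanish
  by_cases c2 : ∀ u : Fin m → Fin N → ℂ, Good d u → E a u = 0
  · apply Finset.sum_eq_zero
    intro g _
    have : ∑ S : Finset (Fin m), ((-1 : ℂ) ^ S.card) •
        psi (∑ i, ∑ j, a i j * z g i j) • E a (w g S) = 0 := by
      apply Finset.sum_eq_zero
      intro S _
      rw [c2 _ (hw g S), smul_zero, smul_zero]
    rw [this, smul_zero]
  have hMZ : ∀ i, MinZero (a i) := by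
    intro i
    by_contra hcon
    apply c2
    intro u hu
    by_cases hsum : ∑ j, a i j = 0
    · unfold MinZero at hcon
      push Not at hcon
      obtain ⟨A, hA, hA', hA0⟩ := hcon hsum
      exact E_zero_of_block a u hu i (c1 i) A hA hA' hA0
    · exact E_zero_of_sum a u i hsum
  have hne : ∀ i j, a i j ≠ 0 := by
    intro i j h
    apply (hMZ i).2 {j} (Finset.singleton_nonempty j)
    · intro h1
      have h2 := congrArg Finset.card h1
      rw [Finset.card_singleton, Finset.card_univ, Fintype.card_fin] at h2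
      omega
    · rw [Finset.sum_singleton]
      exact h
  choose t b hb0 hbs hab using fun i => savchev_chen hN (a i) (hMZ i)
  have htt : ∀ i i', t i = t i' := by
    intro i₁ i₂
    by_contra hcon
    apply c2
    intro u hu
    have hi : i₁ ≠ i₂ := by
      rintro rfl
      exact hcon rfl
    obtain ⟨β, β', hβ, hβ', h1, h2⟩ := pattern hN (t i₁) (t i₂) hcon (b i₁) (b i₂)
      (hb0 i₁) (hb0 i₂) (hbs i₁) (hbs i₂)
    refine E_dual a u hu i₁ i₂ hi (hne i₁) (hne i₂) β β' hβ hβ' ?_ 0 ?_
    · intro s
      have := h1 s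
      simpa only [← hab] using this
    · simpa only [← hab] using h2
  -- exchange the sums
  have hswap : ∑ g ∈ γ.support, (γ g : ℂ) • ∑ S : Finset (Fin m),
      ((-1 : ℂ) ^ S.card) • psi (∑ i, ∑ j, a i j * z g i j) • E a (w g S) =
      ∑ S : Finset (Fin m), ((-1 : ℂ) ^ S.card) • ∑ g ∈ γ.support,
        ((γ g : ℂ) * psi (∑ i, ∑ j, a i j * z g i j)) • E a (w g S) := by
    simp only [Finset.smul_sum]
    rw [Finset.sum_comm]
    apply Finset.sum_congr rfl
    intro S _
    apply Finset.sum_congr rfl
    intro g _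
    simp only [smul_smul]
    congr 1
    ring
  rw [hswap]
  apply Finset.sum_eq_zero
  intro S _
  have key : ∑ g ∈ γ.support,
        ((γ g : ℂ) * psi (∑ i, ∑ j, a i j * z g i j)) • E a (w g S) = 0 := by
    let f : Sym d m N → (Fin m → Fin N → ℕ) := fun g i j => b (g.perm (i, j)).1 (g.perm (i, j)).2
    rw [← Finset.sum_fiberwise_of_maps_to (s := γ.support) (t := γ.support.image f)
      (g := f) (fun g hg => Finset.mem_image_of_mem f hg)]
    apply Finset.sum_eq_zero
    intro c hc
    obtain ⟨g₀, hg₀, hgc⟩ := Finset.mem_image.1 hc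
    -- the sign
    have hsign : ∀ g : Sym d m N, f g = c → E a (w g S) =
        ((((Equiv.Perm.sign g.perm : ℤˣ) : ℤ) : ℂ) *
          (((Equiv.Perm.sign g₀.perm : ℤˣ) : ℤ) : ℂ)) • E a (w g₀ S) := by
      intro g hg
      let τ : Equiv.Perm (Fin m × Fin N) := g₀.perm * g.perm⁻¹
      have hτ1 : ∀ i j, τ (i, j) = g₀.perm (g.perm.symm (i, j)) := fun i j => rfl
      have hτb : ∀ i i' j j', (τ (i, j)).1 = (τ (i', j')).1 ↔ i = i' := by
        intro i i' j j'
        have h1 := g₀.block (g.perm.symm (i, j)).1 (g.perm.symm (i', j')).1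
          (g.perm.symm (i, j)).2 (g.perm.symm (i', j')).2
        simp only [Prod.mk.eta] at h1
        rw [hτ1, hτ1, h1]
        exact symm_block g i i' j j'
      have hfg : ∀ i j, b (g.perm (i, j)).1 (g.perm (i, j)).2 =
          b (g₀.perm (i, j)).1 (g₀.perm (i, j)).2 := by
        intro i j
        have h1 := congrFun (congrFun (hg.trans hgc.symm) i) j
        exact h1
      have hτa : ∀ i j, a (τ (i, j)).1 (τ (i, j)).2 = a i j := by
        intro i j
        rw [hab, hab, htt (τ (i, j)).1 i]
        congr 2
        have h2 := hfg (g.perm.symm (i, j)).1 (g.perm.symm (i, j)).2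
        simp only [Prod.mk.eta, Equiv.apply_symm_apply] at h2
        rw [hτ1]
        exact h2.symm
      have h3 := E_sign hN2 a hMZ τ hτb hτa (w g₀ S) (hw g₀ S)
      have h4 : (fun i j => w g₀ S (τ (i, j)).1 (τ (i, j)).2) = w g S := by
        funext i j
        simp only [w, hτ1, Prod.mk.eta, Equiv.symm_apply_apply]
      rw [h4] at h3
      rw [h3]
      congr 1
      have h5 : Equiv.Perm.sign τ = Equiv.Perm.sign g₀.perm * Equiv.Perm.sign g.perm := by
        rw [Equiv.Perm.sign_mul, Equiv.Perm.sign_inv]
      rw [h5]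
      push_cast
      ring
    have h6 : ∑ g ∈ γ.support with f g = c,
        ((γ g : ℂ) * psi (∑ i, ∑ j, a i j * z g i j)) • E a (w g S) =
        (∑ g ∈ γ.support with f g = c, (((γ g * ((Equiv.Perm.sign g.perm : ℤˣ) : ℤ) : ℚ)) : ℂ) *
          psi ((t ⟨0, hm⟩ : ZMod d) * ∑ i, ∑ j, (b i j : ZMod d) * z g i j)) •
          ((((Equiv.Perm.sign g₀.perm : ℤˣ) : ℤ) : ℂ) • E a (w g₀ S)) := by
      rw [Finset.sum_smul]
      apply Finset.sum_congr rfl
      intro g hg
      rw [hsign g (Finset.mem_filter.1 hg).2, smul_smul, smul_smul]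
      congr 1
      have h7 : ∑ i, ∑ j, a i j * z g i j =
          (t ⟨0, hm⟩ : ZMod d) * ∑ i, ∑ j, (b i j : ZMod d) * z g i j := by
        rw [Finset.mul_sum]
        apply Finset.sum_congr rfl
        intro i _
        rw [Finset.mul_sum]
        apply Finset.sum_congr rfl
        intro j _
        rw [hab, htt i ⟨0, hm⟩]
        ring
      rw [h7]
      push_cast
      ring
    rw [h6]
    have h8 := coeff_forms γ hγ z hz b c hb0 hbs hm
    have h9 : ∀ g : Sym d m N, (f g = c) ↔
        (∀ i j, b (g.perm (i, j)).1 (g.perm (i, j)).2 = c i j) := by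
      intro g
      constructor
      · intro h i j
        exact congrFun (congrFun h i) j
      · intro h
        funext i j
        exact h i j
    simp only [h9]
    have h10 := psi_conj (γ.support.filter
      (fun g => ∀ i j, b (g.perm (i, j)).1 (g.perm (i, j)).2 = c i j))
      (fun g => γ g * ((Equiv.Perm.sign g.perm : ℤˣ) : ℤ))
      (fun g => ∑ i, ∑ j, (b i j : ZMod d) * z g i j) (t ⟨0, hm⟩) h8
    rw [h10, zero_smul]
  rw [key, smul_zero]

theorem main [NeZero d] (hN : d + 3 ≤ 2 * N) (hm : 0 < m) (γ : Sym d m N →₀ ℚ)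
    (hγ : KillsForms γ) (x y : Pts m N) (hx : OnX d x) (hy : OnX d y) :
    push γ (prodDiff x y) ∈ ratEq ℚ d m N := by
  apply ratEq_descent
  rw [← Submodule.Quotient.mk_eq_zero, push_class]
  exact main_aux hN hm γ hγ x y hx hy

end Pool.Agent.FBB
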