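import Pool.Agent.FBB.Defs4

/-!
# Morphisms respect `X ^ m` and rational equivalence
-/

set_option autoImplicit false

noncomputable section

namespace Pool.Agent.FBB

open scoped LinearAlgebra.Projectivization

variable {d m m' N : ℕ}

private theorem zeta_pow (ζ : rootsOfUnity d ℂ) : ((ζ : ℂˣ) : ℂ) ^ d = 1 := by
  have h := ζ.2
  rw [mem_rootsOfUnity] at h
  have h1 := congrArg (fun u : ℂˣ => (u : ℂ)) h
  simpa using h1

theorem onX_app (f : Mor d m m' N) (x : Pts m N) (hx : OnX d x) : OnX d (f.app x) := by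
  intro j
  unfold Mor.app
  cases hf : f j with
  | const p hp => exact hp
  | fac i π ζ =>
    obtain ⟨a, ha⟩ := Projectivization.exists_smul_eq_mk_rep ℂ
      (fun l => ((ζ l : ℂˣ) : ℂ) * (x i).rep (π.symm l)) (fac_ne π ζ (x i))
    change ∑ l, (Projectivization.mk ℂ (fun l => ((ζ l : ℂˣ) : ℂ) * (x i).rep (π.symm l))
      (fac_ne π ζ (x i))).rep l ^ d = 0
    rw [← ha]
    have h1 : ∀ l, (a • fun l => ((ζ l : ℂˣ) : ℂ) * (x i).rep (π.symm l)) l ^ d =
        (a : ℂ) ^ d * (x i).rep (π.symm l) ^ d := by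
      intro l
      have h2 : (a • fun l => ((ζ l : ℂˣ) : ℂ) * (x i).rep (π.symm l)) l =
          (a : ℂ) * (((ζ l : ℂˣ) : ℂ) * (x i).rep (π.symm l)) := rfl
      rw [h2, mul_pow, mul_pow, zeta_pow, one_mul]
    rw [Finset.sum_congr rfl fun l _ => h1 l, ← Finset.mul_sum,
      Equiv.sum_comp π.symm (fun l => (x i).rep l ^ d), hx i, mul_zero]

/-- the composition of a morphism from a curve with a component -/
private def compP {F : Type} [Field F] [Algebra ℂ F] (P : Fin m → Fin N → F) (c : Comp d m N) :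
    Fin N → F :=
  match c with
  | .const p _ => fun l => algebraMap ℂ F (p.rep l)
  | .fac i π ζ => fun l => algebraMap ℂ F ((ζ l : ℂˣ) : ℂ) * P i (π.symm l)

private theorem compP_good {F : Type} [Field F] [Algebra ℂ F] (P : Fin m → Fin N → F)
    (hP : ∀ i, P i ≠ 0 ∧ ∑ j, P i j ^ d = 0) (c : Comp d m N) :
    compP P c ≠ 0 ∧ ∑ j, compP P c j ^ d = 0 := by
  cases c with
  | const p hp =>
    constructor
    · intro h
      apply p.rep_nonzero
      funext l
      have := congrFun h l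
      simpa [compP] using this
    · change ∑ l, algebraMap ℂ F (p.rep l) ^ d = 0
      have h1 : ∀ l, algebraMap ℂ F (p.rep l) ^ d = algebraMap ℂ F (p.rep l ^ d) := fun l =>
        (map_pow _ _ _).symm
      rw [Finset.sum_congr rfl fun l _ => h1 l, ← map_sum, hp, map_zero]
  | fac i π ζ =>
    constructor
    · intro h
      apply (hP i).1
      funext l
      have := congrFun h (π l)
      simpa [compP] using this
    · change ∑ l, (algebraMap ℂ F ((ζ l : ℂˣ) : ℂ) * P i (π.symm l)) ^ d = 0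
      have h1 : ∀ l, (algebraMap ℂ F ((ζ l : ℂˣ) : ℂ) * P i (π.symm l)) ^ d =
          P i (π.symm l) ^ d := by
        intro l
        rw [mul_pow, ← map_pow, zeta_pow, map_one, one_mul]
      rw [Finset.sum_congr rfl fun l _ => h1 l, Equiv.sum_comp π.symm (fun l => P i l ^ d)]
      exact (hP i).2

private theorem compP_red {F : Type} [Field F] [Algebra ℂ F] (A : ValuationSubring F)
    (hA : ∀ c : ℂ, algebraMap ℂ F c ∈ A) (P : Fin m → Fin N → F) (p : Pts m N) (τ : F →+* F)
    (hτ : ∀ c : ℂ, τ (algebraMap ℂ F c) = algebraMap ℂ F c)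
    (h : ∀ i, Red A (fun j => τ (P i j)) (p i)) (c : Comp d m N) :
    Red A (fun j => τ (compP P c j)) (c.app p) := by
  cases c with
  | const q hq =>
    refine ⟨1, fun j => ?_⟩
    change 1 * τ (algebraMap ℂ F (q.rep j)) - algebraMap ℂ F (q.rep j) ∈ A.nonunits
    rw [hτ, one_mul, sub_self, ValuationSubring.mem_nonunits_iff, map_zero]
    exact zero_lt_one
  | fac i π ζ =>
    obtain ⟨s, hs⟩ := h i
    obtain ⟨a, ha⟩ := Projectivization.exists_smul_eq_mk_rep ℂ
      (fun l => ((ζ l : ℂˣ) : ℂ) * (p i).rep (π.symm l)) (fac_ne π ζ (p i))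
    refine ⟨algebraMap ℂ F a * s, fun j => ?_⟩
    change algebraMap ℂ F a * s * τ (algebraMap ℂ F ((ζ j : ℂˣ) : ℂ) * P i (π.symm j)) -
      algebraMap ℂ F ((Projectivization.mk ℂ
        (fun l => ((ζ l : ℂˣ) : ℂ) * (p i).rep (π.symm l)) (fac_ne π ζ (p i))).rep j) ∈ A.nonunits
    rw [← ha]
    have h2 : (a • fun l => ((ζ l : ℂˣ) : ℂ) * (p i).rep (π.symm l)) j =
        (a : ℂ) * (((ζ j : ℂˣ) : ℂ) * (p i).rep (π.symm j)) := rfl
    rw [h2, map_mul, map_mul, map_mul, hτ]
    have h3 : algebraMap ℂ F a * s * (algebraMap ℂ F ((ζ j : ℂˣ) : ℂ) * τ (P i (π.symm j))) -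
        algebraMap ℂ F a * (algebraMap ℂ F ((ζ j : ℂˣ) : ℂ) *
          algebraMap ℂ F ((p i).rep (π.symm j))) =
        algebraMap ℂ F (a * ((ζ j : ℂˣ) : ℂ)) *
          (s * τ (P i (π.symm j)) - algebraMap ℂ F ((p i).rep (π.symm j))) := by
      rw [map_mul]
      ring
    rw [h3, mul_comm, ValuationSubring.mem_nonunits_iff, map_mul]
    have h4 := hs (π.symm j)
    rw [ValuationSubring.mem_nonunits_iff] at h4
    exact mul_lt_one_of_lt_of_le h4 ((A.valuation_le_one_iff _).2 (hA _))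

theorem ratEq_map (f : Mor d m m' N) :
    (ratEq ℚ d m N).map (Finsupp.lmapDomain ℚ ℚ f.app) ≤ ratEq ℚ d m' N := by
  unfold ratEq
  rw [Submodule.map_span_le]
  rintro z ⟨F, _, _, _, _, _, _, P, a, b, A, B, p, q, hP, hA, haA, hB, hbB, hp, hq, rfl⟩
  apply Submodule.subset_span
  have hτ : ∀ (τ : F ≃ₐ[RatFunc ℂ] F) (c : ℂ),
      (τ : F →+* F) (algebraMap ℂ F c) = algebraMap ℂ F c := by
    intro τ c
    rw [IsScalarTower.algebraMap_apply ℂ (RatFunc ℂ) F]
    exact τ.commutes _
  refine ⟨F, inferInstance, inferInstance, inferInstance, inferInstance, inferInstance,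
    inferInstance, fun j => compP P (f j), a, b, A, B, fun τ => f.app (p τ),
    fun τ => f.app (q τ), fun j => compP_good P hP (f j), hA, haA, hB, hbB,
    fun τ j => compP_red A hA P (p τ) τ (hτ τ) (hp τ) (f j),
    fun τ j => compP_red B hB P (q τ) τ (hτ τ) (hq τ) (f j), ?_⟩
  rw [map_sum]
  refine Finset.sum_congr rfl fun τ _ => ?_
  rw [map_sub, Finsupp.lmapDomain_apply, Finsupp.lmapDomain_apply, Finsupp.mapDomain_single,
    Finsupp.mapDomain_single]

end Pool.Agent.FBB
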