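import Pool.Agent.FBB.Defs4

/-!
# FBB: morphisms which induce a standard automorphism on a group of factors
-/

set_option autoImplicit false

noncomputable section

namespace Pool.Agent.FBB

open scoped LinearAlgebra.Projectivization

variable {d m m' N : ℕ}

theorem exists_onX (hN : 2 ≤ N) (hd : 0 < d) :
    ∃ o : ℙ ℂ (Fin N → ℂ), ∑ j, o.rep j ^ d = 0 := by
  obtain ⟨ε, hε⟩ := IsAlgClosed.exists_pow_nat_eq (-1 : ℂ) hd
  set v : Fin N → ℂ := Pi.single ⟨0, by omega⟩ 1 + Pi.single ⟨1, by omega⟩ ε with hv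
  have hne : (⟨0, by omega⟩ : Fin N) ≠ ⟨1, by omega⟩ := by
    intro h
    simpa using congrArg Fin.val h
  have hv0 : v ⟨0, by omega⟩ = 1 := by
    rw [hv, Pi.add_apply, Pi.single_eq_same, Pi.single_eq_of_ne hne, add_zero]
  have hv1 : v ⟨1, by omega⟩ = ε := by
    rw [hv, Pi.add_apply, Pi.single_eq_same, Pi.single_eq_of_ne hne.symm, zero_add]
  have hvne : v ≠ 0 := by
    intro h
    rw [h, Pi.zero_apply] at hv0
    exact zero_ne_one hv0
  have hsum : ∑ j, v j ^ d = 0 := by
    have h1 : ∑ j, v j ^ d = ∑ j ∈ {(⟨0, by omega⟩ : Fin N), ⟨1, by omega⟩}, v j ^ d := by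
      symm
      refine Finset.sum_subset (Finset.subset_univ _) fun j _ hj => ?_
      simp only [Finset.mem_insert, Finset.mem_singleton, not_or] at hj
      rw [hv, Pi.add_apply, Pi.single_eq_of_ne hj.1, Pi.single_eq_of_ne hj.2, add_zero,
        zero_pow hd.ne']
    rw [h1, Finset.sum_pair hne, hv0, hv1, hε]
    simp
  refine ⟨Projectivization.mk ℂ v hvne, ?_⟩
  obtain ⟨c, hc⟩ := Projectivization.exists_smul_eq_mk_rep ℂ v hvne
  rw [← hc]
  have h2 : ∀ j, (c • v) j ^ d = (c : ℂ) ^ d * v j ^ d := by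
    intro j
    rw [Pi.smul_apply, Units.smul_def, smul_eq_mul, mul_pow]
  simp only [h2]
  rw [← Finset.mul_sum, hsum, mul_zero]

theorem Induces.unique {f : Mor d m m' N} {k : ℕ} {I : Fin k ↪o Fin m} {J : Fin k ↪o Fin m'}
    {g g' : Sym d k N} (h : Induces f I J g) (h' : Induces f I J g') : g = g' := by
  have h1 : ∀ p, g.perm.symm p = g'.perm.symm p ∧ g.scal p = g'.scal p := by
    rintro ⟨b, l⟩
    obtain ⟨i, π, ζ, h2, h3⟩ := h b
    obtain ⟨i', π', ζ', h2', h3'⟩ := h' b
    rw [h2] at h2'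
    injection h2' with h4 h5 h6
    have h7 := I.injective h4
    subst h7
    subst h5
    subst h6
    exact ⟨(h3 l).1.trans (h3' l).1.symm, (h3 l).2.trans (h3' l).2.symm⟩
  have h2 : g.perm = g'.perm := by
    have : g.perm.symm = g'.perm.symm := Equiv.ext fun p => (h1 p).1
    rw [← Equiv.symm_symm g.perm, this, Equiv.symm_symm]
  have h3 : g.scal = g'.scal := funext fun p => (h1 p).2
  cases g
  cases g'
  cases h2
  cases h3
  rfl

private theorem ind_data (f : Mor d m m' N) {k : ℕ} (I : Fin k ↪o Fin m) (J : Fin k ↪o Fin m')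
    (h : Onto f (Finset.univ.map J.toEmbedding) (Finset.univ.map I.toEmbedding)) :
    ∃ (s : Equiv.Perm (Fin k)) (π : Fin k → Equiv.Perm (Fin N))
      (ζ : Fin k → Fin N → rootsOfUnity d ℂ), ∀ b, f (J b) = Comp.fac (I (s b)) (π b) (ζ b) := by
  have h1 : ∀ b : Fin k, ∃ (i : Fin k) (π : Equiv.Perm (Fin N)) (ζ : Fin N → rootsOfUnity d ℂ),
      f (J b) = Comp.fac (I i) π ζ := by
    intro b
    obtain ⟨i, hi, h2⟩ := h.1 (J b) (by simp)
    rw [Finset.mem_map] at hi
    obtain ⟨a, -, rfl⟩ := hi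
    rcases hf : f (J b) with _ | ⟨i', π, ζ⟩
    · rw [hf] at h2
      simp [Comp.src] at h2
    · rw [hf] at h2
      simp only [Comp.src, Option.some.injEq] at h2
      subst h2
      exact ⟨a, π, ζ, rfl⟩
  choose s π ζ hs using h1
  have hsurj : Function.Surjective s := by
    intro a
    obtain ⟨j, hj, h2⟩ := h.2 (I a) (by simp)
    rw [Finset.mem_map] at hj
    obtain ⟨b, -, rfl⟩ := hj
    refine ⟨b, ?_⟩
    have h3 : (f (J b)).src = some (I a) := h2
    rw [hs b] at h3
    simp only [Comp.src, Option.some.injEq] at h3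
    exact I.injective h3
  exact ⟨Equiv.ofBijective s ⟨Finite.injective_iff_surjective.mpr hsurj, hsurj⟩, π, ζ, hs⟩

/-- a morphism which maps `J` onto `I` induces a standard automorphism of `X ^ k` -/
theorem exists_induces (f : Mor d m m' N) {k : ℕ} (I : Fin k ↪o Fin m) (J : Fin k ↪o Fin m')
    (h : Onto f (Finset.univ.map J.toEmbedding) (Finset.univ.map I.toEmbedding)) :
    ∃ g, Induces f I J g := by
  obtain ⟨s, π, ζ, hs⟩ := ind_data f I J h
  refine ⟨⟨(Equiv.prodShear s fun b => (π b).symm).symm, ?_, fun p => ζ p.1 p.2⟩, fun b =>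
    ⟨s b, π b, ζ b, hs b, fun l => ⟨rfl, rfl⟩⟩⟩
  intro i i' j j'
  exact s.symm.injective.eq_iff

private theorem ind_perm {f : Mor d m m' N} {k : ℕ} {I : Fin k ↪o Fin m} {J : Fin k ↪o Fin m'}
    {g : Sym d k N} (h : Induces f I J g) (hN : 0 < N) :
    ∃ (s : Equiv.Perm (Fin k)) (π : Fin k → Equiv.Perm (Fin N))
      (ζ : Fin k → Fin N → rootsOfUnity d ℂ), ∀ b, f (J b) = Comp.fac (I (s b)) (π b) (ζ b) ∧
        ∀ l, g.perm.symm (b, l) = (s b, (π b).symm l) ∧ g.scal (b, l) = ζ b l := by
  choose s π ζ hs using h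
  have hinj : Function.Injective s := by
    intro b b' hbb
    have l : Fin N := ⟨0, hN⟩
    have h1 : g.perm (s b, (π b).symm l) = (b, l) := by
      rw [← ((hs b).2 l).1, Equiv.apply_symm_apply]
    have h2 : g.perm (s b', (π b').symm l) = (b', l) := by
      rw [← ((hs b').2 l).1, Equiv.apply_symm_apply]
    have h3 := (g.block (s b) (s b') ((π b).symm l) ((π b').symm l)).2 hbb
    rw [h1, h2] at h3
    exact h3
  exact ⟨Equiv.ofBijective s ⟨hinj, Finite.injective_iff_surjective.mp hinj⟩, π, ζ, hs⟩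

theorem onto_of_induces (hN : 0 < N) (f : Mor d m m' N) {k : ℕ} (I : Fin k ↪o Fin m)
    (J : Fin k ↪o Fin m') (g : Sym d k N) (h : Induces f I J g) :
    Onto f (Finset.univ.map J.toEmbedding) (Finset.univ.map I.toEmbedding) := by
  obtain ⟨s, π, ζ, hs⟩ := ind_perm h hN
  constructor
  · intro j hj
    rw [Finset.mem_map] at hj
    obtain ⟨b, -, rfl⟩ := hj
    refine ⟨I (s b), by simp, ?_⟩
    have := (hs b).1
    simp only [RelEmbedding.coe_toEmbedding, this, Comp.src]
  · intro i hi
    rw [Finset.mem_map] at hi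
    obtain ⟨a, -, rfl⟩ := hi
    refine ⟨J (s.symm a), by simp, ?_⟩
    have := (hs (s.symm a)).1
    simp only [RelEmbedding.coe_toEmbedding, this, Comp.src, Equiv.apply_symm_apply]

private theorem mk_rep_one (p : ℙ ℂ (Fin N → ℂ)) (v : Fin N → ℂ) (hv : v ≠ 0)
    (h : v = p.rep) : Projectivization.mk ℂ v hv = p := by
  subst h
  exact Projectivization.mk_rep p

private theorem emb_app_mem (o : ℙ ℂ (Fin N → ℂ)) (ho : ∑ j, o.rep j ^ d = 0) {k : ℕ}
    (J : Fin k ↪o Fin m') (z : Pts k N) (b : Fin k) : (emb (d := d) o ho J).app z (J b) = z b := by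
  unfold Mor.app emb
  have h : ∃ b', J b' = J b := ⟨b, rfl⟩
  rw [dif_pos h]
  have hb : h.choose = b := J.injective h.choose_spec
  rw [hb]
  refine mk_rep_one _ _ _ ?_
  funext l
  simp only [Pi.one_apply, Units.val_one, OneMemClass.coe_one, one_mul]
  rfl

private theorem emb_app_notMem (o : ℙ ℂ (Fin N → ℂ)) (ho : ∑ j, o.rep j ^ d = 0) {k : ℕ}
    (J : Fin k ↪o Fin m') (z : Pts k N) (j : Fin m') (hj : ¬ ∃ b, J b = j) :
    (emb (d := d) o ho J).app z j = o := by
  unfold Mor.app emb
  rw [dif_neg hj]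
  rfl

/-- the product of differences on the factors `J`, with the constant `o` elsewhere -/
theorem cyc_induces (f : Mor d m m' N) {k : ℕ} (I : Fin k ↪o Fin m) (J : Fin k ↪o Fin m')
    (g : Sym d k N) (h : Induces f I J g) (o : ℙ ℂ (Fin N → ℂ)) (ho : ∑ j, o.rep j ^ d = 0)
    (x y : Pts m N) :
    ((prodDiff (fun b => x (I b)) (fun b => y (I b))).mapDomain g.act).mapDomain
        (emb (d := d) o ho J).app =
      cyc (Finset.univ.map J.toEmbedding)
        (fun j => if j ∈ Finset.univ.map J.toEmbedding then f.app x j else o)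
        (fun j => if j ∈ Finset.univ.map J.toEmbedding then f.app y j else o) := by
  classical
  have hN : 0 < N := by
    rcases Nat.eq_zero_or_pos N with rfl | hN
    · exact absurd (Subsingleton.elim o.rep 0) o.rep_nonzero
    · exact hN
  obtain ⟨s, π, ζ, hs⟩ := ind_perm h hN
  unfold prodDiff cyc
  rw [Finsupp.mapDomain_finsetSum, Finsupp.mapDomain_finsetSum]
  simp only [Finsupp.mapDomain_single]
  refine Finset.sum_bij (fun S _ => (S.map s.symm.toEmbedding).map J.toEmbedding) ?_ ?_ ?_ ?_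
  · intro S _
    rw [Finset.mem_powerset]
    exact Finset.map_subset_map.mpr (Finset.subset_univ _)
  · intro S _ S' _ hSS
    exact Finset.map_injective _ (Finset.map_injective _ hSS)
  · intro T hT
    rw [Finset.mem_powerset, Finset.subset_map_iff] at hT
    obtain ⟨U, -, rfl⟩ := hT
    refine ⟨U.map s.toEmbedding, Finset.mem_univ _, ?_⟩
    congr 1
    rw [Finset.map_map]
    convert Finset.map_refl
    ext b
    simp
  · intro S _
    rw [Finset.card_map, Finset.card_map]
    congr 1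
    funext j
    by_cases hj : ∃ b, J b = j
    · obtain ⟨b, rfl⟩ := hj
      rw [emb_app_mem]
      have h1 : (J b ∈ (S.map s.symm.toEmbedding).map J.toEmbedding) ↔ s b ∈ S := by
        simp [Finset.mem_map]
      have h2 : J b ∈ Finset.univ.map J.toEmbedding := by simp
      rw [if_pos h2, if_pos h2]
      unfold Sym.act Mor.app
      rw [(hs b).1]
      by_cases hb : s b ∈ S
      · rw [if_pos (h1.mpr hb)]
        unfold Comp.app
        congr 1
        funext l
        unfold Sym.lin
        rw [((hs b).2 l).1, ((hs b).2 l).2]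
        simp only [if_pos hb]
      · rw [if_neg (fun h3 => hb (h1.mp h3))]
        unfold Comp.app
        congr 1
        funext l
        unfold Sym.lin
        rw [((hs b).2 l).1, ((hs b).2 l).2]
        simp only [if_neg hb]
    · rw [emb_app_notMem _ _ _ _ _ hj]
      have h2 : j ∉ Finset.univ.map J.toEmbedding := by
        intro h3
        rw [Finset.mem_map] at h3
        obtain ⟨b, -, hb⟩ := h3
        exact hj ⟨b, hb⟩
      rw [if_neg h2, if_neg h2, ite_self]

end Pool.Agent.FBB
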