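import Pool.Agent.FBB.Defs4
import Pool.Agent.FBB.Funct

/-!
# The push-forward of a product of differences
-/

set_option autoImplicit false

noncomputable section

namespace Pool.Agent.FBB

open scoped LinearAlgebra.Projectivization

variable {d m m' N : ℕ}

/-- alternating sums over an interval of sets -/
private theorem mapCyc_alt {α : Type} [DecidableEq α] (A I : Finset α) (h : A ⊆ I) :
    ∑ S ∈ I.powerset, (if A ⊆ S then (-1 : ℚ) ^ S.card else 0)
      = if A = I then (-1) ^ I.card else 0 := by
  split_ifs with hAI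
  · subst hAI
    rw [Finset.sum_eq_single A]
    · rw [if_pos (Finset.Subset.refl A)]
    · intro S hS hne
      rw [if_neg]
      intro h2
      exact hne (Finset.Subset.antisymm (Finset.mem_powerset.1 hS) h2)
    · intro h2
      exact absurd (Finset.mem_powerset.2 (Finset.Subset.refl A)) h2
  · obtain ⟨i, hi, hiA⟩ : ∃ i ∈ I, i ∉ A := by
      by_contra hcon
      push Not at hcon
      exact hAI (Finset.Subset.antisymm h hcon)
    have hI : I = insert i (I.erase i) := (Finset.insert_erase hi).symm
    rw [hI, Finset.sum_powerset_insert (Finset.notMem_erase i I), ← Finset.sum_add_distrib]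
    refine Finset.sum_eq_zero fun S hS => ?_
    have hiS : i ∉ S := fun h2 => by
      have := Finset.mem_powerset.1 hS h2
      exact Finset.notMem_erase i I this
    have e : A ⊆ insert i S ↔ A ⊆ S := by
      constructor
      · intro h2 a ha
        rcases Finset.mem_insert.1 (h2 ha) with h3 | h3
        · exact absurd (h3 ▸ ha) hiA
        · exact h3
      · intro h2
        exact h2.trans (Finset.subset_insert i S)
    rw [Finset.card_insert_of_notMem hiS]
    simp only [e]
    split_ifs
    · rw [pow_succ]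
      ring
    · simp

/-- one of the points of the cube -/
private def mapCyc_e (x y : Pts m N) (S : Finset (Fin m)) : Pts m N →₀ ℚ :=
  Finsupp.single (fun i => if i ∈ S then y i else x i) 1

private theorem mapCyc_cyc (I : Finset (Fin m)) (x y : Pts m N) :
    cyc I x y = ∑ S ∈ I.powerset, ((-1 : ℚ) ^ S.card) • mapCyc_e x y S := by
  unfold cyc mapCyc_e
  refine Finset.sum_congr rfl fun S _ => ?_
  rw [Finsupp.smul_single, smul_eq_mul, mul_one]

private theorem mapCyc_moebius (T : Finset (Fin m)) (x y : Pts m N) :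
    mapCyc_e x y T = ∑ K ∈ T.powerset, ((-1 : ℚ) ^ K.card) • cyc K x y := by
  classical
  have h1 : ∀ K ∈ T.powerset, ((-1 : ℚ) ^ K.card) • cyc K x y
      = ∑ S ∈ T.powerset, ((if S ⊆ K then (-1 : ℚ) ^ K.card else 0) * (-1) ^ S.card) •
        mapCyc_e x y S := by
    intro K hK
    rw [mapCyc_cyc, Finset.smul_sum]
    have hK' := Finset.mem_powerset.1 hK
    rw [← Finset.sum_subset (Finset.powerset_mono.2 hK')]
    · refine Finset.sum_congr rfl fun S hS => ?_
      rw [if_pos (Finset.mem_powerset.1 hS), smul_smul]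
    · intro S _ hS
      rw [if_neg (fun h => hS (Finset.mem_powerset.2 h)), zero_mul, zero_smul]
  rw [Finset.sum_congr rfl h1, Finset.sum_comm]
  have h2 : ∀ S ∈ T.powerset, ∑ K ∈ T.powerset,
      ((if S ⊆ K then (-1 : ℚ) ^ K.card else 0) * (-1) ^ S.card) • mapCyc_e x y S
      = ((if S = T then (-1 : ℚ) ^ T.card else 0) * (-1) ^ S.card) • mapCyc_e x y S := by
    intro S hS
    rw [← Finset.sum_smul, ← Finset.sum_mul, mapCyc_alt S T (Finset.mem_powerset.1 hS)]
  rw [Finset.sum_congr rfl h2, Finset.sum_eq_single T]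
  · rw [if_pos rfl, ← pow_add, ← two_mul, pow_mul, neg_one_sq, one_pow, one_smul]
  · intro S _ hS
    rw [if_neg hS, zero_mul, zero_smul]
  · intro h
    exact absurd (Finset.mem_powerset.2 (Finset.Subset.refl T)) h

open Classical in
/-- the components which come from `S` -/
private def mapCyc_T (f : Mor d m m' N) (S : Finset (Fin m)) : Finset (Fin m') :=
  Finset.univ.filter fun j => ∃ i ∈ S, (f j).src = some i

private theorem mapCyc_mem_T (f : Mor d m m' N) (S : Finset (Fin m)) (j : Fin m') :
    j ∈ mapCyc_T f S ↔ ∃ i ∈ S, (f j).src = some i := by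
  classical
  unfold mapCyc_T
  simp

private theorem mapCyc_app (f : Mor d m m' N) (x y : Pts m N) (S : Finset (Fin m)) :
    f.app (fun i => if i ∈ S then y i else x i)
      = fun j => if j ∈ mapCyc_T f S then f.app y j else f.app x j := by
  funext j
  by_cases h : j ∈ mapCyc_T f S
  · rw [if_pos h]
    rw [mapCyc_mem_T] at h
    obtain ⟨i, hi, hji⟩ := h
    unfold Mor.app
    cases hf : f j with
    | const p hp => rfl
    | fac i' π ζ =>
      rw [hf] at hji
      have e : i' = i := by simpa [Comp.src] using hji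
      subst e
      simp only [Comp.app, if_pos hi]
  · rw [if_neg h]
    rw [mapCyc_mem_T] at h
    unfold Mor.app
    cases hf : f j with
    | const p hp => rfl
    | fac i' π ζ =>
      have hi : i' ∉ S := fun hi => h ⟨i', hi, by rw [hf]; rfl⟩
      simp only [Comp.app, if_neg hi]

private theorem mapCyc_map_e (f : Mor d m m' N) (x y : Pts m N) (S : Finset (Fin m)) :
    (mapCyc_e x y S).mapDomain f.app = mapCyc_e (f.app x) (f.app y) (mapCyc_T f S) := by
  unfold mapCyc_e
  rw [Finsupp.mapDomain_single, mapCyc_app]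

open Classical in
private theorem mapCyc_inner (f : Mor d m m' N) (I : Finset (Fin m)) (K : Finset (Fin m')) :
    ∑ S ∈ I.powerset, (if K ⊆ mapCyc_T f S then (-1 : ℚ) ^ S.card else 0)
      = if Onto f K I then (-1) ^ I.card else 0 := by
  by_cases hK : ∀ j ∈ K, ∃ i ∈ I, (f j).src = some i
  · -- the set of sources
    let A : Finset (Fin m) := I.filter fun i => ∃ j ∈ K, (f j).src = some i
    have hA : A ⊆ I := Finset.filter_subset _ _
    have e1 : ∀ S ∈ I.powerset, (K ⊆ mapCyc_T f S ↔ A ⊆ S) := by
      intro S hS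
      constructor
      · intro h i hi
        obtain ⟨_, j, hj, hji⟩ := Finset.mem_filter.1 hi
        obtain ⟨i', hi', hji'⟩ := (mapCyc_mem_T f S j).1 (h hj)
        rw [hji] at hji'
        have e : i = i' := by simpa using hji'
        rwa [e]
      · intro h j hj
        obtain ⟨i, hi, hji⟩ := hK j hj
        exact (mapCyc_mem_T f S j).2 ⟨i, h (Finset.mem_filter.2 ⟨hi, j, hj, hji⟩), hji⟩
    have e2 : Onto f K I ↔ A = I := by
      constructor
      · intro h
        refine Finset.Subset.antisymm hA fun i hi => ?_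
        exact Finset.mem_filter.2 ⟨hi, h.2 i hi⟩
      · intro h
        refine ⟨hK, fun i hi => ?_⟩
        rw [← h] at hi
        exact (Finset.mem_filter.1 hi).2
    rw [Finset.sum_congr rfl fun S hS => by rw [if_congr (e1 S hS) rfl rfl]]
    rw [mapCyc_alt A I hA, if_congr e2 rfl rfl]
  · rw [if_neg (fun h => hK h.1)]
    refine Finset.sum_eq_zero fun S hS => ?_
    rw [if_neg]
    intro h
    apply hK
    intro j hj
    obtain ⟨i, hi, hji⟩ := (mapCyc_mem_T f S j).1 (h hj)
    exact ⟨i, Finset.mem_powerset.1 hS hi, hji⟩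

open Classical in
theorem map_cyc (f : Mor d m m' N) (I : Finset (Fin m)) (x y : Pts m N) :
    (cyc I x y).mapDomain f.app = ∑ K : Finset (Fin m') with Onto f K I,
      ((-1 : ℚ) ^ (K.card + I.card)) • cyc K (f.app x) (f.app y) := by
  have h1 : (cyc I x y).mapDomain f.app = ∑ S ∈ I.powerset, ((-1 : ℚ) ^ S.card) •
      mapCyc_e (f.app x) (f.app y) (mapCyc_T f S) := by
    rw [mapCyc_cyc, Finsupp.mapDomain_finsetSum]
    refine Finset.sum_congr rfl fun S _ => ?_
    rw [Finsupp.mapDomain_smul, mapCyc_map_e]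
  have h2 : ∀ S ∈ I.powerset, ((-1 : ℚ) ^ S.card) •
      mapCyc_e (f.app x) (f.app y) (mapCyc_T f S)
      = ∑ K : Finset (Fin m'), ((if K ⊆ mapCyc_T f S then (-1 : ℚ) ^ S.card else 0)
        * (-1) ^ K.card) • cyc K (f.app x) (f.app y) := by
    intro S _
    rw [mapCyc_moebius, Finset.smul_sum]
    rw [← Finset.sum_subset (Finset.subset_univ (mapCyc_T f S).powerset)]
    · refine Finset.sum_congr rfl fun K hK => ?_
      rw [if_pos (Finset.mem_powerset.1 hK), smul_smul]
    · intro K _ hK
      rw [if_neg (fun h => hK (Finset.mem_powerset.2 h)), zero_mul, zero_smul]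
  rw [h1, Finset.sum_congr rfl h2, Finset.sum_comm, Finset.sum_filter]
  refine Finset.sum_congr rfl fun K _ => ?_
  rw [← Finset.sum_smul, ← Finset.sum_mul, mapCyc_inner]
  split_ifs
  · rw [pow_add, mul_comm]
  · rw [zero_mul, zero_smul]

private theorem mapCyc_card {f : Mor d m m' N} {K : Finset (Fin m')} {I : Finset (Fin m)}
    (h : Onto f K I) : I.card ≤ K.card := by
  classical
  have h1 : I.map Function.Embedding.some ⊆ K.image fun j => (f j).src := by
    intro o ho
    obtain ⟨i, hi, rfl⟩ := Finset.mem_map.1 ho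
    obtain ⟨j, hj, hji⟩ := h.2 i hi
    exact Finset.mem_image.2 ⟨j, hj, hji⟩
  have h2 := (Finset.card_le_card h1).trans Finset.card_image_le
  rwa [Finset.card_map] at h2

theorem Fil_map (n ν : ℕ) (f : Mor d m m' N) :
    (Fil n d m N ν).map (Finsupp.lmapDomain ℚ ℚ f.app) ≤ Fil n d m' N ν := by
  classical
  unfold Fil
  rw [Submodule.map_sup]
  refine sup_le ?_ ((ratEq_map f).trans le_sup_right)
  rw [Submodule.map_span, Submodule.span_le]
  rintro _ ⟨_, ⟨I, x, y, hx, hy, hν, rfl⟩, rfl⟩
  refine Submodule.mem_sup_left ?_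
  rw [Finsupp.lmapDomain_apply, map_cyc]
  refine Submodule.sum_mem _ fun K hK => Submodule.smul_mem _ _ (Submodule.subset_span ?_)
  have hK' := (Finset.mem_filter.1 hK).2
  exact ⟨K, f.app x, f.app y, onX_app f x hx, onX_app f y hy,
    hν.trans (Nat.mul_le_mul_left n (mapCyc_card hK')), rfl⟩

end Pool.Agent.FBB
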