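import Pool.Agent.FBB.Filt
import Pool.Agent.FBB.Funct
import Pool.Agent.FBB.MapCyc
import Pool.Agent.FBB.CycBase
import Pool.Agent.FBB.Induce
import Pool.Agent.FBB.Final

/-!
# FBB: condition 4 for the filtration
-/

set_option autoImplicit false

noncomputable section

namespace Pool.Agent.FBB

open scoped LinearAlgebra.Projectivization

variable {d m m' N : ℕ}

private lemma pushM_apply (γ : Mor d m m' N →₀ ℚ) (z : Pts m N →₀ ℚ) :
    pushM γ z = ∑ f ∈ γ.support, γ f • z.mapDomain f.app := by
  unfold pushM
  rw [Finsupp.sum, LinearMap.sum_apply]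
  rfl

private lemma Fil_anti' (n : ℕ) {ν ν' : ℕ} (h : ν ≤ ν') : Fil n d m N ν' ≤ Fil n d m N ν := by
  induction ν', h using Nat.le_induction with
  | base => exact le_rfl
  | succ k _ ih => exact (Fil_anti n k).trans ih

lemma map_pushM_le (n ν : ℕ) (γ : Mor d m m' N →₀ ℚ) {z : Pts m N →₀ ℚ}
    (hz : z ∈ Fil n d m N ν) : pushM γ z ∈ Fil n d m' N ν := by
  rw [pushM_apply]
  apply Submodule.sum_mem
  intro f _
  apply Submodule.smul_mem
  exact Fil_map n ν f (Submodule.mem_map_of_mem hz)

/-- the element of `ℚ[Sym]` induced on the factors `I`, `J` -/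
private def indu (γ : Mor d m m' N →₀ ℚ) {k : ℕ} (I : Fin k ↪o Fin m) (J : Fin k ↪o Fin m') :
    Sym d k N →₀ ℚ := by
  classical
  exact ∑ f ∈ γ.support, if h : ∃ g, Induces f I J g then Finsupp.single h.choose (γ f) else 0

private lemma indu_sum {M : Type} [AddCommMonoid M] (γ : Mor d m m' N →₀ ℚ) {k : ℕ}
    (I : Fin k ↪o Fin m) (J : Fin k ↪o Fin m') (F : Sym d k N → ℚ → M)
    (h0 : ∀ g, F g 0 = 0) (hadd : ∀ g a b, F g (a + b) = F g a + F g b) :
    (indu γ I J).sum F = ∑ f ∈ γ.support, (by
      classical exact if h : ∃ g, Induces f I J g then F h.choose (γ f) else 0 : M) := by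
  classical
  unfold indu
  rw [← Finsupp.sum_finsetSum_index h0 hadd]
  apply Finset.sum_congr rfl
  intro f _
  by_cases h : ∃ g, Induces f I J g
  · rw [dif_pos h, dif_pos h, Finsupp.sum_single_index (h0 _)]
  · rw [dif_neg h, dif_neg h, Finsupp.sum_zero_index]

private lemma kills_indu (γ : Mor d m m' N →₀ ℚ) (n k : ℕ) (hγ : KillsNuForms n γ (n * k))
    (I : Fin k ↪o Fin m) (J : Fin k ↪o Fin m') : KillsForms (indu γ I J) := by
  intro e he P hP
  rw [indu_sum γ I J (fun g c => (c : ℂ) • g.pull P) (fun g => by simp)
    (fun g a b => by push_cast; rw [add_smul])]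
  have := hγ k rfl e (Or.inr he) I J P hP
  rw [Finsupp.sum] at this
  refine Eq.trans ?_ this
  apply Finset.sum_congr rfl
  intro f _
  unfold pullComp
  by_cases h : ∃ g, Induces f I J g
  · rw [dif_pos h, dif_pos h]
  · rw [dif_neg h, dif_neg h, smul_zero]

/-- the images of the products of differences over `I` -/
private lemma key [NeZero d] (n : ℕ) (hn : 1 ≤ n) (hd : d + 3 ≤ 2 * N)
    (γ : Mor d m m' N →₀ ℚ) (k : ℕ) (hk : 0 < k) (hγ : KillsNuForms n γ (n * k))
    (I : Fin k ↪o Fin m) (x y : Pts m N) (hx : OnX d x) (hy : OnX d y) :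
    pushM γ (cyc (Finset.univ.map I.toEmbedding) x y) ∈ Fil n d m' N (n * k + 1) := by
  classical
  have hd0 : 0 < d := Nat.pos_of_ne_zero (NeZero.ne d)
  obtain ⟨o, ho⟩ := exists_onX (N := N) (d := d) (by omega) hd0
  have hI : (Finset.univ.map I.toEmbedding).card = k := by
    rw [Finset.card_map, Finset.card_univ, Fintype.card_fin]
  -- the main term
  let M : (Fin k ↪o Fin m') → (Pts m' N →₀ ℚ) := fun J =>
    (push (indu γ I J) (prodDiff (fun b => x (I b)) (fun b => y (I b)))).mapDomain
      (emb (d := d) o ho J).app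
  have hM : ∀ J, M J ∈ Fil n d m' N (n * k + 1) := by
    intro J
    apply ratEq_le_Fil
    have h1 := main hd hk (indu γ I J) (kills_indu γ n k hγ I J) (fun b => x (I b))
      (fun b => y (I b)) (fun b => hx (I b)) (fun b => hy (I b))
    exact ratEq_map (emb (d := d) o ho J) (Submodule.mem_map_of_mem h1)
  have hM' : ∀ J, M J = ∑ f ∈ γ.support, γ f •
      (if (Onto f (Finset.univ.map J.toEmbedding) (Finset.univ.map I.toEmbedding)) then
        cyc (Finset.univ.map J.toEmbedding)
        (fun j => if j ∈ Finset.univ.map J.toEmbedding then f.app x j else o)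
        (fun j => if j ∈ Finset.univ.map J.toEmbedding then f.app y j else o) else 0) := by
    intro J
    have h2 : M J = (Finsupp.lmapDomain ℚ ℚ (emb (d := d) o ho J).app)
        (push (indu γ I J) (prodDiff (fun b => x (I b)) (fun b => y (I b)))) := rfl
    rw [h2]
    unfold push
    rw [indu_sum γ I J (fun g c => c • (prodDiff (fun b => x (I b))
      (fun b => y (I b))).mapDomain g.act) (fun g => by simp) (fun g a b => by rw [add_smul]),
      map_sum]
    apply Finset.sum_congr rfl
    intro f _
    by_cases h : ∃ g, Induces f I J g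
    · rw [dif_pos h, if_pos (onto_of_induces (by omega) f I J _ h.choose_spec), map_smul]
      congr 1
      exact cyc_induces f I J _ h.choose_spec o ho x y
    · rw [dif_neg h, if_neg (fun h' => h (exists_induces f I J h')), smul_zero, map_zero]
  -- the difference
  have hsum : pushM γ (cyc (Finset.univ.map I.toEmbedding) x y) - ∑ J, M J ∈
      Fil n d m' N (n * k + 1) := by
    rw [pushM_apply]
    simp only [hM']
    rw [Finset.sum_comm, ← Finset.sum_sub_distrib]
    apply Submodule.sum_mem
    intro f _
    rw [← Finset.smul_sum, ← smul_sub]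
    apply Submodule.smul_mem
    rw [map_cyc, ← Finset.sum_filter_add_sum_filter_not _ (fun K : Finset (Fin m') => K.card = k)]
    have h3 : ∀ K : Finset (Fin m'), Onto f K (Finset.univ.map I.toEmbedding) → k ≤ K.card := by
      intro K hK
      obtain ⟨-, hK2⟩ := hK
      have e1 : (Finset.univ.map I.toEmbedding).image some ⊆ K.image (fun j => (f j).src) := by
        intro s hs
        obtain ⟨i, hi, rfl⟩ := Finset.mem_image.1 hs
        obtain ⟨j, hj, hji⟩ := hK2 i hi
        exact Finset.mem_image.2 ⟨j, hj, hji⟩
      have e2 := (Finset.card_le_card e1).trans Finset.card_image_le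
      rw [Finset.card_image_of_injective _ (Option.some_injective _), hI] at e2
      exact e2
    have h4 : ∑ K ∈ ((Finset.univ.filter fun K : Finset (Fin m') =>
        Onto f K (Finset.univ.map I.toEmbedding)).filter fun K => ¬ K.card = k),
        ((-1 : ℚ) ^ (K.card + (Finset.univ.map I.toEmbedding).card)) •
          cyc K (f.app x) (f.app y) ∈ Fil n d m' N (n * k + 1) := by
      apply Submodule.sum_mem
      intro K hK
      rw [Finset.mem_filter, Finset.mem_filter] at hK
      apply Submodule.smul_mem
      have h5 : k + 1 ≤ K.card := lt_of_le_of_ne (h3 K hK.1.2) (Ne.symm hK.2)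
      have h6 : n * k + 1 ≤ n * K.card := by
        calc n * k + 1 ≤ n * k + n := by omega
          _ = n * (k + 1) := by ring
          _ ≤ n * K.card := Nat.mul_le_mul_left _ h5
      exact Submodule.mem_sup_left (Submodule.subset_span
        ⟨K, f.app x, f.app y, onX_app f x hx, onX_app f y hy, h6, rfl⟩)
    have h7 : ∑ K ∈ ((Finset.univ.filter fun K : Finset (Fin m') =>
        Onto f K (Finset.univ.map I.toEmbedding)).filter fun K => K.card = k),
        ((-1 : ℚ) ^ (K.card + (Finset.univ.map I.toEmbedding).card)) •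
          cyc K (f.app x) (f.app y) =
        ∑ J : Fin k ↪o Fin m', (if (Onto f (Finset.univ.map J.toEmbedding)
          (Finset.univ.map I.toEmbedding)) then
          cyc (Finset.univ.map J.toEmbedding) (f.app x) (f.app y) else 0) := by
      rw [← Finset.sum_filter]
      symm
      apply Finset.sum_bij (fun (J : Fin k ↪o Fin m') _ => Finset.univ.map J.toEmbedding)
      · intro J hJ
        rw [Finset.mem_filter] at hJ
        rw [Finset.mem_filter, Finset.mem_filter]
        refine ⟨⟨Finset.mem_univ _, hJ.2⟩, ?_⟩
        rw [Finset.card_map, Finset.card_univ, Fintype.card_fin]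
      · intro J _ J' _ h
        apply OrderEmbedding.range_inj.1 
        ext j
        have := Finset.ext_iff.1 h j
        simpa using this
      · intro K hK
        rw [Finset.mem_filter, Finset.mem_filter] at hK
        refine ⟨K.orderEmbOfFin hK.2, ?_, ?_⟩
        · rw [Finset.mem_filter]
          refine ⟨Finset.mem_univ _, ?_⟩
          rw [Finset.map_orderEmbOfFin_univ]
          exact hK.1.2
        · exact Finset.map_orderEmbOfFin_univ K hK.2
      · intro J _
        rw [hI, Finset.card_map, Finset.card_univ, Fintype.card_fin, ← two_mul, pow_mul]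
        simp
    rw [h7, add_sub_right_comm, ← Finset.sum_sub_distrib]
    apply Submodule.add_mem _ _ h4
    apply Submodule.sum_mem
    intro J _
    by_cases h : Onto f (Finset.univ.map J.toEmbedding) (Finset.univ.map I.toEmbedding)
    · rw [if_pos h, if_pos h]
      have hon : ∀ z : Pts m N, OnX d z → OnX d (fun j =>
          if j ∈ Finset.univ.map J.toEmbedding then f.app z j else o) := by
        intro z hz j
        by_cases hj : j ∈ Finset.univ.map J.toEmbedding
        · simp only [hj, if_true]
          exact onX_app f z hz j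
        · simp only [hj, if_false]
          exact ho
      have h8 := cyc_base n (Finset.univ.map J.toEmbedding) (f.app x) (f.app y)
        (fun j => if j ∈ Finset.univ.map J.toEmbedding then f.app x j else o)
        (fun j => if j ∈ Finset.univ.map J.toEmbedding then f.app y j else o)
        (onX_app f x hx) (onX_app f y hy) (hon x hx) (hon y hy)
        (fun j hj => by simp only [hj, if_true, and_self])
      rw [Finset.card_map, Finset.card_univ, Fintype.card_fin] at h8
      refine Fil_anti' n ?_ h8
      nlinarith
    · rw [if_neg h, if_neg h, sub_zero]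
      exact Submodule.zero_mem _
  have := Submodule.add_mem _ hsum (Submodule.sum_mem _ fun J (_ : J ∈ Finset.univ) => hM J)
  simpa using this

theorem Fil_grad [NeZero d] (n : ℕ) (hn : 1 ≤ n) (hnN : n + 2 = N) (hd : d + 3 ≤ 2 * N)
    (γ : Mor d m m' N →₀ ℚ) (ν : ℕ) (hγ : KillsNuForms n γ ν) :
    (Fil n d m N ν).map (pushM γ) ≤ Fil n d m' N (ν + 1) := by
  classical
  rw [Submodule.map_le_iff_le_comap]
  conv_lhs => unfold Fil
  rw [sup_le_iff]
  constructor
  swap
  · intro z hz
    rw [Submodule.mem_comap, pushM_apply]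
    apply Submodule.sum_mem
    intro f _
    apply Submodule.smul_mem
    apply ratEq_le_Fil
    exact ratEq_map f (Submodule.mem_map_of_mem hz)
  rw [Submodule.span_le]
  rintro z ⟨I, x, y, hx, hy, hI, rfl⟩
  rw [SetLike.mem_coe, Submodule.mem_comap]
  by_cases hlt : ν + 1 ≤ n * I.card
  · apply map_pushM_le
    exact Submodule.mem_sup_left (Submodule.subset_span ⟨I, x, y, hx, hy, hlt, rfl⟩)
  have hν : ν = n * I.card := by omega
  rcases Nat.eq_zero_or_pos I.card with h0 | hpos
  · -- `I` is empty
    rw [h0, mul_zero] at hν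
    subst hν
    have hIe : I = ∅ := Finset.card_eq_zero.1 h0
    subst hIe
    have hc : ∑ f ∈ γ.support, (γ f : ℂ) = 0 := by
      let I0 : Fin 0 ↪o Fin m := ⟨⟨fun i => i.elim0, fun i => i.elim0⟩, fun {i} => i.elim0⟩
      let J0 : Fin 0 ↪o Fin m' := ⟨⟨fun i => i.elim0, fun i => i.elim0⟩, fun {i} => i.elim0⟩
      have h1 := hγ 0 (by simp) 0 (Or.inl rfl) I0 J0 1 (fun s _ i => i.elim0)
      rw [Finsupp.sum] at h1
      have h2 : ∀ f : Mor d m m' N, pullComp f I0 J0 1 = 1 := by
        intro f
        unfold pullComp
        have h3 : ∃ g : Sym d 0 N, Induces f I0 J0 g :=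
          ⟨⟨1, fun i => i.elim0, fun J => J.1.elim0⟩, fun b => b.elim0⟩
        rw [dif_pos h3]
        unfold Sym.pull
        rw [map_one]
        have h4 : h3.choose.perm = 1 := by
          ext J
          · exact J.1.elim0
          · exact J.1.elim0
        rw [h4]
        simp
      simp only [h2] at h1
      have h5 := congrArg MvPolynomial.constantCoeff h1
      rw [map_sum, map_zero] at h5
      simpa [MvPolynomial.smul_eq_C_mul] using h5
    have hc' : ∑ f ∈ γ.support, γ f = 0 := by exact_mod_cast hc
    rw [Fil_one n hn]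
    have h6 : pushM γ (cyc ∅ x y) = ∑ f ∈ γ.support, Finsupp.single (f.app x) (γ f) := by
      rw [pushM_apply]
      apply Finset.sum_congr rfl
      intro f _
      unfold cyc
      simp [Finsupp.mapDomain_single]
    rw [h6]
    constructor
    · intro p hp
      rw [Finsupp.mem_support_iff, Finsupp.finsetSum_apply] at hp
      obtain ⟨f, _, hf⟩ := Finset.exists_ne_zero_of_sum_ne_zero hp
      rw [Finsupp.single_apply] at hf
      have : f.app x = p := by
        by_contra hne
        rw [if_neg hne] at hf
        exact hf rfl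
      rw [← this]
      exact onX_app f x hx
    · rw [← Finsupp.sum_finsetSum_index (fun _ => rfl) (fun _ _ _ => rfl), ← hc']
      apply Finset.sum_congr rfl
      intro f _
      rw [Finsupp.sum_single_index rfl]
  · have hmap : Finset.univ.map (I.orderEmbOfFin rfl).toEmbedding = I :=
      Finset.map_orderEmbOfFin_univ I rfl
    have h1 := key n hn hd γ I.card hpos (hν ▸ hγ) (I.orderEmbOfFin rfl) x y hx hy
    rw [hmap, ← hν] at h1
    exact h1

end Pool.Agent.FBB
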